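import Pool.Agent.Work.MP_71af4b_pr.Law

set_option autoImplicit false

open MeasureTheory ProbabilityTheory Measure Filter
open scoped ENNReal

namespace Pool.Agent.Work.MP_71af4b_pr

lemma expMeasure_Ioi_ne_zero (M : ℝ) : expMeasure 1 (Set.Ioi M) ≠ 0 := by
  intro h
  have h1 : expMeasure 1 (Set.Ioi (max M 0)) = 0 :=
    measure_mono_null (Set.Ioi_subset_Ioi (le_max_left _ _)) h
  have h2 := exp_shift (m := max M 0) (le_max_right _ _)
  have h3 : (expMeasure 1).restrict (Set.Ioi (max M 0)) = 0 := by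
    rw [Measure.restrict_eq_zero]; exact h1
  rw [h3, Measure.map_zero] at h2
  have h4 := congrArg (fun μ : Measure ℝ => μ Set.univ) h2
  simp only [Measure.coe_zero, Pi.zero_apply, Measure.smul_apply, measure_univ, smul_eq_mul,
    mul_one] at h4
  have h5 := Real.exp_pos (-(max M 0))
  have := ENNReal.ofReal_eq_zero.mp h4.symm
  linarith

section

variable {Ω : Type*} [MeasurableSpace Ω] {P : Measure Ω} [IsProbabilityMeasure P]
  {gap : ℤ → ℕ → Ω → ℝ}

omit [IsProbabilityMeasure P] in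
lemma ae_pos (hm : ∀ x k, Measurable (gap x k)) (hl : ∀ x k, P.map (gap x k) = expMeasure 1) :
    ∀ᵐ ω ∂P, ∀ x k, 0 < gap x k ω := by
  rw [ae_all_iff]; intro x
  rw [ae_all_iff]; intro k
  have h : P.map (gap x k) (Set.Iic 0) = 0 := by rw [hl, expMeasure_Iic]
  rw [map_apply (hm x k) measurableSet_Iic] at h
  rw [ae_iff]
  refine measure_mono_null ?_ h
  intro ω hω
  simp only [Set.mem_ofPred_eq, not_lt] at hω
  exact hω

lemma ae_frequently (hm : ∀ x k, Measurable (gap x k))
    (hi : iIndepFun (fun p : ℤ × ℕ => gap p.1 p.2) P)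
    (hl : ∀ x k, P.map (gap x k) = expMeasure 1) {f : ℕ → ℤ × ℕ} (hf : Function.Injective f)
    (M : ℝ) : ∀ᵐ ω ∂P, ∃ᶠ n in atTop, M < gap (f n).1 (f n).2 ω := by
  set s : ℕ → Set Ω := fun n => gap (f n).1 (f n).2 ⁻¹' Set.Ioi M with hs
  have hsm : ∀ n, MeasurableSet (s n) := fun n => hm _ _ measurableSet_Ioi
  have hPs : ∀ n, P (s n) = expMeasure 1 (Set.Ioi M) := by
    intro n
    rw [← hl (f n).1 (f n).2, map_apply (hm _ _) measurableSet_Ioi]
  have hi' : iIndepFun (fun n => gap (f n).1 (f n).2) P := hi.precomp hf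
  have hind : iIndepSet s P := by
    rw [iIndepSet_iff_meas_biInter hsm]
    intro t
    exact hi'.measure_inter_preimage_eq_mul t (sets := fun _ => Set.Ioi M)
      (fun _ _ => measurableSet_Ioi)
  have hsum : (∑' n, P (s n)) = ∞ := by
    simp only [hPs]
    exact ENNReal.tsum_const_eq_top_of_ne_zero (expMeasure_Ioi_ne_zero M)
  have hlim := measure_limsup_eq_one hsm hind hsum
  have hmeas : MeasurableSet (limsup s atTop) := MeasurableSet.measurableSet_limsup hsm
  have h1 : ∀ᵐ ω ∂P, ω ∈ limsup s atTop := by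
    rw [ae_iff]
    have := (prob_compl_eq_zero_iff hmeas).mpr hlim
    exact this
  filter_upwards [h1] with ω hω
  rw [mem_limsup_iff_frequently_mem] at hω
  exact hω

lemma ae_indep_ne {X Y : Ω → ℝ} (hX : Measurable X) (hY : Measurable Y) (hXY : IndepFun X Y P)
    (hlX : P.map X = expMeasure 1) : ∀ᵐ ω ∂P, X ω ≠ Y ω := by
  have h := (indepFun_iff_map_prod_eq_prod_map_map hX.aemeasurable hY.aemeasurable).mp hXY
  have hdiag : MeasurableSet {p : ℝ × ℝ | p.1 = p.2} :=
    measurableSet_eq_fun measurable_fst measurable_snd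
  have h2 : P.map (fun ω => (X ω, Y ω)) {p : ℝ × ℝ | p.1 = p.2} = 0 := by
    rw [h, hlX]
    have : IsProbabilityMeasure (P.map Y) := isProbabilityMeasure_map hY.aemeasurable
    rw [prod_apply_symm hdiag]
    have : ∀ y : ℝ, expMeasure 1 ((fun x => (x, y)) ⁻¹' {p : ℝ × ℝ | p.1 = p.2}) = 0 := by
      intro y
      have : (fun x => (x, y)) ⁻¹' {p : ℝ × ℝ | p.1 = p.2} = {y} := by
        ext x; simp
      rw [this, expMeasure_singleton]
    simp only [this, lintegral_zero]
  rw [map_apply (hX.prodMk hY) hdiag] at h2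
  rw [ae_iff]
  simpa using h2

lemma ae_ring_ne (hm : ∀ x k, Measurable (gap x k))
    (hi : iIndepFun (fun p : ℤ × ℕ => gap p.1 p.2) P)
    (hl : ∀ x k, P.map (gap x k) = expMeasure 1) :
    ∀ᵐ ω ∂P, ∀ x y k l, x ≠ y →
      ringTime (fun x k => gap x k ω) x k ≠ ringTime (fun x k => gap x k ω) y l := by
  rw [ae_all_iff]; intro x
  rw [ae_all_iff]; intro y
  rw [ae_all_iff]; intro k
  rw [ae_all_iff]; intro l
  by_cases hxy : x = y
  · exact Eventually.of_forall fun ω h => absurd hxy h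
  set S : Finset (ℤ × ℕ) := {(x, k)} with hS
  set T : Finset (ℤ × ℕ) :=
    ((Finset.range k).image (fun j => (x, j))) ∪ ((Finset.range (l + 1)).image (fun j => (y, j)))
    with hT
  have hST : Disjoint S T := by
    rw [hS, Finset.disjoint_singleton_left, hT]
    simp only [Finset.mem_union, Finset.mem_image, Finset.mem_range, Prod.mk.injEq, not_or,
      not_exists, not_and]
    refine ⟨fun j hj h1 h2 => by omega, fun j hj h1 => absurd h1.symm hxy⟩
  have hind := hi.indepFun_finset S T hST (fun p => hm p.1 p.2)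
  set φ : (S → ℝ) → ℝ := fun v => v ⟨(x, k), by simp [hS]⟩ with hφ
  set ψ : (T → ℝ) → ℝ := fun v =>
    (∑ j ∈ (Finset.range (l + 1)).attach, v ⟨(y, j.1), by
      rw [hT]; exact Finset.mem_union_right _ (Finset.mem_image_of_mem _ j.2)⟩) -
    (∑ j ∈ (Finset.range k).attach, v ⟨(x, j.1), by
      rw [hT]; exact Finset.mem_union_left _ (Finset.mem_image_of_mem (fun j => (x, j)) j.2)⟩)
    with hψ
  have hφm : Measurable φ := measurable_pi_apply _
  have hψm : Measurable ψ :=
    Measurable.fun_sub (Finset.measurable_sum _ fun j _ => measurable_pi_apply _)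
      (Finset.measurable_sum _ fun j _ => measurable_pi_apply _)
  have hind2 := hind.comp hφm hψm
  have hX : Measurable (φ ∘ fun ω (i : S) => gap i.1.1 i.1.2 ω) :=
    hφm.comp (measurable_pi_iff.mpr fun i => hm _ _)
  have hY : Measurable (ψ ∘ fun ω (i : T) => gap i.1.1 i.1.2 ω) :=
    hψm.comp (measurable_pi_iff.mpr fun i => hm _ _)
  have hne := ae_indep_ne hX hY hind2 (by
    have : (φ ∘ fun ω (i : S) => gap i.1.1 i.1.2 ω) = gap x k := rfl
    rw [this]; exact hl x k)
  filter_upwards [hne] with ω hω _ hcon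
  apply hω
  have e1 : (φ ∘ fun ω (i : S) => gap i.1.1 i.1.2 ω) ω = gap x k ω := rfl
  have e2 : (ψ ∘ fun ω (i : T) => gap i.1.1 i.1.2 ω) ω =
      (∑ j ∈ Finset.range (l + 1), gap y j ω) - ∑ j ∈ Finset.range k, gap x j ω := by
    simp only [hψ, Function.comp]
    rw [Finset.sum_attach (Finset.range (l + 1)) (fun j => gap y j ω),
      Finset.sum_attach (Finset.range k) (fun j => gap x j ω)]
  rw [e1, e2]
  rw [ringTime, ringTime, Finset.sum_range_succ _ k] at hcon
  linarith

theorem ae_goodGap (hm : ∀ x k, Measurable (gap x k))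
    (hi : iIndepFun (fun p : ℤ × ℕ => gap p.1 p.2) P)
    (hl : ∀ x k, P.map (gap x k) = expMeasure 1) :
    ∀ᵐ ω ∂P, GoodGap (fun x k => gap x k ω) := by
  have h1 := ae_pos hm hl
  have h2 := ae_ring_ne hm hi hl
  have h3 : ∀ᵐ ω ∂P, ∀ x : ℤ, ∃ᶠ n in atTop, (1 : ℝ) < gap x n ω := by
    rw [ae_all_iff]; intro x
    exact ae_frequently hm hi hl (f := fun n => (x, n)) (fun a b h => by simpa using h) 1
  have h4 : ∀ᵐ ω ∂P, ∀ (M : ℕ) (N : ℤ), ∃ᶠ n in atTop, (M : ℝ) < gap (N + (n : ℕ)) 0 ω := by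
    rw [ae_all_iff]; intro M
    rw [ae_all_iff]; intro N
    exact ae_frequently hm hi hl (f := fun n => (N + (n : ℕ), 0)) (fun a b h => by simpa using h) M
  have h5 : ∀ᵐ ω ∂P, ∀ (M : ℕ) (N : ℤ), ∃ᶠ n in atTop, (M : ℝ) < gap (N - (n : ℕ)) 0 ω := by
    rw [ae_all_iff]; intro M
    rw [ae_all_iff]; intro N
    exact ae_frequently hm hi hl (f := fun n => (N - (n : ℕ), 0)) (fun a b h => by simpa using h) M
  filter_upwards [h1, h2, h3, h4, h5] with ω g1 g2 g3 g4 g5
  refine ⟨g1, ?_, g2, ?_, ?_⟩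
  · intro x M
    have hkey : ∀ N : ℕ, ∃ k, (N : ℝ) ≤ ringTime (fun x k => gap x k ω) x k := by
      intro N
      induction N with
      | zero =>
        exact ⟨0, by
          push_cast
          exact (Finset.sum_pos (fun j _ => g1 x j) (by simp)).le⟩
      | succ N ih =>
        obtain ⟨k, hk⟩ := ih
        obtain ⟨n, hn1, hn2⟩ := (frequently_atTop.mp (g3 x)) (k + 1)
        refine ⟨n, ?_⟩
        have e : ringTime (fun x k => gap x k ω) x n =
            (∑ j ∈ Finset.range n, gap x j ω) + gap x n ω := by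
          rw [ringTime, Finset.sum_range_succ]
        have hmono : ringTime (fun x k => gap x k ω) x k ≤ ∑ j ∈ Finset.range n, gap x j ω := by
          rw [ringTime]
          exact Finset.sum_le_sum_of_subset_of_nonneg (Finset.range_mono hn1)
            (fun j _ _ => (g1 x j).le)
        push_cast
        rw [e]
        linarith
    obtain ⟨N, hN⟩ := exists_nat_gt M
    obtain ⟨k, hk⟩ := hkey N
    exact ⟨k, lt_of_lt_of_le hN hk⟩
  · intro M N
    obtain ⟨M', hM'⟩ := exists_nat_gt M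
    obtain ⟨n, hn⟩ := (g4 M' N).exists
    refine ⟨N + (n : ℕ), by omega, ?_⟩
    have : ringTime (fun x k => gap x k ω) (N + (n : ℕ)) 0 = gap (N + (n : ℕ)) 0 ω := by
      simp [ringTime]
    rw [this]; linarith
  · intro M N
    obtain ⟨M', hM'⟩ := exists_nat_gt M
    obtain ⟨n, hn⟩ := (g5 M' N).exists
    refine ⟨N - (n : ℕ), by omega, ?_⟩
    have : ringTime (fun x k => gap x k ω) (N - (n : ℕ)) 0 = gap (N - (n : ℕ)) 0 ω := by
      simp [ringTime]
    rw [this]; linarith

omit [IsProbabilityMeasure P] in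
/-- The law of the relevant clocks. -/
theorem map_sub (hm : ∀ x k, Measurable (gap x k))
    (hi : iIndepFun (fun p : ℤ × ℕ => gap p.1 p.2) P)
    (hl : ∀ x k, P.map (gap x k) = expMeasure 1) (l : ℤ) (E : ℕ) :
    P.map (fun ω => sub (fun x k => gap x k ω) l E) = muE E := by
  set f : Fin E × ℕ → ℤ × ℕ := fun p => (l + (p.1 : ℕ), p.2) with hf
  have hfi : Function.Injective f := by
    rintro ⟨a, b⟩ ⟨c, d⟩ h
    simp only [hf, Prod.mk.injEq] at h
    have h1 : l + ((a : ℕ) : ℤ) = l + ((c : ℕ) : ℤ) := h.1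
    exact Prod.ext (Fin.ext (by show (a : ℕ) = c; omega)) h.2
  have h1 : iIndepFun (fun p : Fin E × ℕ => gap (f p).1 (f p).2) P := hi.precomp hfi
  have h2 := h1.map_fun_eq_infinitePi_map (fun p => hm _ _)
  have h3 : (fun p : Fin E × ℕ => P.map (gap (f p).1 (f p).2)) = fun _ => expMeasure 1 := by
    funext p; exact hl _ _
  rw [h3] at h2
  have hmeas : Measurable (fun ω (p : Fin E × ℕ) => gap (f p).1 (f p).2 ω) :=
    measurable_pi_iff.mpr fun p => hm _ _
  have h4 : (fun ω => sub (fun x k => gap x k ω) l E) =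
      (MeasurableEquiv.curry (Fin E) ℕ ℝ) ∘ (fun ω (p : Fin E × ℕ) => gap (f p).1 (f p).2 ω) := by
    funext ω j k
    rfl
  rw [h4, ← map_map (MeasurableEquiv.measurable _) hmeas, h2,
    infinitePi_map_curry (fun _ _ => expMeasure 1), infinitePi_eq_pi]
  rfl

lemma measurable_sub (hm : ∀ x k, Measurable (gap x k)) (l : ℤ) (E : ℕ) :
    Measurable (fun ω => sub (fun x k => gap x k ω) l E) := by
  rw [measurable_pi_iff]; intro j
  rw [measurable_pi_iff]; intro k
  exact hm _ _

/-- no ties -/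
lemma ae_SA (hm : ∀ x k, Measurable (gap x k))
    (hi : iIndepFun (fun p : ℤ × ℕ => gap p.1 p.2) P)
    (hl : ∀ x k, P.map (gap x k) = expMeasure 1) (E' : ℕ) :
    ∀ᵐ g ∂(muE (E' + 1)), ∃ j, g ∈ SA j := by
  rw [← map_sub hm hi hl 0 (E' + 1)]
  have hset : MeasurableSet {g : Fin (E' + 1) → ℕ → ℝ | ∃ j, g ∈ SA j} := by
    have : {g : Fin (E' + 1) → ℕ → ℝ | ∃ j, g ∈ SA j} = ⋃ j, SA j := by
      ext g; simp
    rw [this]
    exact MeasurableSet.iUnion fun j => measurableSet_SA j
  rw [ae_map_iff (measurable_sub hm 0 (E' + 1)).aemeasurable hset]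
  filter_upwards [ae_goodGap hm hi hl] with ω hω
  have hgf : GoodFin (sub (fun x k => gap x k ω) 0 (E' + 1)) := hω.sub 0
  exact ⟨am _, fun j' hj' => hgf.am_spec j' hj'⟩

end

end Pool.Agent.Work.MP_71af4b_pr
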