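import Pool.Agent.Work.MP_71af4b_pr.Lam

set_option autoImplicit false

open Finset

namespace Pool.Agent.Work.MP_71af4b_pr

/-- The signed intertwiner. -/
noncomputable def Lw (W : List ℤ) : Vec := lam [] [] W

lemma Lw_len (W : List ℤ) : Lw W ∈ Sup (Len (W.length + 1)) := by
  have := lam_len [] [] W
  unfold Lw
  simpa using this

lemma Lw_head (W : List ℤ) (hW : ∀ c ∈ W, c ≠ 0) : Lw W ∈ Sup HeadNP := lam_head [] W hW

lemma Lw_tail (W : List ℤ) (hW : ∀ c ∈ W, c ≠ 0) : Lw W ∈ Sup (TailNN W.length) := by
  have := lam_tail [] [] W (by simp) hW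
  unfold Lw
  simpa using this

lemma mem_inter' {A B : Set (List ℤ)} {v : Vec} (hA : v ∈ Sup A) (hB : v ∈ Sup B) :
    v ∈ Sup (A ∩ B) := by
  rw [Finsupp.mem_supported] at *
  exact Set.subset_inter hA hB

lemma Lw_all (W : List ℤ) (hW : ∀ c ∈ W, c ≠ 0) :
    Lw W ∈ Sup (Len (W.length + 1) ∩ (HeadNP ∩ TailNN W.length)) :=
  mem_inter' (Lw_len W) (mem_inter' (Lw_head W hW) (Lw_tail W hW))

noncomputable def leftV (W : List ℤ) : Vec :=
  if 0 < W.headD 0 then consL (W.headD 0) (Lw W.tail) - Lw W else 0

noncomputable def rightV (W : List ℤ) : Vec :=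
  if W.getLastD 0 < 0 then appR [W.getLastD 0] (Lw W.dropLast) - Lw W else 0

/-- `a_i` -/
noncomputable def av (W : List ℤ) (i : ℕ) : Vec := T i (Lw W) - Lw W

lemma leftV_eq (W : List ℤ) (hW : ∀ c ∈ W, c ≠ 0) :
    leftV W = if 0 < W.getD 0 0 then av W 0 else 0 := by
  match W with
  | [] => simp [leftV]
  | h :: x =>
    simp only [leftV, List.headD_cons, List.tail_cons, List.getD_cons_zero]
    split_ifs with hh
    · have := lam_C4 [] [] x hh (by simp) (fun c hc => hW c (by simp [hc]))
      simp only [td, List.length_nil] at this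
      rw [av, Lw, Lw, lam_pos _ _ _ hh, List.nil_append, this]
    · rfl

lemma rightV_eq (W : List ℤ) (hW : ∀ c ∈ W, c ≠ 0) :
    rightV W = if W.getD (W.length - 1) 0 < 0 then av W (W.length - 1) else 0 := by
  rcases List.eq_nil_or_concat W with rfl | ⟨x, p, rfl⟩
  · simp [rightV]
  · simp only [List.concat_eq_append] at hW ⊢
    have e1 : (x ++ [p]).getLastD 0 = p := by simp
    have e2 : (x ++ [p]).dropLast = x := by simp
    have e3 : (x ++ [p]).length - 1 = x.length := by simp
    have e4 : (x ++ [p]).getD x.length 0 = p := by simp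
    rw [rightV, e1, e2, e3, e4]
    split_ifs with hp
    · have := lam_C5 [] [] x hp (by simp) (fun c hc => hW c (by simp [hc]))
      simp only [List.length_nil, zero_add] at this
      rw [av, Lw, Lw, this]
    · rfl

lemma mid_eq (W : List ℤ) (hW : ∀ c ∈ W, c ≠ 0) (g : ℕ) (hg : g + 1 < W.length) :
    Lw (srt g W) - Lw W = (if W.getD g 0 < 0 then av W g else 0) +
      (if 0 < W.getD (g + 1) 0 then av W (g + 1) else 0) := by
  obtain ⟨u, x, y, v, rfl, hu⟩ : ∃ u x y v, W = u ++ x :: y :: v ∧ u.length = g := by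
    refine ⟨W.take g, W[g], W[g + 1], W.drop (g + 2), ?_, by simp; omega⟩
    rw [← List.drop_eq_getElem_cons, ← List.drop_eq_getElem_cons, List.take_append_drop]
  subst hu
  have e1 : (u ++ x :: y :: v).getD u.length 0 = x := by simp
  have e2 : (u ++ x :: y :: v).getD (u.length + 1) 0 = y := by
    rw [List.getD_append_right _ _ _ _ (by omega)]; simp
  have e3 : srt u.length (u ++ x :: y :: v) = u ++ max x y :: min x y :: v := by
    have := srt_append_right 0 u (x :: y :: v)
    simpa using this
  rw [e1, e2, e3]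
  have hx : x ≠ 0 := hW x (by simp)
  have hy : y ≠ 0 := hW y (by simp)
  rcases lt_or_gt_of_ne hx with hx | hx <;> rcases lt_or_gt_of_ne hy with hy | hy
  · have := lam_C2 [] [] u v hx hy
    simp only [List.length_nil, zero_add] at this
    rw [if_pos hx, if_neg (by omega), av, Lw, Lw, this, add_zero]
  · have := lam_C1 [] [] u v hy hx
    simp only [List.length_nil, zero_add] at this
    rw [if_pos hx, if_pos hy, av, av, Lw, Lw, max_eq_right (by omega), min_eq_left (by omega), this,
      sg_apply]
    abel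
  · rw [if_neg (by omega), if_neg (by omega), max_eq_left (by omega), min_eq_right (by omega)]
    simp
  · have := lam_C3 [] [] u v hx hy
    simp only [List.length_nil, zero_add] at this
    rw [if_neg (by omega), if_pos hy, av, Lw, Lw, this, zero_add]

/-- The generator identity. -/
lemma gen_identity (W : List ℤ) (hW : ∀ c ∈ W, c ≠ 0) :
    ∑ i ∈ range W.length, (T i (Lw W) - Lw W) =
      leftV W + ∑ g ∈ range (W.length - 1), (Lw (srt g W) - Lw W) + rightV W := by
  rw [leftV_eq W hW, rightV_eq W hW]
  rcases Nat.eq_zero_or_pos W.length with h0 | hpos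
  · have : W = [] := List.length_eq_zero_iff.mp h0
    subst this
    simp
  · obtain ⟨k, hk⟩ : ∃ k, W.length = k + 1 := ⟨W.length - 1, by omega⟩
    rw [hk, show k + 1 - 1 = k by omega]
    have h1 : ∑ g ∈ range k, (Lw (srt g W) - Lw W) =
        ∑ g ∈ range k, (if W.getD g 0 < 0 then av W g else 0) +
        ∑ g ∈ range k, (if 0 < W.getD (g + 1) 0 then av W (g + 1) else 0) := by
      rw [← Finset.sum_add_distrib]
      refine Finset.sum_congr rfl fun g hg => ?_
      rw [Finset.mem_range] at hg
      exact mid_eq W hW g (by omega)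
    have h2 : ∑ i ∈ range (k + 1), (T i (Lw W) - Lw W) =
        ∑ i ∈ range (k + 1), (if W.getD i 0 < 0 then av W i else 0) +
        ∑ i ∈ range (k + 1), (if 0 < W.getD i 0 then av W i else 0) := by
      rw [← Finset.sum_add_distrib]
      refine Finset.sum_congr rfl fun i hi => ?_
      rw [Finset.mem_range] at hi
      have hmem : W.getD i 0 ∈ W := by
        rw [List.getD_eq_getElem _ _ (by omega)]
        exact List.getElem_mem _
      have := hW _ hmem
      rcases lt_or_gt_of_ne this with h | h
      · rw [if_pos h, if_neg (by omega), add_zero]; rfl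
      · rw [if_neg (by omega), if_pos h, zero_add]; rfl
    rw [h1, h2, Finset.sum_range_succ, Finset.sum_range_succ']
    abel

/-! ### Linear extension of functions of words -/

noncomputable def ext (f : List ℤ → ℤ) : Vec →ₗ[ℤ] ℤ := Finsupp.linearCombination ℤ f

lemma ext_single (f : List ℤ → ℤ) (w : List ℤ) (c : ℤ) : ext f (Finsupp.single w c) = c * f w := by
  simp [ext]

lemma ext_T (f : List ℤ → ℤ) (i : ℕ) (v : Vec) : ext f (T i v) = ext (fun w => f (srt i w)) v := by
  have : (ext f).comp (T i) = ext (fun w => f (srt i w)) := by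
    refine Finsupp.lhom_ext fun w c => ?_
    rw [LinearMap.comp_apply, T_single, ext_single, ext_single]
  exact LinearMap.congr_fun this v

lemma ext_consL (f : List ℤ → ℤ) (a : ℤ) (v : Vec) :
    ext f (consL a v) = ext (fun w => f (a :: w)) v := by
  have : (ext f).comp (consL a) = ext (fun w => f (a :: w)) := by
    refine Finsupp.lhom_ext fun w c => ?_
    rw [LinearMap.comp_apply, consL_single, ext_single, ext_single]
  exact LinearMap.congr_fun this v

lemma ext_appR (f : List ℤ → ℤ) (z : List ℤ) (v : Vec) :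
    ext f (appR z v) = ext (fun w => f (w ++ z)) v := by
  have : (ext f).comp (appR z) = ext (fun w => f (w ++ z)) := by
    refine Finsupp.lhom_ext fun w c => ?_
    rw [LinearMap.comp_apply, appR_single, ext_single, ext_single]
  exact LinearMap.congr_fun this v

lemma ext_congr {f g : List ℤ → ℤ} {A : Set (List ℤ)} {v : Vec} (hv : v ∈ Sup A)
    (h : ∀ w ∈ A, f w = g w) : ext f v = ext g v := by
  rw [Finsupp.mem_supported] at hv
  rw [ext, ext, Finsupp.linearCombination_apply, Finsupp.linearCombination_apply, Finsupp.sum,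
    Finsupp.sum]
  exact Finset.sum_congr rfl fun w hw => by rw [h w (hv hw)]

lemma ext_add (f g : List ℤ → ℤ) (v : Vec) : ext (fun w => f w + g w) v = ext f v + ext g v := by
  rw [ext, ext, ext, Finsupp.linearCombination_apply, Finsupp.linearCombination_apply,
    Finsupp.linearCombination_apply, Finsupp.sum, Finsupp.sum, Finsupp.sum,
    ← Finset.sum_add_distrib]
  exact Finset.sum_congr rfl fun w _ => by simp [mul_add]

lemma ext_sum {ι : Type*} (s : Finset ι) (f : ι → List ℤ → ℤ) (v : Vec) :
    ext (fun w => ∑ i ∈ s, f i w) v = ∑ i ∈ s, ext (f i) v := by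
  classical
  induction s using Finset.induction_on with
  | empty =>
    simp only [Finset.sum_empty]
    rw [ext, Finsupp.linearCombination_apply, Finsupp.sum]
    simp
  | insert a s ha ih =>
    simp only [Finset.sum_insert ha]
    rw [ext_add, ih]

lemma ext_mul (c : ℤ) (f : List ℤ → ℤ) (v : Vec) : ext (fun w => c * f w) v = c * ext f v := by
  rw [ext, ext, Finsupp.linearCombination_apply, Finsupp.linearCombination_apply, Finsupp.sum,
    Finsupp.sum, Finset.mul_sum]
  exact Finset.sum_congr rfl fun w _ => by simp; ring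

lemma ext_const (c : ℤ) (v : Vec) : ext (fun _ => c) v = c * mass v := by
  have : ext (fun _ => c) = c • mass := by
    refine Finsupp.lhom_ext fun w d => ?_
    rw [ext_single, LinearMap.smul_apply, mass_single, smul_eq_mul]; ring
  rw [this, LinearMap.smul_apply, smul_eq_mul]

/-! ### Splitting sums over positions -/

lemma sum_split (G : List ℤ → ℤ) (X Y : List ℤ) (m : ℕ)
    (h : ∀ a ∈ X.getLast?, ∀ b ∈ Y.head?, b ≤ a) :
    ∑ j ∈ range (X.length + m), G (srt j (X ++ Y)) =
      ∑ j ∈ range X.length, G (srt j X ++ Y) + ∑ j ∈ range m, G (X ++ srt j Y) := by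
  rw [Finset.sum_range_add]
  congr 1
  · refine Finset.sum_congr rfl fun j hj => ?_
    rw [srt_append_inert j X Y (Finset.mem_range.mp hj) h]
  · refine Finset.sum_congr rfl fun j _ => ?_
    rw [srt_append_right]

lemma sum_cons (G : List ℤ → ℤ) (a : ℤ) (L : List ℤ) (h : ∀ b ∈ L.head?, b ≤ a) :
    ∑ i ∈ range L.length, G (srt i (a :: L)) = ∑ i ∈ range L.length, G (a :: srt i L) := by
  match L with
  | [] => simp
  | b :: L =>
    have hb := h b (by simp)
    rw [List.length_cons, Finset.sum_range_succ', Finset.sum_range_succ]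
    congr 1
    rw [srt_of_length_le (i := L.length) (l := b :: L) (by simp)]
    simp [hb]

/-! ### The discrete chain -/

/-- `chainF E ev n φ w`: sum over all sequences `e₁,…,eₙ` of positions `< E` of the product of
`φ r (ev w_r)` where `w_r` is the word after `r` sorting steps. -/
def chainF {β : Type*} (E : ℕ) (ev : List ℤ → β) : ℕ → (ℕ → β → ℤ) → List ℤ → ℤ
  | 0, φ, w => φ 0 (ev w)
  | (n + 1), φ, w => φ 0 (ev w) * ∑ j ∈ range E, chainF E ev n (fun r => φ (r + 1)) (srt j w)

/-- The invariant of the outer parts. -/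
structure Outer (α β : ℕ) (Rr Lr : List ℤ) : Prop where
  rnn : ∀ a ∈ Rr, 0 ≤ a
  rcount : Rr.count 0 = α
  lnp : ∀ a ∈ Lr, a ≤ 0
  lcount : Lr.count 0 = β

lemma srt_perm (i : ℕ) (l : List ℤ) : (srt i l).Perm l := by
  induction i generalizing l with
  | zero =>
    match l with
    | [] => exact List.Perm.refl _
    | [a] => exact List.Perm.refl _
    | a :: b :: l =>
      rcases le_total a b with h | h
      · simp only [srt_zero_cons_cons, max_eq_right h, min_eq_left h]
        exact List.Perm.swap a b l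
      · simp only [srt_zero_cons_cons, max_eq_left h, min_eq_right h]
        exact List.Perm.refl _
  | succ i ih =>
    match l with
    | [] => exact List.Perm.refl _
    | a :: l => simpa using (ih l)

lemma Outer.srtR {α β : ℕ} {Rr Lr : List ℤ} (h : Outer α β Rr Lr) (j : ℕ) :
    Outer α β (srt j Rr) Lr where
  rnn := fun a ha => h.rnn a ((srt_mem_iff j Rr a).mp ha)
  rcount := by rw [(srt_perm j Rr).count_eq]; exact h.rcount
  lnp := h.lnp
  lcount := h.lcount

lemma Outer.srtL {α β : ℕ} {Rr Lr : List ℤ} (h : Outer α β Rr Lr) (j : ℕ) :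
    Outer α β Rr (srt j Lr) where
  rnn := h.rnn
  rcount := h.rcount
  lnp := fun a ha => h.lnp a ((srt_mem_iff j Lr a).mp ha)
  lcount := by rw [(srt_perm j Lr).count_eq]; exact h.lcount

lemma Outer.snocR {α β : ℕ} {Rr Lr : List ℤ} (h : Outer α β Rr Lr) {c : ℤ} (hc : 0 < c) :
    Outer α β (Rr ++ [c]) Lr where
  rnn := by
    intro a ha
    simp at ha
    rcases ha with ha | rfl
    · exact h.rnn a ha
    · exact hc.le
  rcount := by
    rw [List.count_append, h.rcount]
    have : List.count 0 [c] = 0 := by rw [List.count_eq_zero]; simp; omega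
    omega
  lnp := h.lnp
  lcount := h.lcount

lemma Outer.consLr {α β : ℕ} {Rr Lr : List ℤ} (h : Outer α β Rr Lr) {c : ℤ} (hc : c < 0) :
    Outer α β Rr (c :: Lr) where
  rnn := h.rnn
  rcount := h.rcount
  lnp := by
    intro a ha
    simp at ha
    rcases ha with rfl | ha
    · exact hc.le
    · exact h.lnp a ha
  lcount := by
    rw [List.count_cons, h.lcount]
    have : ¬ (c == 0) = true := by simp; omega
    simp [this]

/-- Compatibility of observables with the intertwiner. -/
def Compat {β' : Type*} (α β : ℕ) (ev : List ℤ → β') : Prop :=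
  ∀ Rr W Lr V : List ℤ, Outer α β Rr Lr → (∀ c ∈ W, c ≠ 0) → V ∈ Len (W.length + 1) →
    V ∈ HeadNP → V ∈ TailNN W.length →
    ev (Rr ++ 0 :: (W ++ 0 :: Lr)) = ev (Rr ++ V ++ Lr)

lemma getLast?_nonneg {α β : ℕ} {Rr Lr : List ℤ} (h : Outer α β Rr Lr) :
    ∀ a ∈ Rr.getLast?, 0 ≤ a := fun a ha => h.rnn a (List.mem_of_getLast? ha)

lemma head?_nonpos {α β : ℕ} {Rr Lr : List ℤ} (h : Outer α β Rr Lr) :
    ∀ b ∈ Lr.head?, b ≤ 0 := fun a ha => h.lnp a (List.mem_of_head? ha)

/-- The sum over the positions inside `0 W 0`. -/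
lemma sum_inner (g : List ℤ → ℤ) (W : List ℤ) (hW : ∀ c ∈ W, c ≠ 0) :
    ∑ j ∈ range (W.length + 1), g (srt j (0 :: (W ++ [0]))) =
      (W.length + 1) * g (0 :: (W ++ [0]))
      + (if 0 < W.headD 0 then g (W.headD 0 :: 0 :: (W.tail ++ [0])) - g (0 :: (W ++ [0])) else 0)
      + ∑ i ∈ range (W.length - 1), (g (0 :: (srt i W ++ [0])) - g (0 :: (W ++ [0])))
      + (if W.getLastD 0 < 0 then g (0 :: (W.dropLast ++ [0, W.getLastD 0])) - g (0 :: (W ++ [0]))
          else 0) := by
  rcases List.eq_nil_or_concat W with rfl | ⟨x, p, rfl⟩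
  · simp
  · simp only [List.concat_eq_append] at hW ⊢
    have e1 : (x ++ [p]).getLastD 0 = p := by simp
    have e2 : (x ++ [p]).dropLast = x := by simp
    have e3 : (x ++ [p]).length = x.length + 1 := by simp
    rw [e1, e2, e3, show x.length + 1 - 1 = x.length by omega, Finset.sum_range_succ']
    have hzero : g (srt 0 (0 :: (x ++ [p] ++ [0]))) = g (0 :: (x ++ [p] ++ [0])) +
        (if 0 < (x ++ [p]).headD 0 then
          g ((x ++ [p]).headD 0 :: 0 :: ((x ++ [p]).tail ++ [0])) - g (0 :: (x ++ [p] ++ [0]))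
          else 0) := by
      obtain ⟨h, y, hy⟩ : ∃ h y, x ++ [p] = h :: y := by
        cases x with
        | nil => exact ⟨p, [], rfl⟩
        | cons a x => exact ⟨a, x ++ [p], rfl⟩
      rw [hy]
      simp only [List.headD_cons, List.tail_cons, List.cons_append, srt_zero_cons_cons]
      split_ifs with hh
      · rw [max_eq_right hh.le, min_eq_left hh.le]; ring
      · rw [max_eq_left (by omega), min_eq_right (by omega)]; ring
    rw [hzero, Finset.sum_range_succ]
    have hlast : g (srt (x.length + 1) (0 :: (x ++ [p] ++ [0]))) = g (0 :: (x ++ [p] ++ [0])) +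
        (if p < 0 then g (0 :: (x ++ [0, p])) - g (0 :: (x ++ [p] ++ [0])) else 0) := by
      have e : srt (x.length + 1) (0 :: (x ++ [p] ++ [0])) = 0 :: (x ++ [max p 0, min p 0]) := by
        rw [srt_succ_cons, List.append_assoc]
        have := srt_append_right 0 x ([p] ++ [0])
        rw [add_zero] at this
        rw [this]; rfl
      rw [e]
      split_ifs with hp
      · rw [max_eq_right hp.le, min_eq_left hp.le]; ring
      · rw [max_eq_left (by omega), min_eq_right (by omega)]
        simp
    rw [hlast]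
    have hmid : ∑ k ∈ range x.length, g (srt (k + 1) (0 :: (x ++ [p] ++ [0]))) =
        x.length * g (0 :: (x ++ [p] ++ [0])) +
        ∑ i ∈ range x.length, (g (0 :: (srt i (x ++ [p]) ++ [0])) - g (0 :: (x ++ [p] ++ [0]))) := by
      rw [Finset.sum_sub_distrib, Finset.sum_const, Finset.card_range, nsmul_eq_mul]
      have : ∑ k ∈ range x.length, g (srt (k + 1) (0 :: (x ++ [p] ++ [0])))
          = ∑ i ∈ range x.length, g (0 :: (srt i (x ++ [p]) ++ [0])) := by
        refine Finset.sum_congr rfl fun k hk => ?_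
        rw [Finset.mem_range] at hk
        rw [srt_succ_cons, srt_append_left k (x ++ [p]) [0] (by simp; omega)]
      rw [this]; ring
    rw [hmid]
    push_cast
    ring

/-- One step of the intertwining. -/
lemma step_sum {α β : ℕ} (G : List ℤ → ℤ) (E : ℕ)
    (IH : ∀ Rr W Lr : List ℤ, Outer α β Rr Lr → (∀ c ∈ W, c ≠ 0) →
      Rr.length + W.length + Lr.length + 1 = E →
      G (Rr ++ 0 :: (W ++ 0 :: Lr)) = ext (fun V => G (Rr ++ V ++ Lr)) (Lw W))
    (Rr W Lr : List ℤ) (hO : Outer α β Rr Lr) (hW : ∀ c ∈ W, c ≠ 0)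
    (hE : Rr.length + W.length + Lr.length + 1 = E) :
    ∑ j ∈ range E, G (srt j (Rr ++ 0 :: (W ++ 0 :: Lr))) =
      ext (fun V => ∑ j ∈ range E, G (srt j (Rr ++ V ++ Lr))) (Lw W) := by
  -- left side
  have hL : ∑ j ∈ range E, G (srt j (Rr ++ 0 :: (W ++ 0 :: Lr))) =
      ∑ j ∈ range Rr.length, G (srt j Rr ++ 0 :: (W ++ 0 :: Lr)) +
      (∑ j ∈ range (W.length + 1), G (Rr ++ (srt j (0 :: (W ++ [0])) ++ Lr)) +
       ∑ i ∈ range Lr.length, G (Rr ++ 0 :: (W ++ 0 :: srt i Lr))) := by
    rw [show E = Rr.length + (W.length + 1 + Lr.length) by omega]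
    rw [sum_split G Rr _ _ (by
      intro a ha b hb
      simp at hb
      subst hb
      exact getLast?_nonneg hO a ha)]
    congr 1
    rw [Finset.sum_range_add]
    congr 1
    · refine Finset.sum_congr rfl fun j hj => ?_
      rw [Finset.mem_range] at hj
      rw [show (0 : ℤ) :: (W ++ 0 :: Lr) = (0 :: (W ++ [0])) ++ Lr by simp,
        srt_append_left j _ _ (by simp; omega)]
    · have e : ∀ i, srt (W.length + 1 + i) (0 :: (W ++ 0 :: Lr)) = (0 :: W) ++ srt i (0 :: Lr) := by
        intro i
        have := srt_append_right i (0 :: W) (0 :: Lr)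
        simpa using this
      simp only [e]
      have := sum_cons (fun V => G (Rr ++ ((0 :: W) ++ V))) 0 Lr (head?_nonpos hO)
      rw [this]
      simp
  -- right side
  have hR : ext (fun V => ∑ j ∈ range E, G (srt j (Rr ++ V ++ Lr))) (Lw W) =
      ∑ j ∈ range Rr.length, ext (fun V => G (srt j Rr ++ V ++ Lr)) (Lw W) +
      ((∑ j ∈ range W.length, ext (fun V => G (Rr ++ V ++ Lr)) (T j (Lw W)) +
        ext (fun V => G (Rr ++ V ++ Lr)) (Lw W)) +
       ∑ i ∈ range Lr.length, ext (fun V => G (Rr ++ V ++ srt i Lr)) (Lw W)) := by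
    have h1 : ext (fun V => ∑ j ∈ range E, G (srt j (Rr ++ V ++ Lr))) (Lw W) =
        ext (fun V => ∑ j ∈ range Rr.length, G (srt j Rr ++ V ++ Lr) +
          ((∑ j ∈ range W.length, G (Rr ++ srt j V ++ Lr) + G (Rr ++ V ++ Lr)) +
            ∑ i ∈ range Lr.length, G (Rr ++ V ++ srt i Lr))) (Lw W) := by
      have hsup := Lw_all W hW
      refine ext_congr hsup ?_
      rintro V ⟨hV1, hV2, hV3⟩
      have hV1' : V.length = W.length + 1 := hV1
      rw [show E = Rr.length + (V.length + Lr.length) by omega, List.append_assoc]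
      rw [sum_split G Rr _ _ (by
        intro a ha b hb
        obtain ⟨c, l, rfl, hc⟩ := hV2
        simp at hb
        subst hb
        exact hc.trans (getLast?_nonneg hO a ha))]
      congr 1
      · simp
      · have hlast : ∀ a ∈ V.getLast?, ∀ b ∈ Lr.head?, b ≤ a := by
          intro a ha b hb
          have hb' := head?_nonpos hO b hb
          have : a ∈ V.drop W.length := by
            have hne : V ≠ [] := by intro h; simp [h] at hV1'
            have h1 : V.drop W.length = [V.getLast hne] := by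
              rw [show W.length = V.length - 1 by omega]
              exact List.drop_length_sub_one hne
            rw [h1]
            rw [List.getLast?_eq_getLast_of_ne_nil hne] at ha
            simp at ha
            simp [ha]
          exact hb'.trans (hV3 a this)
        have := sum_split (fun Y => G (Rr ++ Y)) V Lr Lr.length hlast
        rw [this, hV1', Finset.sum_range_succ]
        congr 1
        · congr 1
          · simp
          · rw [srt_of_length_le (by omega)]
        · simp
    rw [h1, ext_add, ext_sum, ext_add, ext_add, ext_sum, ext_sum]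
    simp only [ext_T]
  rw [hL, hR]
  -- compare
  have c1 : ∀ j ∈ range Rr.length, G (srt j Rr ++ 0 :: (W ++ 0 :: Lr)) =
      ext (fun V => G (srt j Rr ++ V ++ Lr)) (Lw W) := by
    intro j _
    exact IH _ _ _ (hO.srtR j) hW (by simpa using hE)
  have c3 : ∀ i ∈ range Lr.length, G (Rr ++ 0 :: (W ++ 0 :: srt i Lr)) =
      ext (fun V => G (Rr ++ V ++ srt i Lr)) (Lw W) := by
    intro i _
    exact IH _ _ _ (hO.srtL i) hW (by simpa using hE)
  rw [Finset.sum_congr rfl c1, Finset.sum_congr rfl c3]
  congr 2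
  set g : List ℤ → ℤ := fun V => G (Rr ++ V ++ Lr) with hg
  have hmid := sum_inner (fun Y => G (Rr ++ (Y ++ Lr))) W hW
  rw [hmid]
  have hgi := congrArg (ext g) (gen_identity W hW)
  rw [map_sum, map_add, map_add, map_sum] at hgi
  simp only [map_sub] at hgi
  rw [Finset.sum_sub_distrib, Finset.sum_const, Finset.card_range, nsmul_eq_mul] at hgi
  -- base value
  have hbase : G (Rr ++ (0 :: (W ++ [0]) ++ Lr)) = ext g (Lw W) := by
    have := IH Rr W Lr hO hW hE
    rw [← this]; simp
  have hleft : (if 0 < W.headD 0 then G (Rr ++ (W.headD 0 :: 0 :: (W.tail ++ [0]) ++ Lr)) -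
      G (Rr ++ (0 :: (W ++ [0]) ++ Lr)) else 0) = ext g (leftV W) := by
    rw [leftV]
    split_ifs with hh
    · match W, hW, hE, hh with
      | h :: x, hW, hE, hh =>
        simp only [List.headD_cons, List.tail_cons] at hh ⊢
        rw [map_sub, hbase]
        congr 1
        rw [ext_consL]
        have := IH (Rr ++ [h]) x Lr (hO.snocR hh) (fun c hc => hW c (by simp [hc]))
          (by simp at hE ⊢; omega)
        simp only [hg]
        simpa using this
    · simp
  have hright : (if W.getLastD 0 < 0 then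
      G (Rr ++ (0 :: (W.dropLast ++ [0, W.getLastD 0]) ++ Lr)) -
      G (Rr ++ (0 :: (W ++ [0]) ++ Lr)) else 0) = ext g (rightV W) := by
    rw [rightV]
    split_ifs with hh
    · rcases List.eq_nil_or_concat W with rfl | ⟨x, p, rfl⟩
      · simp at hh
      · simp only [List.concat_eq_append] at hW hE hh hbase ⊢
        have e1 : (x ++ [p]).getLastD 0 = p := by simp
        have e2 : (x ++ [p]).dropLast = x := by simp
        rw [e1] at hh
        rw [e1, e2, map_sub, hbase]
        congr 1
        rw [ext_appR]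
        have := IH Rr x (p :: Lr) (hO.consLr hh) (fun c hc => hW c (by simp [hc]))
          (by simp at hE ⊢; omega)
        simp only [hg]
        simpa using this
    · simp
  have hinn : ∑ i ∈ range (W.length - 1), (G (Rr ++ (0 :: (srt i W ++ [0]) ++ Lr)) -
      G (Rr ++ (0 :: (W ++ [0]) ++ Lr))) =
      ∑ i ∈ range (W.length - 1), (ext g (Lw (srt i W)) - ext g (Lw W)) := by
    refine Finset.sum_congr rfl fun i _ => ?_
    rw [hbase]
    congr 1
    have := IH Rr (srt i W) Lr hO (fun c hc => hW c ((srt_mem_iff i W c).mp hc))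
      (by simpa using hE)
    rw [← this]; simp
  rw [hleft, hright, hinn, hbase]
  linarith [hgi]

/-- Main theorem on the discrete chain. -/
theorem chain_intertwine {β' : Type*} {α β : ℕ} (ev : List ℤ → β') (hev : Compat α β ev) (E n : ℕ)
    (φ : ℕ → β' → ℤ) (Rr W Lr : List ℤ) (hO : Outer α β Rr Lr) (hW : ∀ c ∈ W, c ≠ 0)
    (hE : Rr.length + W.length + Lr.length + 1 = E) :
    chainF E ev n φ (Rr ++ 0 :: (W ++ 0 :: Lr)) =
      ext (fun V => chainF E ev n φ (Rr ++ V ++ Lr)) (Lw W) := by
  have hsup := Lw_all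
  induction n generalizing φ Rr W Lr with
  | zero =>
    simp only [chainF]
    have : ext (fun V => φ 0 (ev (Rr ++ V ++ Lr))) (Lw W)
        = ext (fun _ => φ 0 (ev (Rr ++ 0 :: (W ++ 0 :: Lr)))) (Lw W) := by
      refine ext_congr (hsup W hW) ?_
      rintro V ⟨hV1, hV2, hV3⟩
      rw [hev Rr W Lr V hO hW hV1 hV2 hV3]
    rw [this, ext_const, Lw, mass_lam, mul_one]
  | succ n ih =>
    simp only [chainF]
    have h1 : ext (fun V => φ 0 (ev (Rr ++ V ++ Lr)) *
        ∑ j ∈ range E, chainF E ev n (fun r => φ (r + 1)) (srt j (Rr ++ V ++ Lr))) (Lw W)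
        = ext (fun V => φ 0 (ev (Rr ++ 0 :: (W ++ 0 :: Lr))) *
        ∑ j ∈ range E, chainF E ev n (fun r => φ (r + 1)) (srt j (Rr ++ V ++ Lr))) (Lw W) := by
      refine ext_congr (hsup W hW) ?_
      rintro V ⟨hV1, hV2, hV3⟩
      rw [hev Rr W Lr V hO hW hV1 hV2 hV3]
    rw [h1, ext_mul]
    congr 1
    exact step_sum (chainF E ev n (fun r => φ (r + 1))) E
      (fun Rr W Lr hO hW hE => ih (fun r => φ (r + 1)) Rr W Lr hO hW hE) Rr W Lr hO hW hE

end Pool.Agent.Work.MP_71af4b_pr
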