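import Pool.Agent.Work.MP_71af4b_pr.Pattern

set_option autoImplicit false

namespace Pool.Agent.Work.MP_71af4b_pr

open Classical in
/-- the edge sequences of length `n` for which the growth event of index `i` holds from time
`k i` on (and not before) -/
noncomputable def PS {G : ℕ} (E : ℕ) (l : ℤ) (A : Fin G → ℤ) (B C : Fin G → ℕ) (n : ℕ)
    (k : Fin G → ℕ) : Finset (Fin n → Fin E) :=
  Finset.univ.filter (fun ε : Fin n → Fin E => ∀ r ≤ n, ∀ i,
    gr (A i) (hist (fun s => l + (pad ε s : ℤ)) r) (B i) (C i) ↔ k i ≤ r)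

lemma mem_PS {G E : ℕ} {l : ℤ} {A : Fin G → ℤ} {B C : Fin G → ℕ} {n : ℕ} {k : Fin G → ℕ}
    {ε : Fin n → Fin E} : ε ∈ PS E l A B C n k ↔ ∀ r ≤ n, ∀ i,
    gr (A i) (hist (fun s => l + (pad ε s : ℤ)) r) (B i) (C i) ↔ k i ≤ r := by
  simp [PS]

section

variable {α m n β : ℕ} {l A a : ℤ} {B C : ℕ}

lemma sys1L (h1 : A ≤ a) (ha : l + α + m = a) (hC : 1 ≤ C)
    (h2 : l + α + 1 ≤ A - C + 1)
    (h4 : A + B ≤ a + n + β + 1) (js : List ℕ) :
    evL (α + m + n + β + 2 - (A + B + 1 - C - l).toNat) (A - a - 1) C (after (w1 α m n β) js) ↔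
      gr A (js.map (fun j : ℕ => l + (j : ℤ))) B C := by
  have key := grL (w1 α m n β) l A B C (A - a - 1) (by omega) (by rw [w1_length]; omega)
    (by
      intro b c hb hc
      rw [cntD_w1 (by omega)]
      omega) js B C le_rfl le_rfl
  rw [← key, evL, after_length, w1_length]
  have : α + m + n + β + 2 - (α + m + n + β + 2 - (A + B + 1 - C - l).toNat) =
    (A + B + 1 - C - l).toNat := by omega
  rw [this]

lemma sys2L (h1 : A ≤ a) (ha : l + α + m = a) (hC : 1 ≤ C)
    (h2 : l + α + 1 ≤ A - C + 1) (h3 : a + n + 1 ≤ A + B)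
    (h4 : A + B ≤ a + n + β + 1) (js : List ℕ) :
    evL (α + m + n + β + 2 - (A + B + 1 - C - l).toNat) (A - a - 1) C (after (w2 α m n β) js) ↔
      gr A (js.map (fun j : ℕ => l + 1 + (j : ℤ))) B C := by
  have key := grL (w2 α m n β) (l + 1) A B C (A - a - 1) (by omega) (by rw [w2_length]; omega)
    (by
      intro b c hb hc
      rw [cntD_w2 (by omega)]
      omega) js B C le_rfl le_rfl
  rw [← key, evL, after_length, w2_length]
  have : α + m + n + β + 1 - (α + m + n + β + 2 - (A + B + 1 - C - l).toNat) =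
    (A + B + 1 - C - (l + 1)).toNat := by omega
  rw [this]

lemma sys1R (h1 : a ≤ A) (ha : l + α + m = a) (hB : 1 ≤ B)
    (h3 : A + B ≤ a + n) (h4 : l ≤ A - C + 1) (js : List ℕ) :
    evR (A + B + 1 - C - l).toNat (A - a) B (after (w1 α m n β) js) ↔
      gr A (js.map (fun j : ℕ => l + (j : ℤ))) B C := by
  have key := grR (w1 α m n β) l A B C (A - a) (by omega) (by rw [w1_length]; omega)
    (by
      intro b c hb hc
      rw [cntT_w1 (by omega)]
      omega) js B C le_rfl le_rfl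
  rw [← key, evR]

lemma sys2R (h1 : a ≤ A) (ha : l + α + m = a) (hB : 1 ≤ B)
    (h3 : A + B ≤ a + n) (h4 : l ≤ A - C + 1) (js : List ℕ) :
    evR (A + B + 1 - C - l).toNat (A - a) B (after (w2 α m n β) js) ↔
      gr (A + 1) (js.map (fun j : ℕ => l + 1 + (j : ℤ))) B C := by
  have key := grR (w2 α m n β) (l + 1) (A + 1) B C (A - a) (by omega) (by rw [w2_length]; omega)
    (by
      intro b c hb hc
      rw [cntT_w2 (by omega)]
      omega) js B C le_rfl le_rfl
  rw [← key, evR]
  have : (A + 1 + B + 1 - C - (l + 1)).toNat = (A + B + 1 - C - l).toNat := by omega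
  rw [this]

end

theorem count_eq {G : ℕ} (L : Fin G → Prop) (A A' : Fin G → ℤ) (B C : Fin G → ℕ)
    (hB : ∀ i, 1 ≤ B i) (hC : ∀ i, 1 ≤ C i) (l a : ℤ) (α m n β : ℕ) (ha : l + α + m = a)
    (hL : ∀ i, L i → A' i = A i ∧ A i ≤ a ∧ l + α + 1 ≤ A i - C i + 1 ∧ a + n + 1 ≤ A i + B i ∧
      A i + B i ≤ a + n + β + 1)
    (hR : ∀ i, ¬ L i → A' i = A i + 1 ∧ a ≤ A i ∧ A i - C i + 1 ≤ l + α ∧ A i + B i ≤ a + n ∧
      l ≤ A i - C i + 1) (N : ℕ) (k : Fin G → ℕ) :
    (PS (α + m + n + β + 1) l A B C N k).card = (PS (α + m + n + β + 1) l A' B C N k).card := by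
  classical
  set ev : List ℤ → Fin G → Prop := fun w i =>
    if L i then evL (α + m + n + β + 2 - (A i + B i + 1 - C i - l).toNat) (A i - a - 1) (C i) w
    else evR (A i + B i + 1 - C i - l).toNat (A i - a) (B i) w with hev
  set Φ : ℕ → (Fin G → Prop) → Prop := fun r b => ∀ i, b i ↔ k i ≤ r with hΦ
  have hcompat : Compat α β ev := by
    intro Rr W Lr V hO hW hV1 hV2 hV3
    funext i
    simp only [hev]
    by_cases hi : L i
    · rw [if_pos hi, if_pos hi]
      obtain ⟨-, h1, h2, h3, h4⟩ := hL i hi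
      have hCi := hC i
      exact compat_evL (by omega) (by omega) Rr W Lr V hO hW hV1 hV2 hV3
    · rw [if_neg hi, if_neg hi]
      obtain ⟨-, h1, h2, h3, h4⟩ := hR i hi
      have hBi := hB i
      exact compat_evR (by omega) (by omega) Rr W Lr V hO hW hV1 hV2 hV3
  have hchain := (chainF_card (α + m + n + β + 1) ev N Φ (w1 α m n β)).symm.trans
    ((chain_eq ev hcompat m n N _).trans (chainF_card (α + m + n + β + 1) ev N Φ (w2 α m n β)))
  have hchain' := Int.natCast_inj.mp hchain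
  -- the first system
  have e1 : PS (α + m + n + β + 1) l A B C N k = CS (α + m + n + β + 1) ev N Φ (w1 α m n β) := by
    ext ε
    rw [mem_PS, mem_CS]
    refine forall_congr' fun r => forall_congr' fun _ => forall_congr' fun i => ?_
    rw [hist_map (fun j : ℕ => l + (j : ℤ)) (pad ε) r]
    have : ev (after (w1 α m n β) (hist (pad ε) r)) i ↔
        gr (A i) ((hist (pad ε) r).map (fun j : ℕ => l + (j : ℤ))) (B i) (C i) := by
      simp only [hev]
      by_cases hi : L i
      · rw [if_pos hi]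
        obtain ⟨-, h1, h2, h3, h4⟩ := hL i hi
        exact sys1L h1 ha (hC i) h2 h4 _
      · rw [if_neg hi]
        obtain ⟨-, h1, h2, h3, h4⟩ := hR i hi
        exact sys1R h1 ha (hB i) h3 h4 _
    rw [this]
  -- the second system
  have e2 : CS (α + m + n + β + 1) ev N Φ (w2 α m n β) =
      PS (α + m + n + β + 1) (l + 1) A' B C N k := by
    ext ε
    rw [mem_PS, mem_CS]
    refine forall_congr' fun r => forall_congr' fun _ => forall_congr' fun i => ?_
    rw [hist_map (fun j : ℕ => l + 1 + (j : ℤ)) (pad ε) r]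
    have : ev (after (w2 α m n β) (hist (pad ε) r)) i ↔
        gr (A' i) ((hist (pad ε) r).map (fun j : ℕ => l + 1 + (j : ℤ))) (B i) (C i) := by
      simp only [hev]
      by_cases hi : L i
      · rw [if_pos hi]
        obtain ⟨h0, h1, h2, h3, h4⟩ := hL i hi
        rw [h0]
        exact sys2L h1 ha (hC i) h2 h3 h4 _
      · rw [if_neg hi]
        obtain ⟨h0, h1, h2, h3, h4⟩ := hR i hi
        rw [h0]
        exact sys2R h1 ha (hB i) h3 h4 _
    rw [this]
  rw [e1, hchain', e2]
  -- rotate the edges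
  set E' := α + m + n + β with hE'
  refine Finset.card_equiv (Equiv.piCongrRight (fun _ : Fin N => finRotate (E' + 1))) ?_
  intro ε
  rw [mem_PS, mem_PS]
  refine forall_congr' fun r => forall_congr' fun hr => forall_congr' fun i => ?_
  have hrel : ∀ s < r, ∀ b c : ℕ, 1 ≤ b → b ≤ B i → 1 ≤ c → c ≤ C i →
      (A' i + b - c = l + 1 + (pad ε s : ℤ) ↔ A' i + b - c =
        l + (pad ((Equiv.piCongrRight (fun _ : Fin N => finRotate (E' + 1))) ε) s : ℤ)) := by
    intro s hs b c hb1 hb hc1 hc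
    have hsN : s < N := by omega
    have p1 : pad ε s = (ε ⟨s, hsN⟩ : ℕ) := by rw [pad, dif_pos hsN]
    have p2 : pad ((Equiv.piCongrRight (fun _ : Fin N => finRotate (E' + 1))) ε) s =
        (finRotate (E' + 1) (ε ⟨s, hsN⟩) : ℕ) := by rw [pad, dif_pos hsN]; rfl
    rw [p1, p2]
    have hrange : l + 1 ≤ A' i + b - c ∧ A' i + b - c ≤ l + E' := by
      by_cases hi : L i
      · obtain ⟨h0, h1, h2, h3, h4⟩ := hL i hi
        omega
      · obtain ⟨h0, h1, h2, h3, h4⟩ := hR i hi
        omega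
    by_cases hlast : ε ⟨s, hsN⟩ = Fin.last E'
    · rw [hlast, finRotate_last, Fin.val_last, Fin.val_zero]
      omega
    · rw [coe_finRotate_of_ne_last hlast]
      push_cast
      omega
  rw [gr_congr hrel (B i) (C i) le_rfl le_rfl]

end Pool.Agent.Work.MP_71af4b_pr
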