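import Mathlib

set_option autoImplicit false

open Filter Topology

namespace Pool.Agent.Work.MP_71af4b_pr

/-- The time of the `(k+1)`-st ring of the clock attached to the edge `(x, x+1)`, when `gap x j`
is the waiting time between the `j`-th and the `(j+1)`-st ring of this clock (the `0`-th ring
being time `0`). -/
def ringTime (gap : ℤ → ℕ → ℝ) (x : ℤ) (k : ℕ) : ℝ := ∑ j ∈ Finset.range (k + 1), gap x j

/-- `ζ` is a trajectory of the colored TASEP on `ℤ` driven by the clocks with waiting times `gap`: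
`ζ t x` is the color at site `x` at time `t`. -/
structure IsColoredTASEP (gap : ℤ → ℕ → ℝ) (ζ : ℝ → ℤ → ℤ) : Prop where
  /-- at time `0` every site `x` holds the particle of color `x` -/
  init : ∀ x, ζ 0 x = x
  /-- the color at `x` does not change during `(s, t]` if none of the clocks of the two edges at
  `x` rings during `(s, t]` -/
  const : ∀ x s t, 0 ≤ s → s ≤ t → (∀ k, ringTime gap (x - 1) k ∉ Set.Ioc s t) →
    (∀ k, ringTime gap x k ∉ Set.Ioc s t) → ζ t x = ζ s x
  /-- when the clock of the edge `(x, x+1)` rings, the particles at `x` and `x+1`, of colors `i`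
  and `j` just before the ring, exchange positions if and only if `i < j` -/
  jump : ∀ x k, ∀ᶠ s in 𝓝[<] (ringTime gap x k),
    if ζ s x < ζ s (x + 1) then
      ζ (ringTime gap x k) x = ζ s (x + 1) ∧ ζ (ringTime gap x k) (x + 1) = ζ s x
    else
      ζ (ringTime gap x k) x = ζ s x ∧ ζ (ringTime gap x k) (x + 1) = ζ s (x + 1)

/-- The passage time `T^A_{B,C} = inf {t ≥ 0 : |{x ≥ A+B+1-C : ζ_t(x) ≤ A}| ≥ C}`. -/
noncomputable def passageTime (ζ : ℝ → ℤ → ℤ) (A : ℤ) (B C : ℕ) : ℝ :=
  sInf {t : ℝ | 0 ≤ t ∧ (C : ℕ∞) ≤ {x : ℤ | A + B + 1 - C ≤ x ∧ ζ t x ≤ A}.encard}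

/-- The rectangle `R^A_{B,C} = [1+A, B+A] × [1-A, C-A]` in `ℤ²`. -/
def rect (A : ℤ) (B C : ℕ) : Set (ℤ × ℤ) := Set.Icc (1 + A) (B + A) ×ˢ Set.Icc (1 - A) (C - A)

/-- `R ≤ R'`: the projection of `R` to the first coordinate contains that of `R'`, and the
projection of `R` to the second coordinate is contained in that of `R'`. -/
def RectLE (R R' : Set (ℤ × ℤ)) : Prop :=
  Prod.fst '' R' ⊆ Prod.fst '' R ∧ Prod.snd '' R ⊆ Prod.snd '' R'

end Pool.Agent.Work.MP_71af4b_pr
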