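import Pool.Agent.Work.MP_71af4b_pr.AsGood

set_option autoImplicit false

open Filter Topology

namespace Pool.Agent.Work.MP_71af4b_pr

/-! ### Existence of the colored TASEP driven by the clocks (graphical construction) -/

/-- sort the two entries at `e`, `e+1` in decreasing order -/
def swp (e : ℤ) (f : ℤ → ℤ) : ℤ → ℤ := fun x =>
  if x = e then max (f e) (f (e + 1)) else if x = e + 1 then min (f e) (f (e + 1)) else f x

section Window

variable {gap : ℤ → ℕ → ℝ} {l : ℤ} {E : ℕ} [NeZero E]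

/-- the state after `n` rings of the clocks of the window -/
noncomputable def stw (gap : ℤ → ℕ → ℝ) (l : ℤ) (E : ℕ) [NeZero E] : ℕ → ℤ → ℤ
  | 0 => id
  | n + 1 => swp (eseq gap l E n) (stw gap l E n)

open Classical in
/-- the process of the window -/
noncomputable def zw (gap : ℤ → ℕ → ℝ) (l : ℤ) (E : ℕ) [NeZero E] (t : ℝ) : ℤ → ℤ :=
  if h : ∃ n, Sn (sub gap l E) n ≤ t ∧ t < Sn (sub gap l E) (n + 1) then stw gap l E h.choose
  else id

lemma zw_eq (hg : GoodGap gap) {t : ℝ} {n : ℕ} (h1 : Sn (sub gap l E) n ≤ t)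
    (h2 : t < Sn (sub gap l E) (n + 1)) : zw gap l E t = stw gap l E n := by
  have hgf : GoodFin (sub gap l E) := hg.sub l
  have h : ∃ n, Sn (sub gap l E) n ≤ t ∧ t < Sn (sub gap l E) (n + 1) := ⟨n, h1, h2⟩
  rw [zw, dif_pos h]
  have h3 := h.choose_spec
  have a1 := hgf.Sn_strictMono.lt_iff_lt.mp (lt_of_le_of_lt h3.1 h2)
  have a2 := hgf.Sn_strictMono.lt_iff_lt.mp (lt_of_le_of_lt h1 h3.2)
  have : h.choose = n := by omega
  rw [this]

lemma zw_zero (hg : GoodGap gap) : zw gap l E 0 = id := by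
  have hgf : GoodFin (sub gap l E) := hg.sub l
  rw [zw_eq hg (n := 0) (by simp [Sn]) (by rw [Sn_succ]; simpa [Sn] using hgf.ms_pos 0)]
  rfl

lemma zw_const (hg : GoodGap gap) {x : ℤ} {s t : ℝ} (hs : 0 ≤ s) (hst : s ≤ t)
    (h1 : ∀ j : Fin E, l + ((j : ℕ) : ℤ) = x - 1 → ∀ k, ringTime gap (x - 1) k ∉ Set.Ioc s t)
    (h2 : ∀ j : Fin E, l + ((j : ℕ) : ℤ) = x → ∀ k, ringTime gap x k ∉ Set.Ioc s t) :
    zw gap l E t x = zw gap l E s x := by
  have hgf : GoodFin (sub gap l E) := hg.sub l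
  obtain ⟨n, hn1, hn2⟩ := exists_between hgf hs
  obtain ⟨m, hm1, hm2⟩ := exists_between hgf (hs.trans hst)
  rw [zw_eq hg hn1 hn2, zw_eq hg hm1 hm2]
  have hnm : n ≤ m := by
    have := hgf.Sn_strictMono.lt_iff_lt.mp (lt_of_le_of_lt (hn1.trans hst) hm2)
    omega
  have key : ∀ i, n ≤ i → i ≤ m → stw gap l E i x = stw gap l E n x := by
    intro i hi
    induction i, hi using Nat.le_induction with
    | base => intro _; rfl
    | succ i hi ih =>
      intro him
      rw [← ih (by omega)]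
      obtain ⟨k, hk⟩ := ring_at (sub gap l E) i
      rw [rt_sub] at hk
      have ht1 : s < Sn (sub gap l E) (i + 1) :=
        lt_of_lt_of_le hn2 (hgf.Sn_strictMono.monotone (by omega))
      have ht2 : Sn (sub gap l E) (i + 1) ≤ t :=
        (hgf.Sn_strictMono.monotone him).trans hm1
      have hmem : ringTime gap (l + ((es (sub gap l E) i : Fin E) : ℕ)) k ∈ Set.Ioc s t := by
        rw [hk]; exact ⟨ht1, ht2⟩
      show swp (eseq gap l E i) (stw gap l E i) x = stw gap l E i x
      have e1 : x ≠ eseq gap l E i := by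
        intro h
        have h' : l + ((es (sub gap l E) i : Fin E) : ℕ) = x := h.symm
        rw [h'] at hmem
        exact h2 _ h' k hmem
      have e2 : x ≠ eseq gap l E i + 1 := by
        intro h
        have h' : l + ((es (sub gap l E) i : Fin E) : ℕ) = x - 1 := by
          have : x = l + ((es (sub gap l E) i : Fin E) : ℕ) + 1 := h
          omega
        rw [h'] at hmem
        exact h1 _ h' k hmem
      rw [swp, if_neg e1, if_neg e2]
  exact key m hnm le_rfl

lemma zw_jump (hg : GoodGap gap) {x : ℤ} (j : Fin E) (hj : l + ((j : ℕ) : ℤ) = x) (k : ℕ) :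
    ∀ᶠ s in 𝓝[<] (ringTime gap x k),
      zw gap l E (ringTime gap x k) x = max (zw gap l E s x) (zw gap l E s (x + 1)) ∧
      zw gap l E (ringTime gap x k) (x + 1) = min (zw gap l E s x) (zw gap l E s (x + 1)) := by
  have hgf : GoodFin (sub gap l E) := hg.sub l
  set τ := ringTime gap x k with hτ
  have hrt : rt (sub gap l E) j k = τ := by rw [rt_sub, hj]
  have hτ0 : 0 ≤ τ := (hg.ring_pos x k).le
  obtain ⟨m, hm1, hm2⟩ := exists_between hgf hτ0
  obtain ⟨i, hji, hτi⟩ : ∃ i, j = es (sub gap l E) i ∧ τ = Sn (sub gap l E) (i + 1) := by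
    rcases (ringset_n (sub gap l E) j (m + 1) τ).mp ⟨k, hrt⟩ with ⟨i, _, h1, h2⟩ | ⟨k', hk'⟩
    · exact ⟨i, h1, h2⟩
    · have := rt_pos (hgf.nxn (m + 1)) j k'
      linarith
  have hlt : Sn (sub gap l E) i < τ := by rw [hτi]; exact hgf.Sn_strictMono (by omega)
  have e : eseq gap l E i = x := by rw [eseq, ← hji]; exact hj
  have hz : zw gap l E τ = swp x (stw gap l E i) := by
    rw [zw_eq hg (n := i + 1) hτi.ge (by rw [hτi]; exact hgf.Sn_strictMono (by omega))]
    show swp (eseq gap l E i) (stw gap l E i) = _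
    rw [e]
  filter_upwards [Ioo_mem_nhdsLT hlt] with s hs
  have hzs : zw gap l E s = stw gap l E i := zw_eq hg hs.1.le (by rw [← hτi]; exact hs.2)
  rw [hz, hzs]
  constructor
  · rw [swp, if_pos rfl]
  · have : ¬ (x + 1 = x) := by omega
    rw [swp, if_neg this, if_pos rfl]

end Window

/-- Two windows agree between two common silent edges. -/
lemma zw_agree {gap : ℤ → ℕ → ℝ} (hg : GoodGap gap) {l l' : ℤ} {E E' : ℕ} [NeZero E] [NeZero E']
    {a b : ℤ} {T : ℝ} (ha : T < ringTime gap a 0) (hb : T < ringTime gap b 0)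
    (h1 : l ≤ a + 1) (h2 : b ≤ l + E) (h1' : l' ≤ a + 1) (h2' : b ≤ l' + E') :
    ∀ t, 0 ≤ t → t ≤ T → ∀ y, a < y → y ≤ b → zw gap l E t y = zw gap l' E' t y := by
  have hsil : ∀ e, e = a ∨ e = b → ∀ s t : ℝ, 0 ≤ s → t ≤ T → ∀ k, ringTime gap e k ∉ Set.Ioc s t := by
    intro e he s t _ ht k hk
    have h3 : T < ringTime gap e 0 := by rcases he with rfl | rfl <;> assumption
    have h4 := (hg.strictMono e).monotone (Nat.zero_le k)
    have := hk.2
    linarith
  refine ring_induction hg (Finset.Ioo a b)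
    (fun t => t ≤ T → ∀ y, a < y → y ≤ b → zw gap l E t y = zw gap l' E' t y) 0 ?_ ?_ ?_
  · intro _ y _ _
    rw [zw_zero hg, zw_zero hg]
  · intro s t hs hst hK hQ htT y hy1 hy2
    have hnor : ∀ e, a ≤ e → e ≤ b → ∀ k, ringTime gap e k ∉ Set.Ioc s t := by
      intro e he1 he2 k
      rcases eq_or_lt_of_le he1 with h | h
      · exact hsil e (Or.inl h.symm) s t hs htT k
      · rcases eq_or_lt_of_le he2 with h' | h'
        · exact hsil e (Or.inr h') s t hs htT k
        · exact hK e (Finset.mem_Ioo.mpr ⟨h, h'⟩) k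
    rw [zw_const hg hs hst (fun _ _ => hnor (y - 1) (by omega) (by omega))
      (fun _ _ => hnor y (by omega) (by omega)),
      zw_const hg hs hst (fun _ _ => hnor (y - 1) (by omega) (by omega))
      (fun _ _ => hnor y (by omega) (by omega))]
    exact hQ (hst.trans htT) y hy1 hy2
  · intro x hx k hpos hev hT y hy1 hy2
    rw [Finset.mem_Ioo] at hx
    have j1 := zw_jump (l := l) (E := E) hg ⟨(x - l).toNat, by omega⟩
      (by show l + (((x - l).toNat : ℕ) : ℤ) = x; omega) k
    have j2 := zw_jump (l := l') (E := E') hg ⟨(x - l').toNat, by omega⟩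
      (by show l' + (((x - l').toNat : ℕ) : ℤ) = x; omega) k
    have hmem : Set.Ioo 0 (ringTime gap x k) ∈ 𝓝[<] (ringTime gap x k) := Ioo_mem_nhdsLT hpos
    by_cases hyx : y = x ∨ y = x + 1
    · obtain ⟨s, hs1, hs2, hs3, hs4⟩ := (hev.and (j1.and (j2.and hmem))).exists
      have hsT : s ≤ T := hs4.2.le.trans hT
      have q1 := hs1 hsT x hx.1 hx.2.le
      have q2 := hs1 hsT (x + 1) (by omega) (by omega)
      rcases hyx with rfl | rfl
      · rw [hs2.1, hs3.1, q1, q2]
      · rw [hs2.2, hs3.2, q1, q2]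
    · rw [not_or] at hyx
      have n1 := hg.no_ring_left (x := x) (y := y - 1) k (by omega)
      have n2 := hg.no_ring_left (x := x) (y := y) k hyx.1
      obtain ⟨s, hs1, hs2, hs3, hs4⟩ := (hev.and (n1.and (n2.and hmem))).exists
      have hsT : s ≤ T := hs4.2.le.trans hT
      rw [zw_const hg hs4.1.le hs4.2.le (fun _ _ => hs2) (fun _ _ => hs3),
        zw_const hg hs4.1.le hs4.2.le (fun _ _ => hs2) (fun _ _ => hs3)]
      exact hs1 hsT y hy1 hy2

/-- For every environment in the good set there is a trajectory of the colored TASEP. -/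
theorem exists_trajectory {gap : ℤ → ℕ → ℝ} (hg : GoodGap gap) :
    ∃ ζ : ℝ → ℤ → ℤ, IsColoredTASEP gap ζ := by
  have hR : ∀ (t : ℝ) (x : ℤ), ∃ b, x ≤ b ∧ t < ringTime gap b 0 := fun t x => hg.silentR t x
  have hL : ∀ (t : ℝ) (x : ℤ), ∃ a, a ≤ x - 1 ∧ t < ringTime gap a 0 :=
    fun t x => hg.silentL t (x - 1)
  choose br hbr1 hbr2 using hR
  choose al hal1 hal2 using hL
  set ζ : ℝ → ℤ → ℤ := fun t x =>
    zw gap (al t x) ((br t x - al t x).toNat + 1) t x with hζ
  have hwin : ∀ (t : ℝ) (y a b : ℤ), 0 ≤ t → a < y → y ≤ b → t < ringTime gap a 0 →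
      t < ringTime gap b 0 → ζ t y = zw gap a ((b - a).toNat + 1) t y := by
    intro t y a b ht hay hyb hta htb
    have b1 := hbr1 t y
    have b2 := hal1 t y
    have hsa : t < ringTime gap (max a (al t y)) 0 := by
      rcases max_choice a (al t y) with h | h <;> rw [h]
      · exact hta
      · exact hal2 t y
    have hsb : t < ringTime gap (min b (br t y)) 0 := by
      rcases min_choice b (br t y) with h | h <;> rw [h]
      · exact htb
      · exact hbr2 t y
    refine zw_agree hg hsa hsb ?_ ?_ ?_ ?_ t ht le_rfl y ?_ ?_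
    · have := le_max_right a (al t y); omega
    · have := min_le_right b (br t y)
      push_cast
      omega
    · have := le_max_left a (al t y); omega
    · have := min_le_left b (br t y)
      push_cast
      omega
    · exact max_lt hay (by omega)
    · exact le_min hyb b1
  refine ⟨ζ, ⟨?_, ?_, ?_⟩⟩
  · intro x
    show zw gap (al 0 x) ((br 0 x - al 0 x).toNat + 1) 0 x = x
    rw [zw_zero hg]; rfl
  · intro x s t hs hst h1 h2
    have ht : 0 ≤ t := hs.trans hst
    have b1 := hbr1 t x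
    have b2 := hal1 t x
    have e1 := hwin s x (al t x) (br t x) hs (by omega) b1 (hst.trans_lt (hal2 t x))
      (hst.trans_lt (hbr2 t x))
    rw [e1]
    exact zw_const hg hs hst (fun _ _ => h1) (fun _ _ => h2)
  · intro x k
    set τ := ringTime gap x k with hτ
    have hτ0 : 0 < τ := hg.ring_pos x k
    obtain ⟨b, hb1, hb2⟩ := hg.silentR τ (x + 1)
    obtain ⟨a, ha1, ha2⟩ := hg.silentL τ (x - 1)
    have hval : ∀ s, 0 ≤ s → s ≤ τ → ∀ y, (y = x ∨ y = x + 1) →
        ζ s y = zw gap a ((b - a).toNat + 1) s y := by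
      intro s hs hsτ y hy
      exact hwin s y a b hs (by omega) (by omega) (hsτ.trans_lt ha2) (hsτ.trans_lt hb2)
    have hj := zw_jump (l := a) (E := (b - a).toNat + 1) hg
      ⟨(x - a).toNat, by omega⟩ (by show a + (((x - a).toNat : ℕ) : ℤ) = x; omega) k
    rw [← hτ] at hj
    filter_upwards [hj, Ioo_mem_nhdsLT hτ0] with s hs hs2
    have q1 := hval s hs2.1.le hs2.2.le x (Or.inl rfl)
    have q2 := hval s hs2.1.le hs2.2.le (x + 1) (Or.inr rfl)
    have q3 := hval τ hτ0.le le_rfl x (Or.inl rfl)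
    have q4 := hval τ hτ0.le le_rfl (x + 1) (Or.inr rfl)
    rw [← q1, ← q2, ← q3, ← q4] at hs
    split_ifs with h
    · refine ⟨?_, ?_⟩
      · rw [hs.1, max_eq_right h.le]
      · rw [hs.2, min_eq_left h.le]
    · refine ⟨?_, ?_⟩
      · rw [hs.1, max_eq_left (not_lt.mp h)]
      · rw [hs.2, min_eq_right (not_lt.mp h)]

open MeasureTheory ProbabilityTheory in
/-- The colored TASEP exists: the hypotheses of the main theorem can be met for any family of
clocks. -/
theorem exists_process {Ω : Type*} [MeasurableSpace Ω] {P : Measure Ω} [IsProbabilityMeasure P]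
    {gap : ℤ → ℕ → Ω → ℝ} (hm : ∀ x k, Measurable (gap x k))
    (hi : iIndepFun (fun p : ℤ × ℕ => gap p.1 p.2) P)
    (hl : ∀ x k, P.map (gap x k) = expMeasure 1) :
    ∃ ζ : Ω → ℝ → ℤ → ℤ, ∀ᵐ ω ∂P, IsColoredTASEP (fun x k => gap x k ω) (ζ ω) := by
  classical
  refine ⟨fun ω => if h : GoodGap (fun x k => gap x k ω) then (exists_trajectory h).choose
    else fun _ => id, ?_⟩
  filter_upwards [ae_goodGap hm hi hl] with ω hω
  rw [dif_pos hω]
  exact (exists_trajectory hω).choose_spec

open MeasureTheory ProbabilityTheory in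
/-- The clocks exist. -/
theorem exists_clocks : ∃ (P : Measure (ℤ × ℕ → ℝ)) (_ : IsProbabilityMeasure P)
    (gap : ℤ → ℕ → (ℤ × ℕ → ℝ) → ℝ), (∀ x k, Measurable (gap x k)) ∧
    iIndepFun (fun p : ℤ × ℕ => gap p.1 p.2) P ∧ ∀ x k, P.map (gap x k) = expMeasure 1 := by
  refine ⟨Measure.infinitePi (fun _ => expMeasure 1), inferInstance, fun x k ω => ω (x, k),
    fun x k => measurable_pi_apply _, ?_, fun x k => ?_⟩
  · exact iIndepFun_infinitePi (X := fun _ ω => ω) (fun _ => measurable_id)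
  · exact Measure.infinitePi_map_eval _ (x, k)

end Pool.Agent.Work.MP_71af4b_pr
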