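import Pool.Agent.Work.MP_71af4b_pr.AsGood
import Pool.Agent.Work.MP_71af4b_pr.Count

set_option autoImplicit false

open MeasureTheory ProbabilityTheory Measure Filter
open scoped ENNReal

namespace Pool.Agent.Work.MP_71af4b_pr

section

variable {E : ℕ} [NeZero E]

/-- the edges as integers -/
noncomputable def eint (l : ℤ) (g : Fin E → ℕ → ℝ) (n : ℕ) : ℤ := l + ((es g n : Fin E) : ℕ)

lemma eint_pad (l : ℤ) (g : Fin E → ℕ → ℝ) {n r : ℕ} (hr : r ≤ n) :
    hist (fun s => l + (pad (fun i : Fin n => es g i) s : ℤ)) r = hist (eint l g) r := by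
  refine hist_congr fun s hs => ?_
  have : s < n := by omega
  rw [pad, dif_pos this]
  rfl

lemma measurableSet_gr (l A : ℤ) (n b c : ℕ) :
    MeasurableSet {g : Fin E → ℕ → ℝ | gr A (hist (eint l g) n) b c} := by
  have h2 : Measurable (fun g : Fin E → ℕ → ℝ => fun i : Fin n => es g i) := by
    rw [measurable_pi_iff]
    exact fun i => measurable_es i
  have : {g : Fin E → ℕ → ℝ | gr A (hist (eint l g) n) b c} =
      (fun g : Fin E → ℕ → ℝ => fun i : Fin n => es g i) ⁻¹'
        {ε | gr A (hist (fun s => l + (pad ε s : ℤ)) n) b c} := by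
    ext g
    simp only [Set.mem_ofPred_eq, Set.mem_preimage]
    rw [eint_pad l g le_rfl]
  rw [this]
  exact h2 (Set.toFinite _).measurableSet

/-- the hitting index -/
noncomputable def kF (l A : ℤ) (B C : ℕ) (g : Fin E → ℕ → ℝ) : ℕ := kap A B C (eint l g)

lemma measurable_kF (l A : ℤ) (B C : ℕ) :
    Measurable (kF l A B C : (Fin E → ℕ → ℝ) → ℕ) := by
  refine measurable_to_countable' fun k => ?_
  set p : ℕ → Set (Fin E → ℕ → ℝ) := fun n => {g | gr A (hist (eint l g) n) B C} with hp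
  have hpm : ∀ n, MeasurableSet (p n) := fun n => measurableSet_gr l A n B C
  have : (kF l A B C : (Fin E → ℕ → ℝ) → ℕ) ⁻¹' {k} =
      (p k ∩ ⋂ j : ℕ, ⋂ _ : j < k, (p j)ᶜ) ∪ ({g | k = 0} ∩ ⋂ n : ℕ, (p n)ᶜ) := by
    ext g
    simp only [Set.mem_preimage, Set.mem_singleton_iff, Set.mem_union, Set.mem_inter_iff,
      Set.mem_iInter, Set.mem_compl_iff]
    show kap A B C (eint l g) = k ↔ (gr A (hist (eint l g) k) B C ∧
      ∀ j, j < k → ¬ gr A (hist (eint l g) j) B C) ∨ (k = 0 ∧ ∀ n, ¬ gr A (hist (eint l g) n) B C)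
    constructor
    · intro h
      by_cases hne : {n | gr A (hist (eint l g) n) B C}.Nonempty
      · left
        have h1 := Nat.sInf_mem hne
        have h2 : sInf {n | gr A (hist (eint l g) n) B C} = k := h
        rw [h2] at h1
        refine ⟨h1, fun j hj hgr => ?_⟩
        have := Nat.sInf_le (s := {n | gr A (hist (eint l g) n) B C}) hgr
        omega
      · right
        rw [Set.not_nonempty_iff_eq_empty] at hne
        rw [kap, hne, Nat.sInf_empty] at h
        refine ⟨h.symm, fun n hn => ?_⟩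
        have : n ∈ {n | gr A (hist (eint l g) n) B C} := hn
        rw [hne] at this
        exact this
    · rintro (⟨h1, h2⟩ | ⟨h1, h2⟩)
      · have hne : {n | gr A (hist (eint l g) n) B C}.Nonempty := ⟨k, h1⟩
        have h3 := Nat.sInf_mem hne
        have h4 := Nat.sInf_le (s := {n | gr A (hist (eint l g) n) B C}) h1
        by_contra hne'
        have h5 : sInf {n | gr A (hist (eint l g) n) B C} ≠ k := hne'
        exact h2 _ (by omega) h3
      · have : {n | gr A (hist (eint l g) n) B C} = ∅ := by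
          ext n; simp only [Set.mem_ofPred_eq, Set.mem_empty_iff_false, iff_false]; exact h2 n
        rw [kap, this, Nat.sInf_empty, h1]
  rw [this]
  refine ((hpm k).inter ?_).union ((MeasurableSet.const _).inter ?_)
  · exact MeasurableSet.iInter fun j => MeasurableSet.iInter fun _ => (hpm j).compl
  · exact MeasurableSet.iInter fun j => (hpm j).compl

/-- the passage times as a function of the clocks -/
noncomputable def TT {G : ℕ} (l : ℤ) (A : Fin G → ℤ) (B C : Fin G → ℕ) (g : Fin E → ℕ → ℝ) :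
    Fin G → ℝ := fun i => Sn g (kF l (A i) (B i) (C i) g)

lemma measurable_Sn (k : ℕ) : Measurable (fun g : Fin E → ℕ → ℝ => Sn g k) :=
  Finset.measurable_sum _ fun r _ => measurable_ms r

lemma measurable_TT {G : ℕ} (l : ℤ) (A : Fin G → ℤ) (B C : Fin G → ℕ) :
    Measurable (TT l A B C : (Fin E → ℕ → ℝ) → Fin G → ℝ) := by
  rw [measurable_pi_iff]
  intro i U hU
  have : (fun g : Fin E → ℕ → ℝ => TT l A B C g i) ⁻¹' U =
      ⋃ k : ℕ, (kF l (A i) (B i) (C i) ⁻¹' {k}) ∩ ((fun g : Fin E → ℕ → ℝ => Sn g k) ⁻¹' U) := by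
    ext g
    simp only [Set.mem_preimage, Set.mem_iUnion, Set.mem_inter_iff, Set.mem_singleton_iff, TT]
    constructor
    · intro h; exact ⟨_, rfl, h⟩
    · rintro ⟨k, rfl, h⟩; exact h
  rw [this]
  exact MeasurableSet.iUnion fun k => ((measurable_kF l _ _ _) (measurableSet_singleton k)).inter
    ((measurable_Sn k) hU)

lemma kF_eq_iff {G : ℕ} {l : ℤ} {A : Fin G → ℤ} {B C : Fin G → ℕ} {g : Fin E → ℕ → ℝ}
    (hne : ∀ i, ∃ n, gr (A i) (hist (eint l g) n) (B i) (C i)) (k : Fin G → ℕ) :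
    (fun i => kF l (A i) (B i) (C i) g) = k ↔
      (fun i : Fin (Finset.univ.sup k) => es g i) ∈ PS E l A B C (Finset.univ.sup k) k := by
  rw [mem_PS]
  have hiff : ∀ i n, gr (A i) (hist (eint l g) n) (B i) (C i) ↔ kF l (A i) (B i) (C i) g ≤ n := by
    intro i n
    constructor
    · intro h; exact Nat.sInf_le h
    · intro h
      exact gr_mono (A i) _ (B i) (C i) h (Nat.sInf_mem (s := {n | gr (A i) (hist (eint l g) n)
        (B i) (C i)}) (hne i))
  constructor
  · rintro rfl r hr i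
    rw [eint_pad l g hr]
    exact hiff i r
  · intro h
    funext i
    have hk : k i ≤ Finset.univ.sup k := Finset.le_sup (Finset.mem_univ i)
    have h1 := (h (k i) hk i).mpr le_rfl
    rw [eint_pad l g hk] at h1
    have h2 := (hiff i (k i)).mp h1
    by_contra hne'
    have h3 := (hiff i (kF l (A i) (B i) (C i) g)).mpr le_rfl
    have hk3 : kF l (A i) (B i) (C i) g ≤ Finset.univ.sup k := h2.trans hk
    have h4 := (h _ hk3 i).mp (by rw [eint_pad l g hk3]; exact h3)
    exact hne' (le_antisymm h2 h4)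

end

variable {Ω : Type*} [MeasurableSpace Ω] {P : Measure Ω} [IsProbabilityMeasure P]
  {gap : ℤ → ℕ → Ω → ℝ} {ζ : Ω → ℝ → ℤ → ℤ}

lemma passage_TT (hm : ∀ x k, Measurable (gap x k))
    (hi : iIndepFun (fun p : ℤ × ℕ => gap p.1 p.2) P)
    (hl : ∀ x k, P.map (gap x k) = expMeasure 1)
    (hζ : ∀ᵐ ω ∂P, IsColoredTASEP (fun x k => gap x k ω) (ζ ω)) {G E' : ℕ} {l : ℤ}
    {A : Fin G → ℤ} {B C : Fin G → ℕ} (h1 : ∀ i, l ≤ A i + 1 - C i)
    (h2 : ∀ i, A i + B i ≤ l + (E' + 1 : ℕ)) :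
    (fun ω => fun i => passageTime (ζ ω) (A i) (B i) (C i)) =ᵐ[P]
      fun ω => TT l A B C (sub (fun x k => gap x k ω) l (E' + 1)) := by
  filter_upwards [ae_goodGap hm hi hl, hζ] with ω hg hz
  funext i
  exact passageTime_eq hg hz (h1 i) (h2 i)

lemma ae_hit (hm : ∀ x k, Measurable (gap x k))
    (hi : iIndepFun (fun p : ℤ × ℕ => gap p.1 p.2) P)
    (hl : ∀ x k, P.map (gap x k) = expMeasure 1)
    (hζ : ∀ᵐ ω ∂P, IsColoredTASEP (fun x k => gap x k ω) (ζ ω)) {G E' : ℕ} {l : ℤ}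
    {A : Fin G → ℤ} {B C : Fin G → ℕ} (h1 : ∀ i, l ≤ A i + 1 - C i)
    (h2 : ∀ i, A i + B i ≤ l + (E' + 1 : ℕ)) :
    ∀ᵐ g ∂(muE (E' + 1)), ∀ i, ∃ n, gr (A i) (hist (eint l g) n) (B i) (C i) := by
  rw [← map_sub hm hi hl l (E' + 1)]
  have hset : MeasurableSet {g : Fin (E' + 1) → ℕ → ℝ |
      ∀ i, ∃ n, gr (A i) (hist (eint l g) n) (B i) (C i)} := by
    have : {g : Fin (E' + 1) → ℕ → ℝ |
        ∀ i, ∃ n, gr (A i) (hist (eint l g) n) (B i) (C i)} =
        ⋂ i, ⋃ n, {g | gr (A i) (hist (eint l g) n) (B i) (C i)} := by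
      ext g; simp
    rw [this]
    exact MeasurableSet.iInter fun i => MeasurableSet.iUnion fun n => measurableSet_gr _ _ _ _ _
  rw [ae_map_iff (measurable_sub hm l (E' + 1)).aemeasurable hset]
  filter_upwards [ae_goodGap hm hi hl, hζ] with ω hg hz
  intro i
  exact kap_nonempty hg hz (h1 i) (h2 i)

theorem shift_law (hm : ∀ x k, Measurable (gap x k))
    (hi : iIndepFun (fun p : ℤ × ℕ => gap p.1 p.2) P)
    (hl : ∀ x k, P.map (gap x k) = expMeasure 1)
    (hζ : ∀ᵐ ω ∂P, IsColoredTASEP (fun x k => gap x k ω) (ζ ω)) {G : ℕ} (L : Fin G → Prop)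
    (hLne : ∃ i, L i) (hRne : ∃ i, ¬ L i) (A A' : Fin G → ℤ) (B C : Fin G → ℕ)
    (hB : ∀ i, 1 ≤ B i) (hC : ∀ i, 1 ≤ C i) (hAL : ∀ i, L i → A' i = A i)
    (hAR : ∀ i, ¬ L i → A' i = A i + 1)
    (hord : ∀ i j, L i → ¬ L j → A i ≤ A j ∧ A j - C j + 1 ≤ A i - C i ∧
      A j + B j + 1 ≤ A i + B i) :
    IdentDistrib (fun ω => fun i => passageTime (ζ ω) (A i) (B i) (C i))
      (fun ω => fun i => passageTime (ζ ω) (A' i) (B i) (C i)) P P := by
  classical
  -- the extremal values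
  set Ls := Finset.univ.filter L with hLs
  set Rs := Finset.univ.filter (fun i => ¬ L i) with hRs
  have hLs_ne : Ls.Nonempty := by
    obtain ⟨i, hi'⟩ := hLne
    exact ⟨i, by simp [hLs, hi']⟩
  have hRs_ne : Rs.Nonempty := by
    obtain ⟨i, hi'⟩ := hRne
    exact ⟨i, by simp [hRs, hi']⟩
  have memL : ∀ i, i ∈ Ls ↔ L i := fun i => by simp [hLs]
  have memR : ∀ i, i ∈ Rs ↔ ¬ L i := fun i => by simp [hRs]
  obtain ⟨ia, hia, hia'⟩ := Finset.exists_max_image Ls A hLs_ne
  obtain ⟨il, hil, hil'⟩ := Finset.exists_max_image Rs (fun i => A i - C i + 1) hRs_ne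
  obtain ⟨ir, hir, hir'⟩ := Finset.exists_max_image Rs (fun i => A i + B i) hRs_ne
  obtain ⟨im, him, him'⟩ := Finset.exists_min_image Rs (fun i => A i - C i + 1) hRs_ne
  obtain ⟨ix, hix, hix'⟩ := Finset.exists_max_image Ls (fun i => A i + B i) hLs_ne
  rw [memL] at hia hix
  rw [memR] at hil hir him
  set a := A ia with ha
  set lam := A il - C il + 1 with hlam
  set ρ := A ir + B ir with hρ
  set l := A im - C im + 1 with hl'
  set rx := A ix + B ix with hrx
  have b1 : l ≤ lam := hil' im ((memR im).mpr him)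
  have b2 : lam + 1 ≤ a := by
    have := hord ia il hia hil
    have := hC ia
    omega
  have b3 : a + 1 ≤ ρ := by
    have h1 := hord ia ir hia hir
    have h2 := hB ir
    omega
  have b4 : ρ + 1 ≤ rx := by
    have h1 := hord ix ir hix hir
    omega
  obtain ⟨α, hα⟩ : ∃ α : ℕ, l + α = lam := ⟨(lam - l).toNat, by omega⟩
  obtain ⟨m, hmm⟩ : ∃ m : ℕ, lam + m = a := ⟨(a - lam).toNat, by omega⟩
  obtain ⟨n, hn⟩ : ∃ n : ℕ, a + n = ρ := ⟨(ρ - a).toNat, by omega⟩
  obtain ⟨β, hβ⟩ : ∃ β : ℕ, ρ + β + 1 = rx := ⟨(rx - ρ - 1).toNat, by omega⟩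
  have hcond1 : ∀ i, L i → A' i = A i ∧ A i ≤ a ∧ l + α + 1 ≤ A i - C i + 1 ∧
      a + n + 1 ≤ A i + B i ∧ A i + B i ≤ a + n + β + 1 := by
    intro i hLi
    have c1 := hia' i ((memL i).mpr hLi)
    have c2 := hix' i ((memL i).mpr hLi)
    have c3 := hord i il hLi hil
    have c4 := hord i ir hLi hir
    refine ⟨hAL i hLi, c1, ?_, ?_, ?_⟩ <;> omega
  have hcond2 : ∀ i, ¬ L i → A' i = A i + 1 ∧ a ≤ A i ∧ A i - C i + 1 ≤ l + α ∧
      A i + B i ≤ a + n ∧ l ≤ A i - C i + 1 := by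
    intro i hRi
    have c1 := hil' i ((memR i).mpr hRi)
    have c2 := hir' i ((memR i).mpr hRi)
    have c3 := him' i ((memR i).mpr hRi)
    have c4 := hord ia i hia hRi
    refine ⟨hAR i hRi, c4.1, ?_, ?_, ?_⟩ <;> omega
  set E' := α + m + n + β with hE'
  -- ranges
  have r1 : ∀ i, l ≤ A i + 1 - C i := by
    intro i
    by_cases hLi : L i
    · have := hcond1 i hLi; omega
    · have := hcond2 i hLi; omega
  have r2 : ∀ i, A i + B i ≤ l + (E' + 1 : ℕ) := by
    intro i
    by_cases hLi : L i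
    · have := hcond1 i hLi; push_cast; omega
    · have := hcond2 i hLi; push_cast; omega
  have r3 : ∀ i, l ≤ A' i + 1 - C i := by
    intro i
    by_cases hLi : L i
    · have := hcond1 i hLi; omega
    · have := hcond2 i hLi; omega
  have r4 : ∀ i, A' i + B i ≤ l + (E' + 1 : ℕ) := by
    intro i
    by_cases hLi : L i
    · have := hcond1 i hLi; push_cast; omega
    · have := hcond2 i hLi; push_cast; omega
  have hp1 := passage_TT hm hi hl hζ r1 r2
  have hp2 := passage_TT hm hi hl hζ r3 r4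
  have hsub := measurable_sub hm l (E' + 1)
  have hmeas1 : Measurable (fun ω => TT l A B C (sub (fun x k => gap x k ω) l (E' + 1))) :=
    (measurable_TT l A B C).comp hsub
  have hmeas2 : Measurable (fun ω => TT l A' B C (sub (fun x k => gap x k ω) l (E' + 1))) :=
    (measurable_TT l A' B C).comp hsub
  refine ⟨⟨_, hmeas1, hp1⟩, ⟨_, hmeas2, hp2⟩, ?_⟩
  have hgood := ae_SA hm hi hl E'
  have key : (muE (E' + 1)).map (TT l A B C) = (muE (E' + 1)).map (TT l A' B C) := by
    ext W hW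
    rw [map_apply (measurable_TT l A B C) hW, map_apply (measurable_TT l A' B C) hW]
    have s1 := law_sum hgood (fun g i => kF l (A i) (B i) (C i) g) (fun k => Finset.univ.sup k)
      (fun k i => Finset.le_sup (Finset.mem_univ i))
      (fun k => PS (E' + 1) l A B C (Finset.univ.sup k) k)
      (by
        filter_upwards [ae_hit hm hi hl hζ r1 r2] with g hg
        intro k
        exact kF_eq_iff hg k) hW
    have s2 := law_sum hgood (fun g i => kF l (A' i) (B i) (C i) g) (fun k => Finset.univ.sup k)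
      (fun k i => Finset.le_sup (Finset.mem_univ i))
      (fun k => PS (E' + 1) l A' B C (Finset.univ.sup k) k)
      (by
        filter_upwards [ae_hit hm hi hl hζ r3 r4] with g hg
        intro k
        exact kF_eq_iff hg k) hW
    have e1 : TT l A B C ⁻¹' W = {g : Fin (E' + 1) → ℕ → ℝ |
      (fun i => Sn g (kF l (A i) (B i) (C i) g)) ∈ W} := rfl
    have e2 : TT l A' B C ⁻¹' W = {g : Fin (E' + 1) → ℕ → ℝ |
      (fun i => Sn g (kF l (A' i) (B i) (C i) g)) ∈ W} := rfl
    rw [e1, e2, s1, s2]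
    refine tsum_congr fun k => ?_
    rw [count_eq L A A' B C hB hC l a α m n β (by omega) hcond1 hcond2 (Finset.univ.sup k) k]
  rw [Measure.map_congr hp1, Measure.map_congr hp2]
  have f1 : (fun ω => TT l A B C (sub (fun x k => gap x k ω) l (E' + 1))) =
      TT l A B C ∘ (fun ω => sub (fun x k => gap x k ω) l (E' + 1)) := rfl
  have f2 : (fun ω => TT l A' B C (sub (fun x k => gap x k ω) l (E' + 1))) =
      TT l A' B C ∘ (fun ω => sub (fun x k => gap x k ω) l (E' + 1)) := rfl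
  rw [f1, f2, ← map_map (measurable_TT l A B C) hsub, ← map_map (measurable_TT l A' B C) hsub,
    map_sub hm hi hl, key]

end Pool.Agent.Work.MP_71af4b_pr
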