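import Mathlib

set_option autoImplicit false

namespace Pool.Agent.Work.MP_71af4b_pr

/-! ### Abstract identities in a ring with idempotent braid generators -/

section Abstract

variable {R : Type*} [Ring R] (t : ℕ → R)

/-- The relations of the monoid of adjacent sorting operators. -/
structure SortRel : Prop where
  idem : ∀ i, t i * t i = t i
  comm : ∀ i j, i + 2 ≤ j → t i * t j = t j * t i
  braid : ∀ i, t i * t (i + 1) * t i = t (i + 1) * t i * t (i + 1)

/-- `sg t i = t i + t (i+1) - 1`. -/
def sg (i : ℕ) : R := t i + t (i + 1) - 1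

/-- `sr t a b = s (a+b-1) * ... * s a`. -/
def sr (a : ℕ) : ℕ → R
  | 0 => 1
  | (b + 1) => sg t (a + b) * sr a b

/-- `tr t a b = t (a+b-1) * ... * t a`. -/
def tr (a : ℕ) : ℕ → R
  | 0 => 1
  | (b + 1) => t (a + b) * tr a b

/-- `td t a = t 0 * t 1 * ... * t a`. -/
def td : ℕ → R
  | 0 => t 0
  | (a + 1) => td a * t (a + 1)

variable {t}

lemma SortRel.I1 (h : SortRel t) (i : ℕ) : t (i + 1) * sg t i = t (i + 1) * t i := by
  unfold sg
  rw [mul_sub, mul_add, h.idem]; simp

lemma SortRel.I2 (h : SortRel t) (i : ℕ) : t i * sg t i = t i * t (i + 1) := by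
  unfold sg
  rw [mul_sub, mul_add, h.idem]; simp

lemma SortRel.I3 (h : SortRel t) (i : ℕ) :
    t (i + 1) * t i * sg t i = t i * t (i + 1) * sg t i := by
  rw [mul_assoc, h.I2, mul_assoc, h.I1, ← mul_assoc, ← mul_assoc, h.braid]

lemma SortRel.kill (h : SortRel t) (i : ℕ) (x : R) :
    t (i + 1) * t i * (sg t i * x) = t i * t (i + 1) * (sg t i * x) := by
  rw [← mul_assoc, h.I3, mul_assoc]

lemma SortRel.I4 (h : SortRel t) (i : ℕ) :
    t (i + 1) * sg t i * sg t (i + 1) = sg t i * sg t (i + 1) * t i := by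
  have e1 : sg t (i + 1) * t i = t (i + 1) * t i + t i * t (i + 2) - t i := by
    unfold sg
    rw [sub_mul, add_mul, ← h.comm i (i + 2) (le_refl _), one_mul]
  rw [h.I1, mul_assoc (sg t i), e1]
  unfold sg
  have b := h.braid i
  have c := h.comm i (i + 2) (le_refl _)
  have i1 := h.idem i
  have i2 := h.idem (i + 1)
  have e2 : t (i + 1) * t i * (t (i + 1) + t (i + 1 + 1) - 1)
      = t (i + 1) * t i * t (i + 1) + t (i + 1) * (t i * t (i + 2)) - t (i + 1) * t i := by
    noncomm_ring
  have e3 : (t i + t (i + 1) - 1) * (t (i + 1) * t i + t i * t (i + 2) - t i)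
      = t i * t (i + 1) * t i + (t i * t i) * t (i + 2) - t i * t i
        + (t (i + 1) * t (i + 1)) * t i + t (i + 1) * (t i * t (i + 2)) - t (i + 1) * t i
        - t (i + 1) * t i - t i * t (i + 2) + t i := by
    noncomm_ring
  rw [e2, e3, i1, i2, b]
  abel

lemma SortRel.I5 (h : SortRel t) (i : ℕ) :
    t (i + 1) * sg t (i + 1) * sg t i = sg t (i + 1) * sg t i * t (i + 2) := by
  have e1 : sg t i * t (i + 2) = t (i + 2) * t i + t (i + 1) * t (i + 2) - t (i + 2) := by
    unfold sg
    rw [sub_mul, add_mul, h.comm i (i + 2) (le_refl _), one_mul]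
  rw [h.I2, mul_assoc (sg t (i + 1)), e1]
  unfold sg
  have b := h.braid (i + 1)
  have c := h.comm i (i + 2) (le_refl _)
  have i1 := h.idem (i + 1)
  have i2 := h.idem (i + 2)
  have e2 : t (i + 1) * t (i + 1 + 1) * (t i + t (i + 1) - 1)
      = t (i + 1) * t (i + 2) * t (i + 1) + t (i + 1) * (t (i + 2) * t i)
        - t (i + 1) * t (i + 2) := by
    noncomm_ring
  have e3 : (t (i + 1) + t (i + 1 + 1) - 1) * (t (i + 2) * t i + t (i + 1) * t (i + 2) - t (i + 2))
      = t (i + 1) * (t (i + 2) * t i) + (t (i + 1) * t (i + 1)) * t (i + 2)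
        - t (i + 1) * t (i + 2)
        + (t (i + 2) * t (i + 2)) * t i + t (i + 2) * t (i + 1) * t (i + 2)
        - t (i + 2) * t (i + 2)
        - t (i + 2) * t i - t (i + 1) * t (i + 2) + t (i + 2) := by
    noncomm_ring
  have b' : t (i + 1) * t (i + 2) * t (i + 1) = t (i + 2) * t (i + 1) * t (i + 2) := b
  rw [e2, e3, i1, i2, b']
  abel

lemma SortRel.t_sg_lo (h : SortRel t) {i j : ℕ} (hij : i + 2 ≤ j) :
    t i * sg t j = sg t j * t i := by
  unfold sg
  rw [mul_sub, mul_add, sub_mul, add_mul, h.comm i j hij, h.comm i (j + 1) (by omega)]; simp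

lemma SortRel.t_sg_hi (h : SortRel t) {i j : ℕ} (hij : j + 3 ≤ i) :
    t i * sg t j = sg t j * t i := by
  unfold sg
  rw [mul_sub, mul_add, sub_mul, add_mul, h.comm j i (by omega), h.comm (j + 1) i (by omega)]; simp

lemma SortRel.sg_sg (h : SortRel t) {i j : ℕ} (hij : i + 3 ≤ j) :
    sg t i * sg t j = sg t j * sg t i := by
  conv_lhs => unfold sg
  conv_rhs => rw [sg.eq_def t i]
  rw [← sg.eq_def t j, sub_mul, add_mul, mul_sub, mul_add, h.t_sg_lo (show i + 2 ≤ j by omega),
    h.t_sg_lo (show (i + 1) + 2 ≤ j by omega)]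
  simp

lemma SortRel.t_sr_hi (h : SortRel t) {i a : ℕ} (b : ℕ) (hi : a + b + 2 ≤ i) :
    t i * sr t a b = sr t a b * t i := by
  induction b with
  | zero => simp [sr]
  | succ b ih =>
    rw [sr, ← mul_assoc, h.t_sg_hi (by omega), mul_assoc, ih (by omega), mul_assoc]

lemma SortRel.t_sr_lo (h : SortRel t) {i a : ℕ} (b : ℕ) (hi : i + 2 ≤ a) :
    t i * sr t a b = sr t a b * t i := by
  induction b with
  | zero => simp [sr]
  | succ b ih =>
    rw [sr, ← mul_assoc, h.t_sg_lo (by omega), mul_assoc, ih, mul_assoc]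

lemma SortRel.sg_sr_hi (h : SortRel t) {i a : ℕ} (b : ℕ) (hi : a + b + 2 ≤ i) :
    sg t i * sr t a b = sr t a b * sg t i := by
  induction b with
  | zero => simp [sr]
  | succ b ih =>
    rw [sr, ← mul_assoc, ← h.sg_sg (show (a + b) + 3 ≤ i by omega), mul_assoc, ih (by omega),
      mul_assoc]

lemma SortRel.sg_comm_kill (h : SortRel t) (i : ℕ) (x : R) :
    sg t i * (sg t (i + 2) * (sg t (i + 1) * x)) = sg t (i + 2) * (sg t i * (sg t (i + 1) * x)) := by
  have k := h.kill (i + 1) x
  set y := sg t (i + 1) * x with hy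
  have c1 := h.comm i (i + 2) (le_refl _)
  have c2 := h.comm i (i + 3) (by omega)
  have c3 := h.comm (i + 1) (i + 3) (by omega)
  have e1 : sg t i * (sg t (i + 2) * y) = (t i * t (i + 2)) * y + (t i * t (i + 3)) * y - t i * y
      + t (i + 1) * t (i + 2) * y + (t (i + 1) * t (i + 3)) * y - t (i + 1) * y
      - t (i + 2) * y - t (i + 3) * y + y := by
    unfold sg
    noncomm_ring
  have e2 : sg t (i + 2) * (sg t i * y) = (t (i + 2) * t i) * y + (t (i + 3) * t i) * y - t i * y
      + t (i + 2) * t (i + 1) * y + (t (i + 3) * t (i + 1)) * y - t (i + 1) * y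
      - t (i + 2) * y - t (i + 3) * y + y := by
    unfold sg
    noncomm_ring
  rw [e1, e2, c1, c2, c3]
  have k' : t (i + 2) * t (i + 1) * y = t (i + 1) * t (i + 2) * y := k
  rw [k']

lemma SortRel.Q_ex (h : SortRel t) (a b : ℕ) :
    ∃ X, sr t a b * sr t (a + 1) (b + 1) = sg t (a + b + 1) * X := by
  induction b with
  | zero => exact ⟨1, by simp [sr]⟩
  | succ b ih =>
    obtain ⟨X, hX⟩ := ih
    refine ⟨sg t (a + b) * (sg t (a + b + 1) * X), ?_⟩
    have e : sr t a (b + 1) * sr t (a + 1) (b + 1 + 1)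
        = sg t (a + b) * (sg t (a + b + 2) * (sr t a b * sr t (a + 1) (b + 1))) := by
      rw [sr.eq_def t (a + 1) (b + 1 + 1)]
      simp only []
      rw [sr.eq_def t a (b + 1)]
      simp only []
      rw [show a + 1 + (b + 1) = a + b + 2 by ring, mul_assoc (sg t (a + b)),
        ← mul_assoc (sr t a b), ← h.sg_sr_hi b (show a + b + 2 ≤ a + b + 2 by omega), mul_assoc (sg t (a + b + 2))]
    rw [e, hX, h.sg_comm_kill]
    rw [show a + (b + 1) + 1 = a + b + 2 by ring]

/-- (C1) at the level of operators. -/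
lemma SortRel.C1op (h : SortRel t) (a b : ℕ) :
    sr t a b * (sg t (a + b + 1) * sr t (a + 1) b) = sg t (a + b + 1) * (sr t a b * sr t (a + 1) b) := by
  cases b with
  | zero => simp [sr]
  | succ b =>
    obtain ⟨X, hX⟩ := h.Q_ex a b
    have e1 : sr t a (b + 1) * (sg t (a + (b + 1) + 1) * sr t (a + 1) (b + 1))
        = sg t (a + b) * (sg t (a + b + 2) * (sr t a b * sr t (a + 1) (b + 1))) := by
      rw [sr.eq_def t a (b + 1)]
      simp only []
      rw [show a + (b + 1) + 1 = a + b + 2 by ring, mul_assoc (sg t (a + b)),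
        ← mul_assoc (sr t a b), ← h.sg_sr_hi b (show a + b + 2 ≤ a + b + 2 by omega),
        mul_assoc (sg t (a + b + 2))]
    have e2 : sg t (a + (b + 1) + 1) * (sr t a (b + 1) * sr t (a + 1) (b + 1))
        = sg t (a + b + 2) * (sg t (a + b) * (sr t a b * sr t (a + 1) (b + 1))) := by
      rw [sr.eq_def t a (b + 1)]
      simp only []
      rw [show a + (b + 1) + 1 = a + b + 2 by ring, mul_assoc (sg t (a + b))]
    rw [e1, e2, hX, h.sg_comm_kill]

/-- recursion for `sr a b * sr (a+1) b`. -/
lemma SortRel.RR (h : SortRel t) (a b : ℕ) :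
    sr t a (b + 1) * sr t (a + 1) (b + 1)
      = sg t (a + b) * (sg t (a + b + 1) * (sr t a b * sr t (a + 1) b)) := by
  rw [← h.C1op a b, sr.eq_def t a (b + 1)]
  simp only []
  rw [sr.eq_def t (a + 1) (b + 1)]
  simp only []
  rw [show a + 1 + b = a + b + 1 by ring, mul_assoc]

/-- (C2) at the level of operators, first case. -/
lemma SortRel.C2op (h : SortRel t) (a b : ℕ) :
    t (a + b) * (sr t a b * sr t (a + 1) b) = sr t a b * sr t (a + 1) b * t a := by
  induction b with
  | zero => simp [sr]
  | succ b ih =>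
    rw [h.RR]
    have h4 := h.I4 (a + b)
    calc t (a + (b + 1)) * (sg t (a + b) * (sg t (a + b + 1) * (sr t a b * sr t (a + 1) b)))
        = (t (a + b + 1) * sg t (a + b) * sg t (a + b + 1)) * (sr t a b * sr t (a + 1) b) := by
          rw [show a + (b + 1) = a + b + 1 by ring]; noncomm_ring
      _ = sg t (a + b) * sg t (a + b + 1) * (t (a + b) * (sr t a b * sr t (a + 1) b)) := by
          rw [h4]; noncomm_ring
      _ = _ := by rw [ih]; noncomm_ring

/-- (C2) at the level of operators, second case. -/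
lemma SortRel.C2op' (h : SortRel t) (a b : ℕ) :
    t (a + b + 1) * (sr t a b * sr t (a + 1) b) = sr t a b * (t (a + b + 1) * sr t (a + 1) b) := by
  cases b with
  | zero => simp [sr]
  | succ b =>
    obtain ⟨X, hX⟩ := h.Q_ex a b
    have e1 : sr t a (b + 1) * (t (a + (b + 1) + 1) * sr t (a + 1) (b + 1))
        = sg t (a + b) * (t (a + b + 2) * (sr t a b * sr t (a + 1) (b + 1))) := by
      rw [sr.eq_def t a (b + 1)]
      simp only []
      rw [show a + (b + 1) + 1 = a + b + 2 by ring, mul_assoc (sg t (a + b)),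
        ← mul_assoc (sr t a b), ← h.t_sr_hi b (show a + b + 2 ≤ a + b + 2 by omega),
        mul_assoc (t (a + b + 2))]
    have e2 : t (a + (b + 1) + 1) * (sr t a (b + 1) * sr t (a + 1) (b + 1))
        = t (a + b + 2) * (sg t (a + b) * (sr t a b * sr t (a + 1) (b + 1))) := by
      rw [sr.eq_def t a (b + 1)]
      simp only []
      rw [show a + (b + 1) + 1 = a + b + 2 by ring, mul_assoc (sg t (a + b))]
    rw [e1, e2, hX]
    have k := h.kill (a + b + 1) X
    have c := h.comm (a + b) (a + b + 2) (by omega)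
    set y := sg t (a + b + 1) * X
    have k' : t (a + b + 2) * t (a + b + 1) * y = t (a + b + 1) * t (a + b + 2) * y := k
    have f1 : t (a + b + 2) * (sg t (a + b) * y)
        = (t (a + b + 2) * t (a + b)) * y + t (a + b + 2) * t (a + b + 1) * y - t (a + b + 2) * y := by
      unfold sg; noncomm_ring
    have f2 : sg t (a + b) * (t (a + b + 2) * y)
        = (t (a + b) * t (a + b + 2)) * y + t (a + b + 1) * t (a + b + 2) * y - t (a + b + 2) * y := by
      unfold sg; noncomm_ring
    rw [f1, f2, k', c]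

/-- (C3) at the level of operators. -/
lemma SortRel.C3op (h : SortRel t) (a j : ℕ) (d : ℕ) :
    t (a + (j + 1)) * sr t a (j + 2 + d) = sr t a (j + 2 + d) * t (a + (j + 1) + 1) := by
  induction d with
  | zero =>
    rw [show j + 2 + 0 = (j + 1) + 1 by ring, sr.eq_def t a (j + 1 + 1)]
    simp only []
    rw [sr.eq_def t a (j + 1)]
    simp only []
    have h5 := h.I5 (a + j)
    calc t (a + (j + 1)) * (sg t (a + (j + 1)) * (sg t (a + j) * sr t a j))
        = (t (a + j + 1) * sg t (a + j + 1) * sg t (a + j)) * sr t a j := by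
          rw [show a + (j + 1) = a + j + 1 by ring]; noncomm_ring
      _ = sg t (a + j + 1) * sg t (a + j) * (t (a + j + 2) * sr t a j) := by
          rw [h5]; noncomm_ring
      _ = _ := by
          rw [h.t_sr_hi j (show a + j + 2 ≤ a + j + 2 by omega),
            show a + (j + 1) = a + j + 1 by ring]
          noncomm_ring
  | succ d ih =>
    rw [show j + 2 + (d + 1) = (j + 2 + d) + 1 by ring, sr.eq_def t a (j + 2 + d + 1)]
    simp only []
    rw [mul_assoc, ← ih]
    cases d with
    | zero =>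
      have e : sr t a (j + 2 + 0) = sg t (a + (j + 1)) * sr t a (j + 1) := by
        rw [show j + 2 + 0 = (j + 1) + 1 by ring, sr.eq_def t a (j + 1 + 1)]
      rw [e]
      have k := h.kill (a + (j + 1)) (sr t a (j + 1))
      have c := h.comm (a + (j + 1)) (a + (j + 1) + 2) (by omega)
      set y := sg t (a + (j + 1)) * sr t a (j + 1)
      rw [show a + (j + 2 + 0) = a + (j + 1) + 1 by ring]
      have f1 : t (a + (j + 1)) * (sg t (a + (j + 1) + 1) * y)
          = t (a + (j + 1)) * t (a + (j + 1) + 1) * y + (t (a + (j + 1)) * t (a + (j + 1) + 2)) * y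
            - t (a + (j + 1)) * y := by
        unfold sg; noncomm_ring
      have f2 : sg t (a + (j + 1) + 1) * (t (a + (j + 1)) * y)
          = t (a + (j + 1) + 1) * t (a + (j + 1)) * y + (t (a + (j + 1) + 2) * t (a + (j + 1))) * y
            - t (a + (j + 1)) * y := by
        unfold sg; noncomm_ring
      rw [f1, f2, k, c]
    | succ d =>
      rw [← mul_assoc, h.t_sg_lo (show a + (j + 1) + 2 ≤ a + (j + 2 + (d + 1)) by omega), mul_assoc]

/-- (C4) at the level of operators. -/
lemma SortRel.C4op_aux (h : SortRel t) (a b : ℕ) :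
    t a * sr t a (b + 1) = sr t (a + 1) b * (t a * t (a + 1)) := by
  induction b with
  | zero =>
    simp only [sr, one_mul, mul_one, add_zero, zero_add]
    exact h.I2 a
  | succ b ih =>
    rw [sr.eq_def t a (b + 1 + 1), sr.eq_def t (a + 1) (b + 1)]
    simp only []
    rw [mul_assoc, ← ih]
    cases b with
    | zero =>
      rw [sr.eq_def t a (0 + 1)]
      simp only []
      rw [show a + (0 + 1) = a + 1 by ring, show a + 1 + 0 = a + 1 by ring, show a + 0 = a by ring]
      have k := h.kill a (sr t a 0)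
      have c := h.comm a (a + 2) (by omega)
      set y := sg t a * sr t a 0
      have f1 : t a * (sg t (a + 1) * y)
          = t a * t (a + 1) * y + (t a * t (a + 2)) * y - t a * y := by
        unfold sg; noncomm_ring
      have f2 : sg t (a + 1) * (t a * y)
          = t (a + 1) * t a * y + (t (a + 2) * t a) * y - t a * y := by
        unfold sg; noncomm_ring
      rw [f1, f2, k, c]
    | succ b =>
      rw [show a + 1 + (b + 1) = a + (b + 1 + 1) by ring, ← mul_assoc,
        h.t_sg_lo (show a + 2 ≤ a + (b + 1 + 1) by omega), mul_assoc]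

lemma SortRel.td_sr (h : SortRel t) {a c : ℕ} (b : ℕ) (hc : a + 2 ≤ c) :
    td t a * sr t c b = sr t c b * td t a := by
  induction a with
  | zero => simp only [td]; exact h.t_sr_lo b hc
  | succ a ih =>
    simp only [td]
    rw [mul_assoc, h.t_sr_lo b (by omega), ← mul_assoc, ih (by omega), mul_assoc]

lemma SortRel.C4op (h : SortRel t) (a b : ℕ) :
    td t a * sr t a (b + 1) = sr t (a + 1) b * td t (a + 1) := by
  cases a with
  | zero =>
    simp only [td]
    exact h.C4op_aux 0 b
  | succ a =>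
    simp only [td]
    rw [mul_assoc (td t a), h.C4op_aux, ← mul_assoc, h.td_sr b (show a + 2 ≤ a + 1 + 1 by omega)]
    noncomm_ring

/-- (C5) at the level of operators. -/
lemma SortRel.C5op (h : SortRel t) (a b : ℕ) : t (a + b) * sr t a b = tr t a (b + 1) := by
  induction b with
  | zero => simp [sr, tr]
  | succ b ih =>
    rw [sr.eq_def t a (b + 1), tr.eq_def t a (b + 1 + 1)]
    simp only []
    rw [← ih, ← mul_assoc, ← mul_assoc, show a + (b + 1) = a + b + 1 by ring, h.I1]

end Abstract

end Pool.Agent.Work.MP_71af4b_pr
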