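import Pool.Agent.Work.MP_71af4b_pr.Words

set_option autoImplicit false

namespace Pool.Agent.Work.MP_71af4b_pr

/-! ### Identities for the signed intertwiner -/

lemma lam_T_left (P H x : List ℤ) (i : ℕ) (hi : i + 2 ≤ P.length) :
    T i (lam P H x) = lam (srt i P) H x := by
  induction x generalizing P H with
  | nil =>
    rw [lam_nil, lam_nil, T_single, srt_append_left i P _ hi]
  | cons c x ih =>
    rw [lam, lam]
    split_ifs
    · exact ih _ _ hi
    · have := LinearMap.congr_fun (T_rel.t_sr_lo (i := i) (a := P.length) H.length hi)
        (lam (P ++ [c]) H x)
      simp only [Module.End.mul_apply] at this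
      rw [this, ih _ _ (by simp; omega), srt_append_left i P _ hi, srt_length]

lemma lam_T_mid (P H x : List ℤ) (j : ℕ) (hj : j + 2 ≤ H.length) :
    T (P.length + 1 + j) (lam P H x) = lam P (srt j H) x := by
  induction x generalizing P H with
  | nil =>
    rw [lam_nil, lam_nil, T_single]
    have := srt_append_right (j + 1) P (0 :: H)
    rw [show P.length + 1 + j = P.length + (j + 1) by ring, this, srt_succ_cons]
  | cons c x ih =>
    rw [lam, lam]
    split_ifs
    · rw [ih _ _ (by simp; omega), srt_append_left j H _ hj]
    · obtain ⟨d, hd⟩ : ∃ d, H.length = j + 2 + d := ⟨H.length - (j + 2), by omega⟩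
      have := LinearMap.congr_fun (T_rel.C3op P.length j d) (lam (P ++ [c]) H x)
      simp only [Module.End.mul_apply] at this
      have ih' := ih (P ++ [c]) H hj
      simp only [List.length_append, List.length_cons, List.length_nil, zero_add] at ih'
      rw [srt_length, hd, show P.length + 1 + j = P.length + (j + 1) by ring, this, ← ih',
        show P.length + 1 + 1 + j = P.length + (j + 1) + 1 by ring]

/-- (C2) -/
lemma lam_C2 (P H u v : List ℤ) {p p' : ℤ} (hp : p < 0) (hp' : p' < 0) :
    T (P.length + H.length + u.length) (lam P H (u ++ p :: p' :: v)) =
      lam P H (u ++ max p p' :: min p p' :: v) := by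
  induction u generalizing P H with
  | nil =>
    simp only [List.nil_append, List.length_nil, add_zero]
    rw [lam_neg _ _ _ hp, lam_neg _ _ _ hp', lam_neg _ _ _ (show max p p' < 0 by omega),
      lam_neg _ _ _ (show min p p' < 0 by omega)]
    simp only [List.length_append, List.length_cons, List.length_nil, zero_add]
    have := LinearMap.congr_fun (T_rel.C2op P.length H.length) (lam (P ++ [p] ++ [p']) H v)
    simp only [Module.End.mul_apply] at this
    rw [this, lam_T_left _ _ _ _ (by simp), List.append_assoc]
    have e := srt_append_right 0 P ([p] ++ [p'])
    simp only [List.singleton_append, srt_zero_cons_cons, add_zero] at e ⊢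
    rw [e]
    simp
  | cons c u ih =>
    simp only [List.cons_append, List.length_cons]
    by_cases hc : 0 < c
    · rw [lam_pos _ _ _ hc, lam_pos _ _ _ hc, ← ih]
      simp only [List.length_append, List.length_cons, List.length_nil, zero_add]
      rw [show P.length + (H.length + 1) + u.length = P.length + H.length + (u.length + 1) by ring]
    · rw [lam, lam, if_neg hc, if_neg hc, ← ih]
      simp only [List.length_append, List.length_cons, List.length_nil, zero_add]
      cases u with
      | nil =>
        simp only [List.length_nil, List.nil_append, add_zero]
        rw [lam_neg _ _ _ hp]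
        simp only [List.length_append, List.length_cons, List.length_nil, zero_add]
        have := LinearMap.congr_fun (T_rel.C2op' P.length H.length) (lam (P ++ [c] ++ [p]) H (p' :: v))
        simp only [Module.End.mul_apply] at this
        rw [show P.length + 1 + H.length = P.length + H.length + 1 by ring,
          show P.length + H.length + (0 + 1) = P.length + H.length + 1 by ring]
        exact this
      | cons d u =>
        have := T_rel.t_sr_hi (i := P.length + 1 + H.length + (u.length + 1)) (a := P.length)
          H.length (by omega)
        have := LinearMap.congr_fun this (lam (P ++ [c]) H (d :: u ++ p :: p' :: v))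
        simp only [Module.End.mul_apply] at this
        simp only [List.length_cons]
        rw [show P.length + H.length + (u.length + 1 + 1) = P.length + 1 + H.length + (u.length + 1)
          by ring]
        exact this

/-- (C3) -/
lemma lam_C3 (P H u v : List ℤ) {h h' : ℤ} (hh : 0 < h) (hh' : 0 < h') :
    T (P.length + H.length + u.length + 1) (lam P H (u ++ h :: h' :: v)) =
      lam P H (u ++ max h h' :: min h h' :: v) := by
  induction u generalizing P H with
  | nil =>
    simp only [List.nil_append, List.length_nil, add_zero]
    rw [lam_pos _ _ _ hh, lam_pos _ _ _ hh', lam_pos _ _ _ (show 0 < max h h' by omega),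
      lam_pos _ _ _ (show 0 < min h h' by omega)]
    have := lam_T_mid P (H ++ [h] ++ [h']) v H.length (by simp)
    rw [show P.length + H.length + 1 = P.length + 1 + H.length by ring, this, List.append_assoc]
    have e := srt_append_right 0 H ([h] ++ [h'])
    simp only [List.singleton_append, srt_zero_cons_cons, add_zero] at e ⊢
    rw [e]
    simp
  | cons c u ih =>
    simp only [List.cons_append, List.length_cons]
    by_cases hc : 0 < c
    · rw [lam_pos _ _ _ hc, lam_pos _ _ _ hc, ← ih]
      simp only [List.length_append, List.length_cons, List.length_nil, zero_add]
      rw [show P.length + (H.length + 1) + u.length + 1 = P.length + H.length + (u.length + 1) + 1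
        by ring]
    · rw [lam, lam, if_neg hc, if_neg hc, ← ih]
      simp only [List.length_append, List.length_cons, List.length_nil, zero_add]
      have := T_rel.t_sr_hi (i := P.length + 1 + H.length + u.length + 1) (a := P.length)
          H.length (by omega)
      have := LinearMap.congr_fun this (lam (P ++ [c]) H (u ++ h :: h' :: v))
      simp only [Module.End.mul_apply] at this
      rw [show P.length + H.length + (u.length + 1) + 1 = P.length + 1 + H.length + u.length + 1
        by ring]
      exact this

lemma td_single (Q H : List ℤ) (h : ℤ) (a : ℕ) (hQ : Q.length = a + 1) (hlt : ∀ q ∈ Q, q < h)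
    (c : ℤ) :
    td T a (Finsupp.single (Q ++ h :: H) c) = Finsupp.single (h :: (Q ++ H)) c := by
  induction a generalizing Q H with
  | zero =>
    obtain ⟨q, rfl⟩ := List.length_eq_one_iff.mp hQ
    have := hlt q (by simp)
    simp only [td, T_single, List.singleton_append, srt_zero_cons_cons]
    rw [max_eq_right this.le, min_eq_left this.le]
  | succ a ih =>
    obtain ⟨Q', q, rfl⟩ : ∃ Q' q, Q = Q' ++ [q] := by
      rcases List.eq_nil_or_concat Q with rfl | ⟨Q', q, rfl⟩
      · simp at hQ
      · exact ⟨Q', q, by simp⟩
    have hq := hlt q (by simp)
    have hl : Q'.length = a + 1 := by simp at hQ; omega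
    simp only [td, Module.End.mul_apply, T_single]
    have e : srt (a + 1) (Q' ++ [q] ++ h :: H) = Q' ++ h :: q :: H := by
      have := srt_append_right 0 Q' (q :: h :: H)
      rw [hl] at this
      simp only [add_zero, srt_zero_cons_cons] at this
      rw [List.append_assoc, List.singleton_append, this, max_eq_right hq.le, min_eq_left hq.le]
    rw [e, ih Q' (q :: H) hl (fun x hx => hlt x (by simp [hx]))]
    simp

/-- (C4), general form. -/
lemma lam_C4 (P H x : List ℤ) {h : ℤ} (hh : 0 < h) (hP : ∀ p ∈ P, p < 0)
    (hx : ∀ c ∈ x, c ≠ 0) :
    td T P.length (lam P (h :: H) x) = consL h (lam P H x) := by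
  induction x generalizing P H with
  | nil =>
    rw [lam_nil, lam_nil, consL_single]
    have := td_single (P ++ [0]) H h P.length (by simp) (by
      intro q hq
      simp at hq
      rcases hq with hq | rfl
      · have := hP q hq; omega
      · exact hh) 1
    simpa using this
  | cons c x ih =>
    have hc0 := hx c (by simp)
    rcases lt_or_gt_of_ne hc0 with hc | hc
    · rw [lam_neg _ _ _ hc, lam_neg _ _ _ hc]
      have := LinearMap.congr_fun (T_rel.C4op P.length H.length) (lam (P ++ [c]) (h :: H) x)
      simp only [Module.End.mul_apply] at this
      rw [List.length_cons, this]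
      have ih' := ih (P ++ [c]) H (by
        intro q hq
        simp at hq
        rcases hq with hq | rfl
        · exact hP q hq
        · exact hc) (fun d hd => hx d (by simp [hd]))
      simp only [List.length_append, List.length_cons, List.length_nil, zero_add] at ih'
      rw [ih', sr_consL]
    · rw [lam_pos _ _ _ hc, lam_pos _ _ _ hc]
      exact ih P (H ++ [c]) hP (fun d hd => hx d (by simp [hd]))

lemma tr_single (P Q : List ℤ) (p : ℤ) (hQ : ∀ q ∈ Q, p ≤ q) (c : ℤ) :
    tr T P.length Q.length (Finsupp.single (P ++ p :: Q) c) = Finsupp.single (P ++ Q ++ [p]) c := by
  induction Q using List.reverseRecOn with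
  | nil => simp [tr]
  | append_singleton Q q ih =>
    have ih' := ih (fun x hx => hQ x (by simp [hx]))
    have hq := hQ q (by simp)
    rw [show (Q ++ [q]).length = Q.length + 1 by simp]
    simp only [tr, Module.End.mul_apply]
    have e : (Finsupp.single (P ++ p :: (Q ++ [q])) c : Vec)
        = appR [q] (Finsupp.single (P ++ p :: Q) c) := by rw [appR_single]; simp
    have e2 : tr T P.length Q.length (appR [q] (Finsupp.single (P ++ p :: Q) c))
        = appR [q] (tr T P.length Q.length (Finsupp.single (P ++ p :: Q) c)) := by
      have gen : ∀ b, P.length + b + 1 ≤ P.length + Q.length + 1 → ∀ v ∈ Sup (Len (P.length + Q.length + 1)),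
          tr T P.length b (appR [q] v) = appR [q] (tr T P.length b v) ∧
            tr T P.length b v ∈ Sup (Len (P.length + Q.length + 1)) := by
        intro b
        induction b with
        | zero => intro _ v hv; exact ⟨rfl, hv⟩
        | succ b ihb =>
          intro hb v hv
          obtain ⟨h1, h2⟩ := ihb (by omega) v hv
          refine ⟨?_, ?_⟩
          · show T (P.length + b) (tr T P.length b (appR [q] v)) = appR [q] (T (P.length + b) (tr T P.length b v))
            rw [h1, T_appR [q] h2 (by omega)]
          · exact T_len h2
      refine (gen Q.length (by omega) _ (single_mem ?_ c)).1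
      simp [Len]; ring
    rw [e, e2, ih', appR_single, T_single]
    congr 1
    have := srt_append_right 0 (P ++ Q) [p, q]
    simp only [List.length_append, add_zero, srt_zero_cons_cons] at this
    rw [show P ++ Q ++ [p] ++ [q] = P ++ Q ++ [p, q] by simp, this, max_eq_right hq, min_eq_left hq]
    simp

/-- (C5), general form. -/
lemma lam_C5 (P H x : List ℤ) {p : ℤ} (hp : p < 0) (hH : ∀ h ∈ H, 0 < h) (hx : ∀ c ∈ x, c ≠ 0) :
    T (P.length + H.length + x.length) (lam P H (x ++ [p])) = appR [p] (lam P H x) := by
  induction x generalizing P H with
  | nil =>
    simp only [List.nil_append, List.length_nil, add_zero]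
    rw [lam_neg _ _ _ hp, lam_nil, lam_nil, appR_single]
    have := LinearMap.congr_fun (T_rel.C5op P.length H.length) (Finsupp.single (P ++ [p] ++ 0 :: H) 1)
    simp only [Module.End.mul_apply] at this
    rw [this]
    have := tr_single P (0 :: H) p (by
      intro q hq
      simp at hq
      rcases hq with rfl | hq
      · exact hp.le
      · have := hH q hq; omega) 1
    simpa using this
  | cons c x ih =>
    simp only [List.cons_append, List.length_cons]
    have hc0 := hx c (by simp)
    rcases lt_or_gt_of_ne hc0 with hc | hc
    · rw [lam_neg _ _ _ hc, lam_neg _ _ _ hc]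
      have ih' := ih (P ++ [c]) H hH (fun d hd => hx d (by simp [hd]))
      simp only [List.length_append, List.length_cons, List.length_nil, zero_add] at ih'
      have hlen := lam_len (P ++ [c]) H x
      simp only [List.length_append, List.length_cons, List.length_nil, zero_add] at hlen
      have key : T (P.length + H.length + (x.length + 1))
          (sr T P.length H.length (lam (P ++ [c]) H (x ++ [p])))
          = sr T P.length H.length (T (P.length + H.length + (x.length + 1))
            (lam (P ++ [c]) H (x ++ [p]))) := by
        cases x with
        | nil =>
          simp only [List.length_nil, List.nil_append]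
          rw [lam_neg _ _ _ hp]
          simp only [List.length_append, List.length_cons, List.length_nil, zero_add]
          have := LinearMap.congr_fun (T_rel.C2op' P.length H.length) (lam (P ++ [c] ++ [p]) H [])
          simp only [Module.End.mul_apply] at this
          exact this
        | cons d x =>
          have := T_rel.t_sr_hi (i := P.length + H.length + (x.length + 1 + 1)) (a := P.length)
            H.length (by omega)
          have := LinearMap.congr_fun this (lam (P ++ [c]) H (d :: x ++ [p]))
          simp only [Module.End.mul_apply] at this
          exact this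
      rw [key, show P.length + H.length + (x.length + 1) = P.length + 1 + H.length + x.length by ring,
        ih', sr_appR [p] hlen (by omega)]
    · rw [lam_pos _ _ _ hc, lam_pos _ _ _ hc]
      have ih' := ih P (H ++ [c]) (by
        intro q hq
        simp at hq
        rcases hq with hq | rfl
        · exact hH q hq
        · exact hc) (fun d hd => hx d (by simp [hd]))
      simp only [List.length_append, List.length_cons, List.length_nil, zero_add] at ih'
      rw [show P.length + H.length + (x.length + 1) = P.length + (H.length + 1) + x.length by ring, ih']

/-! ### Shape of the words occurring in `lam` -/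

lemma lam_cons (p : ℤ) (P H x : List ℤ) : lam (p :: P) H x = consL p (lam P H x) := by
  induction x generalizing P H with
  | nil => rw [lam_nil, lam_nil, consL_single]; rfl
  | cons c x ih =>
    rw [lam, lam]
    split_ifs
    · exact ih _ _
    · rw [show (p :: P) ++ [c] = p :: (P ++ [c]) from rfl, ih, List.length_cons, sr_consL]

/-- words whose first letter is `≤ 0` -/
def HeadNP : Set (List ℤ) := {w | ∃ a l, w = a :: l ∧ a ≤ 0}

lemma lam_head (H x : List ℤ) (hx : ∀ c ∈ x, c ≠ 0) : lam [] H x ∈ Sup HeadNP := by
  induction x generalizing H with
  | nil => exact single_mem (A := HeadNP) ⟨0, H, rfl, le_rfl⟩ 1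
  | cons c x ih =>
    have hc0 := hx c (by simp)
    have ih' := ih H (fun d hd => hx d (by simp [hd]))
    rcases lt_or_gt_of_ne hc0 with hc | hc
    · rw [lam_neg _ _ _ hc, List.nil_append, lam_cons, List.length_nil]
      set v := consL c (lam [] H x) with hv
      have hv2 : v ∈ Sup {w | ∃ a b l, w = a :: b :: l ∧ a ≤ 0 ∧ b ≤ 0} :=
        consL_mem (A := HeadNP) (by
          rintro w ⟨b, l, rfl, hb⟩
          exact ⟨c, b, l, rfl, hc.le, hb⟩) ih'
      have step : ∀ b, sr T 0 b v ∈ Sup HeadNP := by
        intro b
        induction b with
        | zero =>
          exact Finsupp.supported_mono (by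
            rintro w ⟨a, b, l, rfl, ha, hb⟩
            exact ⟨a, b :: l, rfl, ha⟩) hv2
        | succ b ihb =>
          cases b with
          | zero =>
            show sg T (0 + 0) v ∈ _
            refine sg_mem ?_ ?_ ?_ hv2
            · rintro w ⟨a, b, l, rfl, ha, hb⟩
              exact ⟨max a b, min a b :: l, rfl, max_le ha hb⟩
            · rintro w ⟨a, b, l, rfl, ha, hb⟩
              exact ⟨a, srt 0 (b :: l), rfl, ha⟩
            · rintro w ⟨a, b, l, rfl, ha, hb⟩
              exact ⟨a, b :: l, rfl, ha⟩
          | succ b =>
            rw [sr_succ_apply, show 0 + (b + 1) = b + 1 by ring]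
            refine sg_mem ?_ ?_ le_rfl ihb
            · rintro w ⟨a, l, rfl, ha⟩
              exact ⟨a, srt b l, rfl, ha⟩
            · rintro w ⟨a, l, rfl, ha⟩
              exact ⟨a, srt (b + 1) l, rfl, ha⟩
      exact step H.length
    · rw [lam_pos _ _ _ hc]
      exact ih _ (fun d hd => hx d (by simp [hd]))

/-- words whose letters at positions `≥ k` are all `≥ 0` -/
def TailNN (k : ℕ) : Set (List ℤ) := {w | ∀ y ∈ w.drop k, 0 ≤ y}

lemma srt_drop_ge (i k : ℕ) (w : List ℤ) (h : i + 2 ≤ k) : (srt i w).drop k = w.drop k := by
  induction i generalizing w k with
  | zero =>
    obtain ⟨m, rfl⟩ : ∃ m, k = m + 2 := ⟨k - 2, by omega⟩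
    match w with
    | [] => rfl
    | [a] => rfl
    | a :: b :: l => rfl
  | succ i ih =>
    obtain ⟨m, rfl⟩ : ∃ m, k = m + 1 := ⟨k - 1, by omega⟩
    match w with
    | [] => rfl
    | a :: l => simpa using ih m l (by omega)

lemma srt_mem_iff (i : ℕ) (w : List ℤ) (y : ℤ) : y ∈ srt i w ↔ y ∈ w := by
  induction i generalizing w with
  | zero =>
    match w with
    | [] => rfl
    | [a] => rfl
    | a :: b :: l =>
      rcases le_total a b with h | h
      · simp [h]; tauto
      · simp [h]
  | succ i ih =>
    match w with
    | [] => rfl
    | a :: l => simp [ih l]

lemma srt_drop_le (i k : ℕ) (w : List ℤ) : (srt (k + i) w).drop k = srt i (w.drop k) := by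
  induction k generalizing w with
  | zero => simp
  | succ k ih =>
    match w with
    | [] => simp
    | a :: l =>
      rw [show k + 1 + i = (k + i) + 1 by ring]
      simpa using ih l

lemma lam_tail (P H x : List ℤ) (hH : ∀ h ∈ H, 0 < h) (hx : ∀ c ∈ x, c ≠ 0) :
    lam P H x ∈ Sup (TailNN (P.length + H.length + x.length)) := by
  induction x generalizing P H with
  | nil =>
    refine single_mem ?_ 1
    intro y hy
    simp only [List.length_nil, add_zero] at hy
    rw [show P.length + H.length = P.length + H.length from rfl, ← List.drop_drop,
      List.drop_left] at hy
    have := List.mem_of_mem_drop hy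
    simp at this
    rcases this with rfl | h
    · exact le_rfl
    · exact (hH y h).le
  | cons c x ih =>
    have hc0 := hx c (by simp)
    rcases lt_or_gt_of_ne hc0 with hc | hc
    · rw [lam_neg _ _ _ hc]
      cases x with
      | nil =>
        rw [lam_nil]
        simp only [List.length_cons, List.length_nil, zero_add]
        have step : ∀ b, sr T P.length b (Finsupp.single (P ++ [c] ++ 0 :: H) 1 : Vec)
            ∈ Sup (TailNN (P.length + b + 1)) := by
          intro b
          induction b with
          | zero =>
            refine single_mem ?_ 1
            intro y hy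
            rw [show P.length + 0 + 1 = (P ++ [c]).length by simp, List.drop_left] at hy
            simp at hy
            rcases hy with rfl | h
            · exact le_rfl
            · exact (hH y h).le
          | succ b ihb =>
            rw [sr_succ_apply]
            refine sg_mem ?_ ?_ ?_ ihb
            · intro w hw y hy
              rw [srt_drop_ge _ _ _ (by omega)] at hy
              refine hw y ?_
              rw [show P.length + (b + 1) + 1 = P.length + b + 1 + 1 by ring, ← List.drop_drop] at hy
              exact List.mem_of_mem_drop hy
            · intro w hw y hy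
              have hy' : y ∈ (srt (P.length + b + 1) w).drop (P.length + b + 1) := by
                rw [show P.length + (b + 1) + 1 = P.length + b + 1 + 1 by ring, ← List.drop_drop] at hy
                exact List.mem_of_mem_drop hy
              have e := srt_drop_le 0 (P.length + b + 1) w
              rw [add_zero] at e
              rw [e, srt_mem_iff] at hy'
              exact hw y hy'
            · intro w hw y hy
              refine hw y ?_
              rw [show P.length + (b + 1) + 1 = P.length + b + 1 + 1 by ring, ← List.drop_drop] at hy
              exact List.mem_of_mem_drop hy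
        exact step H.length
      | cons d x =>
        have ih' := ih (P ++ [c]) H hH (fun e he => hx e (by simp at he ⊢; tauto))
        simp only [List.length_append, List.length_cons, List.length_nil, zero_add] at ih' ⊢
        rw [show P.length + 1 + H.length + (x.length + 1) = P.length + H.length + (x.length + 1 + 1)
          by ring] at ih'
        set k := P.length + H.length + (x.length + 1 + 1) with hk
        have step : ∀ b, b ≤ H.length → sr T P.length b (lam (P ++ [c]) H (d :: x)) ∈ Sup (TailNN k) := by
          intro b
          induction b with
          | zero => intro _; exact ih'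
          | succ b ihb =>
            intro hb
            rw [sr_succ_apply]
            refine sg_mem ?_ ?_ le_rfl (ihb (by omega))
            · intro w hw y hy
              rw [srt_drop_ge _ _ _ (by omega)] at hy
              exact hw y hy
            · intro w hw y hy
              rw [srt_drop_ge _ _ _ (by omega)] at hy
              exact hw y hy
        exact step H.length le_rfl
    · rw [lam_pos _ _ _ hc]
      have ih' := ih P (H ++ [c]) (by
        intro q hq
        simp at hq
        rcases hq with hq | rfl
        · exact hH q hq
        · exact hc) (fun d hd => hx d (by simp [hd]))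
      simp only [List.length_append, List.length_cons, List.length_nil, zero_add] at ih' ⊢
      rw [show P.length + (H.length + 1) + x.length = P.length + H.length + (x.length + 1) by ring] at ih'
      exact ih'

/-- total mass of a vector -/
noncomputable def mass : Vec →ₗ[ℤ] ℤ := Finsupp.linearCombination ℤ (fun _ => (1 : ℤ))

lemma mass_single (w : List ℤ) (c : ℤ) : mass (Finsupp.single w c) = c := by simp [mass]

lemma mass_T (i : ℕ) (v : Vec) : mass (T i v) = mass v := by
  have : mass.comp (T i) = mass := by
    refine Finsupp.lhom_ext fun w c => ?_
    rw [LinearMap.comp_apply, T_single, mass_single, mass_single]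
  exact LinearMap.congr_fun this v

lemma mass_sr (a b : ℕ) (v : Vec) : mass (sr T a b v) = mass v := by
  induction b with
  | zero => rfl
  | succ b ih => rw [sr_succ_apply, sg_apply, map_sub, map_add, mass_T, mass_T, ih]; ring

lemma mass_lam (P H x : List ℤ) : mass (lam P H x) = 1 := by
  induction x generalizing P H with
  | nil => rw [lam_nil, mass_single]
  | cons c x ih =>
    rw [lam]
    split_ifs
    · exact ih _ _
    · rw [mass_sr, ih]

end Pool.Agent.Work.MP_71af4b_pr
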