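import Pool.Agent.Work.MP_71af4b_pr.OneStep

set_option autoImplicit false

open MeasureTheory ProbabilityTheory Measure
open scoped ENNReal

namespace Pool.Agent.Work.MP_71af4b_pr

lemma nxn_nx {E : ℕ} [NeZero E] (g : Fin E → ℕ → ℝ) (n : ℕ) : nxn (nx g) n = nxn g (n + 1) :=
  (Function.iterate_succ_apply nx n g).symm

lemma es_succ {E : ℕ} [NeZero E] (g : Fin E → ℕ → ℝ) (n : ℕ) : es g (n + 1) = es (nx g) n := by
  rw [es, es, nxn_nx]

lemma ms_succ {E : ℕ} [NeZero E] (g : Fin E → ℕ → ℝ) (n : ℕ) : ms g (n + 1) = ms (nx g) n := by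
  rw [ms, ms, nxn_nx]

lemma es_zero {E : ℕ} [NeZero E] (g : Fin E → ℕ → ℝ) : es g 0 = am g := rfl
lemma ms_zero {E : ℕ} [NeZero E] (g : Fin E → ℕ → ℝ) : ms g 0 = mn g := rfl

lemma measurableSet_esms {E : ℕ} [NeZero E] (n : ℕ) (ε : Fin n → Fin E) {U : Fin n → Set ℝ}
    (hU : ∀ i, MeasurableSet (U i)) :
    MeasurableSet {g : Fin E → ℕ → ℝ | ∀ i : Fin n, es g i = ε i ∧ ms g i ∈ U i} := by
  have : {g : Fin E → ℕ → ℝ | ∀ i : Fin n, es g i = ε i ∧ ms g i ∈ U i} =
      ⋂ i : Fin n, {g : Fin E → ℕ → ℝ | es g i = ε i ∧ ms g i ∈ U i} := by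
    ext g; simp
  rw [this]
  exact MeasurableSet.iInter fun i =>
    ((measurable_es i) (measurableSet_singleton (ε i))).inter ((measurable_ms i) (hU i))

lemma n_step {E' : ℕ} (hgood : ∀ᵐ g ∂(muE (E' + 1)), ∃ j, g ∈ SA j) (n : ℕ)
    (ε : Fin n → Fin (E' + 1)) (U : Fin n → Set ℝ) (hU : ∀ i, MeasurableSet (U i)) :
    muE (E' + 1) {g | ∀ i : Fin n, es g i = ε i ∧ ms g i ∈ U i} = ∏ i, q0 E' (U i) := by
  induction n with
  | zero => simp
  | succ n ih =>
    have e : {g : Fin (E' + 1) → ℕ → ℝ | ∀ i : Fin (n + 1), es g i = ε i ∧ ms g i ∈ U i} =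
        {g | am g = ε 0 ∧ mn g ∈ U 0 ∧
          nx g ∈ {g | ∀ i : Fin n, es g i = ε i.succ ∧ ms g i ∈ U i.succ}} := by
      ext g
      simp only [Set.mem_ofPred_eq]
      rw [Fin.forall_fin_succ]
      simp only [Fin.val_zero, Fin.val_succ, es_succ, ms_succ, es_zero, ms_zero, and_assoc]
    rw [e, one_step hgood _ (hU 0) (measurableSet_esms n _ (fun i => hU i.succ)),
      ih _ _ (fun i => hU i.succ), Fin.prod_univ_succ]

lemma n_step_measure {E' : ℕ} (hgood : ∀ᵐ g ∂(muE (E' + 1)), ∃ j, g ∈ SA j) (n : ℕ)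
    (ε : Fin n → Fin (E' + 1)) :
    ((muE (E' + 1)).restrict {g | ∀ i : Fin n, es g i = ε i}).map
      (fun g => fun i : Fin n => ms g i) = Measure.pi (fun _ : Fin n => q0 E') := by
  have := q0_finite (E' := E')
  have hm : Measurable (fun g : Fin (E' + 1) → ℕ → ℝ => fun i : Fin n => ms g i) := by
    rw [measurable_pi_iff]
    exact fun i => measurable_ms i
  refine (Measure.pi_eq fun U hU => ?_).symm
  rw [map_apply hm (MeasurableSet.univ_pi hU), restrict_apply (hm (MeasurableSet.univ_pi hU)),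
    ← n_step hgood n ε U hU]
  congr 1
  ext g
  simp only [Set.mem_inter_iff, Set.mem_preimage, Set.mem_pi, Set.mem_univ, true_imp_iff,
    Set.mem_ofPred_eq]
  constructor
  · rintro ⟨h1, h2⟩ i; exact ⟨h2 i, h1 i⟩
  · intro h; exact ⟨fun i => (h i).2, fun i => (h i).1⟩

/-- partial sums of the first `n` waiting times -/
noncomputable def psum {n : ℕ} (m : Fin n → ℝ) (k : ℕ) : ℝ :=
  ∑ r ∈ Finset.range k, if h : r < n then m ⟨r, h⟩ else 0

lemma psum_ms {E : ℕ} [NeZero E] (g : Fin E → ℕ → ℝ) {n k : ℕ} (hk : k ≤ n) :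
    psum (fun i : Fin n => ms g i) k = Sn g k := by
  rw [psum, Sn]
  refine Finset.sum_congr rfl fun r hr => ?_
  have : r < n := lt_of_lt_of_le (Finset.mem_range.mp hr) hk
  rw [dif_pos this]

lemma measurable_psum (n k : ℕ) : Measurable (fun m : Fin n → ℝ => psum m k) := by
  unfold psum
  refine Finset.measurable_sum _ fun r _ => ?_
  by_cases h : r < n
  · simp only [h, dif_pos]; exact measurable_pi_apply _
  · simp only [h, dif_neg, not_false_eq_true]; exact measurable_const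

lemma law_pattern {E' G : ℕ} (hgood : ∀ᵐ g ∂(muE (E' + 1)), ∃ j, g ∈ SA j)
    (k : Fin G → ℕ) (n : ℕ) (hn : ∀ i, k i ≤ n) (S : Finset (Fin n → Fin (E' + 1)))
    {W : Set (Fin G → ℝ)} (hW : MeasurableSet W) :
    muE (E' + 1) {g | (fun i => Sn g (k i)) ∈ W ∧ (fun i : Fin n => es g i) ∈ S} =
      S.card * Measure.pi (fun _ : Fin n => q0 E') {m | (fun i => psum m (k i)) ∈ W} := by
  have hm : Measurable (fun g : Fin (E' + 1) → ℕ → ℝ => fun i : Fin n => ms g i) := by
    rw [measurable_pi_iff]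
    exact fun i => measurable_ms i
  have hW' : MeasurableSet {m : Fin n → ℝ | (fun i => psum m (k i)) ∈ W} := by
    have : Measurable (fun m : Fin n → ℝ => fun i => psum m (k i)) := by
      rw [measurable_pi_iff]
      exact fun i => measurable_psum n (k i)
    exact this hW
  have hSn : ∀ g : Fin (E' + 1) → ℕ → ℝ,
      (fun i => psum (fun i : Fin n => ms g i) (k i)) = fun i => Sn g (k i) := by
    intro g; funext i; exact psum_ms g (hn i)
  have e : {g : Fin (E' + 1) → ℕ → ℝ |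
      (fun i => Sn g (k i)) ∈ W ∧ (fun i : Fin n => es g i) ∈ S} =
      ⋃ ε ∈ S, ((fun g => fun i : Fin n => ms g i) ⁻¹' {m | (fun i => psum m (k i)) ∈ W} ∩
        {g | ∀ i : Fin n, es g i = ε i}) := by
    ext g
    simp only [Set.mem_ofPred_eq, Set.mem_iUnion, Set.mem_inter_iff, Set.mem_preimage, hSn,
      exists_prop]
    constructor
    · rintro ⟨h1, h2⟩; exact ⟨_, h2, h1, fun i => rfl⟩
    · rintro ⟨ε, h1, h2, h3⟩
      refine ⟨h2, ?_⟩
      have : (fun i : Fin n => es g i) = ε := funext h3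
      rw [this]; exact h1
  have hes : ∀ ε : Fin n → Fin (E' + 1),
      MeasurableSet {g : Fin (E' + 1) → ℕ → ℝ | ∀ i : Fin n, es g i = ε i} := by
    intro ε
    have := measurableSet_esms n ε (U := fun _ => Set.univ) (fun _ => MeasurableSet.univ)
    simpa using this
  rw [e, measure_biUnion_finset]
  · have : ∀ ε ∈ S, muE (E' + 1) ((fun g => fun i : Fin n => ms g i) ⁻¹'
        {m | (fun i => psum m (k i)) ∈ W} ∩ {g | ∀ i : Fin n, es g i = ε i}) =
        Measure.pi (fun _ : Fin n => q0 E') {m | (fun i => psum m (k i)) ∈ W} := by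
      intro ε _
      rw [← restrict_apply (hm hW'), ← map_apply hm hW', n_step_measure hgood]
    rw [Finset.sum_congr rfl this, Finset.sum_const, nsmul_eq_mul]
  · intro ε _ ε' _ hne
    rw [Function.onFun, Set.disjoint_left]
    rintro g ⟨-, h1⟩ ⟨-, h2⟩
    apply hne
    funext i
    rw [← h1 i, ← h2 i]
  · intro ε _
    exact (hm hW').inter (hes ε)

lemma law_sum {E' G : ℕ} (hgood : ∀ᵐ g ∂(muE (E' + 1)), ∃ j, g ∈ SA j)
    (F : (Fin (E' + 1) → ℕ → ℝ) → Fin G → ℕ) (n : (Fin G → ℕ) → ℕ) (hn : ∀ k i, k i ≤ n k)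
    (S : ∀ k : Fin G → ℕ, Finset (Fin (n k) → Fin (E' + 1)))
    (h : ∀ᵐ g ∂(muE (E' + 1)), ∀ k, F g = k ↔ (fun i : Fin (n k) => es g i) ∈ S k)
    {W : Set (Fin G → ℝ)} (hW : MeasurableSet W) :
    muE (E' + 1) {g | (fun i => Sn g (F g i)) ∈ W} =
      ∑' k : Fin G → ℕ, (S k).card *
        Measure.pi (fun _ : Fin (n k) => q0 E') {m | (fun i => psum m (k i)) ∈ W} := by
  have e1 : muE (E' + 1) {g | (fun i => Sn g (F g i)) ∈ W} =
      muE (E' + 1) (⋃ k, {g | (fun i => Sn g (k i)) ∈ W ∧ (fun i : Fin (n k) => es g i) ∈ S k}) := by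
    refine measure_congr ?_
    filter_upwards [h] with g hg
    refine propext ?_
    show (fun i => Sn g (F g i)) ∈ W ↔
      g ∈ ⋃ k, {g | (fun i => Sn g (k i)) ∈ W ∧ (fun i : Fin (n k) => es g i) ∈ S k}
    simp only [Set.mem_iUnion, Set.mem_ofPred_eq]
    constructor
    · intro h1; exact ⟨F g, h1, (hg (F g)).mp rfl⟩
    · rintro ⟨k, h1, h2⟩
      have := (hg k).mpr h2
      rw [this]; exact h1
  have hmeas : ∀ k : Fin G → ℕ, MeasurableSet {g : Fin (E' + 1) → ℕ → ℝ |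
      (fun i => Sn g (k i)) ∈ W ∧ (fun i : Fin (n k) => es g i) ∈ S k} := by
    intro k
    have h1 : Measurable (fun g : Fin (E' + 1) → ℕ → ℝ => fun i => Sn g (k i)) := by
      rw [measurable_pi_iff]
      intro i
      exact Finset.measurable_sum _ fun r _ => measurable_ms r
    have h2 : Measurable (fun g : Fin (E' + 1) → ℕ → ℝ => fun i : Fin (n k) => es g i) := by
      rw [measurable_pi_iff]
      exact fun i => measurable_es i
    exact (h1 hW).inter (h2 (S k).measurableSet)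
  rw [e1, measure_iUnion₀]
  · exact tsum_congr fun k => law_pattern hgood k (n k) (hn k) (S k) hW
  · intro k k' hkk'
    refine measure_mono_null ?_ (ae_iff.mp h)
    rintro g ⟨⟨-, h1⟩, ⟨-, h2⟩⟩ hg
    exact hkk' (((hg k).mpr h1).symm.trans ((hg k').mpr h2))
  · intro k
    exact (hmeas k).nullMeasurableSet

end Pool.Agent.Work.MP_71af4b_pr
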