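import Pool.Agent.Work.MP_71af4b_pr.Path

set_option autoImplicit false

open Filter Topology

namespace Pool.Agent.Work.MP_71af4b_pr

/-- The growth rule. The most recent edge is the head of the list. -/
def gr (A : ℤ) : List ℤ → ℕ → ℕ → Prop
  | [], b, c => b = 0 ∨ c = 0
  | e :: es, b, c => gr A es b c ∨
      (A + b - c = e ∧ 1 ≤ b ∧ 1 ≤ c ∧ gr A es (b - 1) c ∧ gr A es b (c - 1))

lemma gr_b0 (A : ℤ) (es : List ℤ) (c : ℕ) : gr A es 0 c := by
  induction es with
  | nil => exact Or.inl rfl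
  | cons e es ih => exact Or.inl ih

lemma gr_c0 (A : ℤ) (es : List ℤ) (b : ℕ) : gr A es b 0 := by
  induction es with
  | nil => exact Or.inr rfl
  | cons e es ih => exact Or.inl ih

/-- history of the first `n` edges, most recent first -/
def hist {α : Type*} (ε : ℕ → α) : ℕ → List α
  | 0 => []
  | n + 1 => ε n :: hist ε n

lemma gr_mono (A : ℤ) (ε : ℕ → ℤ) (b c : ℕ) {m n : ℕ} (hmn : m ≤ n) (h : gr A (hist ε m) b c) :
    gr A (hist ε n) b c := by
  induction n with
  | zero => obtain rfl : m = 0 := by omega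
            exact h
  | succ n ih =>
    rcases Nat.lt_or_ge n m with hlt | hge
    · obtain rfl : m = n + 1 := by omega
      exact h
    · exact Or.inl (ih hge)

/-! ### Merging finitely many clocks -/

section Fin

variable {E : ℕ} [NeZero E]

/-- partial sums -/
noncomputable def rt (g : Fin E → ℕ → ℝ) (j : Fin E) (k : ℕ) : ℝ := ∑ i ∈ Finset.range (k + 1), g j i

open Classical in
/-- the first edge to ring -/
noncomputable def am (g : Fin E → ℕ → ℝ) : Fin E :=
  if h : ∃ j : Fin E, ∀ j', j' ≠ j → g j 0 < g j' 0 then h.choose else 0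

/-- the time of the first ring -/
noncomputable def mn (g : Fin E → ℕ → ℝ) : ℝ := g (am g) 0

open Classical in
/-- the waiting times after the first ring -/
noncomputable def nx (g : Fin E → ℕ → ℝ) : Fin E → ℕ → ℝ := fun j k =>
  if j = am g then g j (k + 1) else if k = 0 then g j 0 - mn g else g j k

structure GoodFin (g : Fin E → ℕ → ℝ) : Prop where
  pos : ∀ j k, 0 < g j k
  unb : ∀ j (M : ℝ), ∃ k, M < rt g j k
  ne : ∀ j j' k l, j ≠ j' → rt g j k ≠ rt g j' l

lemma GoodFin.am_spec {g : Fin E → ℕ → ℝ} (h : GoodFin g) : ∀ j', j' ≠ am g → mn g < g j' 0 := by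
  have hex : ∃ j : Fin E, ∀ j', j' ≠ j → g j 0 < g j' 0 := by
    obtain ⟨j, -, hj⟩ := Finset.exists_min_image Finset.univ (fun j : Fin E => g j 0)
      ⟨0, Finset.mem_univ _⟩
    refine ⟨j, fun j' hj' => lt_of_le_of_ne (hj j' (Finset.mem_univ _)) ?_⟩
    have := h.ne j j' 0 0 (Ne.symm hj')
    simpa [rt] using this
  intro j' hj'
  have : am g = hex.choose := by rw [am, dif_pos hex]
  rw [mn]
  have h2 := hex.choose_spec j'
  rw [this] at hj' ⊢
  exact h2 hj'

lemma rt_nx_self (g : Fin E → ℕ → ℝ) (k : ℕ) : rt g (am g) (k + 1) = mn g + rt (nx g) (am g) k := by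
  rw [rt, Finset.sum_range_succ', rt, mn, add_comm]
  congr 1
  refine Finset.sum_congr rfl fun i _ => ?_
  simp [nx]

lemma rt_nx_ne (g : Fin E → ℕ → ℝ) {j : Fin E} (hj : j ≠ am g) (k : ℕ) :
    rt g j k = mn g + rt (nx g) j k := by
  rw [rt, Finset.sum_range_succ', rt, Finset.sum_range_succ']
  have h1 : ∀ i, nx g j (i + 1) = g j (i + 1) := by intro i; simp [nx, hj]
  have h2 : nx g j 0 = g j 0 - mn g := by simp [nx, hj]
  simp only [h1, h2]
  ring

lemma GoodFin.nx {g : Fin E → ℕ → ℝ} (h : GoodFin g) : GoodFin (nx g) where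
  pos := by
    intro j k
    by_cases hj : j = am g
    · simp only [MP_71af4b_pr.nx, hj, if_true]; exact h.pos _ _
    · by_cases hk : k = 0
      · simp only [MP_71af4b_pr.nx, hj, if_false, hk, if_true]
        linarith [h.am_spec j hj]
      · simp only [MP_71af4b_pr.nx, hj, if_false, hk]; exact h.pos _ _
  unb := by
    intro j M
    by_cases hj : j = am g
    · obtain ⟨k, hk⟩ := h.unb j (M + mn g + rt g j 0)
      cases k with
      | zero =>
        refine ⟨0, ?_⟩
        have := rt_nx_self g 0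
        rw [← hj] at this
        have h2 : rt g j 1 = rt g j 0 + g j 1 := by rw [rt, Finset.sum_range_succ, rt]
        have := h.pos j 0
        have := h.pos j 1
        have h3 : rt g j 0 = g j 0 := by simp [rt]
        linarith
      | succ k =>
        refine ⟨k, ?_⟩
        have := rt_nx_self g k
        rw [← hj] at this
        have h3 : rt g j 0 = g j 0 := by simp [rt]
        have := h.pos j 0
        linarith
    · obtain ⟨k, hk⟩ := h.unb j (M + mn g)
      refine ⟨k, ?_⟩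
      have := rt_nx_ne g hj k
      linarith
  ne := by
    intro j j' k l hjj'
    have key : ∀ (i : Fin E) (n : ℕ), ∃ n', rt g i n' = mn g + rt (MP_71af4b_pr.nx g) i n := by
      intro i n
      by_cases hi : i = am g
      · exact ⟨n + 1, by rw [hi]; exact rt_nx_self g n⟩
      · exact ⟨n, rt_nx_ne g hi n⟩
    obtain ⟨k', hk'⟩ := key j k
    obtain ⟨l', hl'⟩ := key j' l
    have := h.ne j j' k' l' hjj'
    intro hcon
    apply this
    rw [hk', hl', hcon]

/-- iterate -/
noncomputable def nxn (g : Fin E → ℕ → ℝ) (n : ℕ) : Fin E → ℕ → ℝ := nx^[n] g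

/-- the edge of the `(n+1)`-st ring -/
noncomputable def es (g : Fin E → ℕ → ℝ) (n : ℕ) : Fin E := am (nxn g n)

/-- the waiting time before the `(n+1)`-st ring -/
noncomputable def ms (g : Fin E → ℕ → ℝ) (n : ℕ) : ℝ := mn (nxn g n)

/-- the time of the `n`-th ring -/
noncomputable def Sn (g : Fin E → ℕ → ℝ) (n : ℕ) : ℝ := ∑ i ∈ Finset.range n, ms g i

lemma nxn_succ (g : Fin E → ℕ → ℝ) (n : ℕ) : nxn g (n + 1) = nx (nxn g n) :=
  Function.iterate_succ_apply' _ _ _

lemma GoodFin.nxn {g : Fin E → ℕ → ℝ} (h : GoodFin g) (n : ℕ) : GoodFin (nxn g n) := by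
  induction n with
  | zero => exact h
  | succ n ih => rw [nxn_succ]; exact ih.nx

lemma Sn_succ (g : Fin E → ℕ → ℝ) (n : ℕ) : Sn g (n + 1) = Sn g n + ms g n := by
  rw [Sn, Finset.sum_range_succ, Sn]

lemma GoodFin.ms_pos {g : Fin E → ℕ → ℝ} (h : GoodFin g) (n : ℕ) : 0 < ms g n :=
  (h.nxn n).pos _ _

lemma GoodFin.Sn_strictMono {g : Fin E → ℕ → ℝ} (h : GoodFin g) : StrictMono (Sn g) :=
  strictMono_nat_of_lt_succ fun n => by rw [Sn_succ]; linarith [h.ms_pos n]

omit [NeZero E] in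
lemma rt_pos {g : Fin E → ℕ → ℝ} (h : GoodFin g) (j : Fin E) (k : ℕ) : 0 < rt g j k :=
  Finset.sum_pos (fun i _ => h.pos j i) (by simp)

lemma ringset (g : Fin E → ℕ → ℝ) (j : Fin E) (t : ℝ) :
    (∃ k, rt g j k = t) ↔ (j = am g ∧ t = mn g) ∨ (∃ k, mn g + rt (nx g) j k = t) := by
  constructor
  · rintro ⟨k, rfl⟩
    by_cases hj : j = am g
    · cases k with
      | zero => left; exact ⟨hj, by rw [hj]; simp [rt, mn]⟩
      | succ k => right; exact ⟨k, by rw [hj]; exact (rt_nx_self g k).symm⟩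
    · right; exact ⟨k, (rt_nx_ne g hj k).symm⟩
  · rintro (⟨rfl, rfl⟩ | ⟨k, rfl⟩)
    · exact ⟨0, by simp [rt, mn]⟩
    · by_cases hj : j = am g
      · exact ⟨k + 1, by rw [hj]; exact rt_nx_self g k⟩
      · exact ⟨k, rt_nx_ne g hj k⟩

lemma ringset_n (g : Fin E → ℕ → ℝ) (j : Fin E) (n : ℕ) (t : ℝ) :
    (∃ k, rt g j k = t) ↔ (∃ i < n, j = es g i ∧ t = Sn g (i + 1)) ∨
      (∃ k, Sn g n + rt (nxn g n) j k = t) := by
  induction n with
  | zero => simp [Sn, nxn]
  | succ n ih =>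
    rw [ih]
    have h2 : (∃ k, Sn g n + rt (nxn g n) j k = t) ↔ (j = es g n ∧ t = Sn g (n + 1)) ∨
        (∃ k, Sn g (n + 1) + rt (nxn g (n + 1)) j k = t) := by
      have h3 := ringset (nxn g n) j (t - Sn g n)
      have e1 : (∃ k, Sn g n + rt (nxn g n) j k = t) ↔ (∃ k, rt (nxn g n) j k = t - Sn g n) := by
        constructor
        · rintro ⟨k, hk⟩; exact ⟨k, by linarith⟩
        · rintro ⟨k, hk⟩; exact ⟨k, by linarith⟩
      have e2 : (∃ k, mn (nxn g n) + rt (nx (nxn g n)) j k = t - Sn g n) ↔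
          (∃ k, Sn g (n + 1) + rt (nxn g (n + 1)) j k = t) := by
        rw [nxn_succ, Sn_succ, ms]
        constructor
        · rintro ⟨k, hk⟩; exact ⟨k, by linarith⟩
        · rintro ⟨k, hk⟩; exact ⟨k, by linarith⟩
      have e3 : (t - Sn g n = mn (nxn g n)) ↔ t = Sn g (n + 1) := by
        rw [Sn_succ, ms]
        constructor
        · intro h; linarith
        · intro h; linarith
      rw [e1, h3, e2, e3]
      rfl
    rw [h2]
    constructor
    · rintro (⟨i, hi, h⟩ | h | h)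
      · left; exact ⟨i, by omega, h⟩
      · left; exact ⟨n, by omega, h⟩
      · right; exact h
    · rintro (⟨i, hi, h⟩ | h)
      · rcases Nat.lt_succ_iff_lt_or_eq.mp hi with hlt | rfl
        · left; exact ⟨i, hlt, h⟩
        · right; left; exact h
      · right; right; exact h

/-- The only ring in `(S_n, S_{n+1}]` is the one of the edge `es n` at time `S_{n+1}`. -/
lemma ring_between {g : Fin E → ℕ → ℝ} (h : GoodFin g) {j : Fin E} {k n : ℕ}
    (h1 : Sn g n < rt g j k) (h2 : rt g j k ≤ Sn g (n + 1)) : j = es g n ∧ rt g j k = Sn g (n + 1) := by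
  rcases (ringset_n g j (n + 1) (rt g j k)).mp ⟨k, rfl⟩ with ⟨i, hi, hj, ht⟩ | ⟨l, hl⟩
  · rw [ht] at h1 h2
    have := h.Sn_strictMono.lt_iff_lt.mp h1
    obtain rfl : i = n := by omega
    exact ⟨hj, ht⟩
  · have := rt_pos (h.nxn (n + 1)) j l
    linarith

lemma ring_at (g : Fin E → ℕ → ℝ) (n : ℕ) : ∃ k, rt g (es g n) k = Sn g (n + 1) :=
  (ringset_n g (es g n) (n + 1) _).mpr (Or.inl ⟨n, by omega, rfl, rfl⟩)

omit [NeZero E] in
lemma rt_strictMono {g : Fin E → ℕ → ℝ} (h : GoodFin g) (j : Fin E) : StrictMono (rt g j) :=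
  strictMono_nat_of_lt_succ fun k => by
    have : rt g j (k + 1) = rt g j k + g j (k + 1) := by rw [rt, Finset.sum_range_succ, rt]
    rw [this]; linarith [h.pos j (k + 1)]

lemma Sn_unbounded {g : Fin E → ℕ → ℝ} (h : GoodFin g) (M : ℝ) : ∃ n, M < Sn g n := by
  by_contra hcon
  push Not at hcon
  choose k hk using ring_at g
  have hinj : Function.Injective (fun n => (es g n, k n)) := by
    intro a b hab
    simp only [Prod.mk.injEq] at hab
    have : Sn g (a + 1) = Sn g (b + 1) := by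
      rw [← hk a, ← hk b, hab.1, hab.2]
    have := h.Sn_strictMono.injective this
    omega
  have hfin : {p : Fin E × ℕ | rt g p.1 p.2 ≤ M}.Finite := by
    have : {p : Fin E × ℕ | rt g p.1 p.2 ≤ M} ⊆ ⋃ j : Fin E, (fun l => (j, l)) '' {l | rt g j l ≤ M} := by
      rintro ⟨j, l⟩ hp
      simp only [Set.mem_iUnion]
      exact ⟨j, l, hp, rfl⟩
    refine Set.Finite.subset ?_ this
    refine Set.finite_iUnion fun j => Set.Finite.image _ ?_
    obtain ⟨k0, hk0⟩ := h.unb j M
    refine (Set.finite_lt_nat k0).subset ?_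
    intro l hl
    by_contra hcon
    have := (rt_strictMono h j).monotone (not_lt.mp hcon)
    have hl' : rt g j l ≤ M := hl
    linarith
  refine Set.infinite_of_injective_forall_mem hinj (s := {p : Fin E × ℕ | rt g p.1 p.2 ≤ M}) ?_ hfin
  intro n
  show rt g (es g n) (k n) ≤ M
  rw [hk n]
  exact hcon _

/-- For every time there is a last ring before it. -/
lemma exists_between {g : Fin E → ℕ → ℝ} (h : GoodFin g) {t : ℝ} (ht : 0 ≤ t) :
    ∃ n, Sn g n ≤ t ∧ t < Sn g (n + 1) := by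
  classical
  have hex := Sn_unbounded h t
  set N := Nat.find hex with hN
  have hspec : t < Sn g N := Nat.find_spec hex
  have hN0 : N ≠ 0 := by
    intro h0
    rw [h0] at hspec
    simp [Sn] at hspec
    linarith
  refine ⟨N - 1, ?_, ?_⟩
  · have := Nat.find_min hex (m := N - 1) (by omega)
    exact not_lt.mp this
  · rw [show N - 1 + 1 = N by omega]; exact hspec

end Fin

/-! ### The passage time in terms of the merged clock -/

section Passage

variable {gap : ℤ → ℕ → ℝ} {ζ : ℝ → ℤ → ℤ} {E : ℕ} [NeZero E]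

/-- the waiting times of the edges `l, …, l+E-1` -/
def sub (gap : ℤ → ℕ → ℝ) (l : ℤ) (E : ℕ) : Fin E → ℕ → ℝ := fun j k => gap (l + (j : ℕ)) k

omit [NeZero E] in
lemma rt_sub (gap : ℤ → ℕ → ℝ) (l : ℤ) (j : Fin E) (k : ℕ) :
    rt (sub gap l E) j k = ringTime gap (l + (j : ℕ)) k := rfl

lemma GoodGap.sub (hg : GoodGap gap) (l : ℤ) : GoodFin (MP_71af4b_pr.sub gap l E) where
  pos := fun j k => hg.pos _ _
  unb := fun j M => hg.unb _ M
  ne := fun j j' k l' hjj' => by
    rw [rt_sub, rt_sub]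
    refine hg.ne _ _ _ _ ?_
    intro h
    apply hjj'
    ext
    omega

/-- the sequence of edges as integers -/
noncomputable def eseq (gap : ℤ → ℕ → ℝ) (l : ℤ) (E : ℕ) [NeZero E] (n : ℕ) : ℤ :=
  l + ((es (sub gap l E) n : Fin E) : ℕ)

lemma Dv_iff_gr (hg : GoodGap gap) (hζ : IsColoredTASEP gap ζ) {l A : ℤ} {B C : ℕ}
    (h1 : l ≤ A + 1 - C) (h2 : A + B ≤ l + E) (n : ℕ) {t : ℝ} (ht1 : Sn (sub gap l E) n ≤ t)
    (ht2 : t < Sn (sub gap l E) (n + 1)) {b c : ℕ} (hb : b ≤ B) (hc : c ≤ C) :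
    Dv ζ A t b c ↔ gr A (hist (eseq gap l E) n) b c := by
  have hgf : GoodFin (sub gap l E) := hg.sub l
  set g := sub gap l E with hgdef
  have hSn0 : ∀ n, 0 ≤ Sn g n := by
    intro n
    have := hgf.Sn_strictMono.monotone (Nat.zero_le n)
    simpa [Sn] using this
  -- relevant edges
  have hedge : ∀ b c : ℕ, 1 ≤ b → b ≤ B → 1 ≤ c → c ≤ C →
      ∃ j : Fin E, A + (b : ℤ) - c = l + (j : ℕ) := by
    intro b c hb1 hb2 hc1 hc2
    refine ⟨⟨(A + (b : ℤ) - c - l).toNat, ?_⟩, ?_⟩
    · omega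
    · simp only
      rw [Int.toNat_of_nonneg (by omega)]
      ring
  -- no ring of a relevant edge in (s,t] inside [S_n, S_{n+1})
  have hnoring : ∀ (n : ℕ) (s t : ℝ) (j : Fin E), Sn g n ≤ s → t < Sn g (n + 1) →
      ∀ k, ringTime gap (l + (j : ℕ)) k ∉ Set.Ioc s t := by
    intro n s t j hs ht k hk
    rw [← rt_sub] at hk
    have := ring_between hgf (lt_of_le_of_lt hs hk.1) (hk.2.trans ht.le)
    have h3 := hk.2
    rw [this.2] at h3
    linarith
  suffices H : ∀ (n : ℕ) (t : ℝ) (b c : ℕ), Sn g n ≤ t → t < Sn g (n + 1) → b ≤ B → c ≤ C →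
      (Dv ζ A t b c ↔ gr A (hist (eseq gap l E) n) b c) from H n t b c ht1 ht2 hb hc
  clear ht1 ht2 hb hc b c t n
  intro n
  induction n with
  | zero =>
    intro t b c ht1 ht2 hb hc
    rcases Nat.eq_zero_or_pos b with rfl | hb1
    · simp only [gr_b0, iff_true]
      exact Dv_b0 hg hζ A c ((hSn0 0).trans ht1)
    rcases Nat.eq_zero_or_pos c with rfl | hc1
    · simp only [gr_c0, iff_true]
      exact Dv_c0 A b t
    obtain ⟨j, hj⟩ := hedge b c hb1 hb hc1 hc
    have ht0 : 0 ≤ t := (hSn0 0).trans ht1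
    rw [Dv_const hg hζ le_rfl ht0 (by
      intro k
      rw [hj]
      exact hnoring 0 0 t j (by simp [Sn]) ht2 k), Dv_zero hζ]
    rfl
  | succ n ih =>
    intro t b c ht1 ht2 hb hc
    rcases Nat.eq_zero_or_pos b with rfl | hb1
    · simp only [gr_b0, iff_true]
      exact Dv_b0 hg hζ A c ((hSn0 _).trans ht1)
    rcases Nat.eq_zero_or_pos c with rfl | hc1
    · simp only [gr_c0, iff_true]
      exact Dv_c0 A b t
    obtain ⟨j, hj⟩ := hedge b c hb1 hb hc1 hc
    have hlt : Sn g n < Sn g (n + 1) := hgf.Sn_strictMono (by omega)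
    rw [Dv_const hg hζ (hSn0 (n + 1)) ht1 (by
      intro k
      rw [hj]
      exact hnoring (n + 1) _ t j le_rfl ht2 k)]
    by_cases hje : j = es g n
    · -- the ringing edge
      obtain ⟨k, hk⟩ := ring_at g n
      have hτ : ringTime gap (A + (b : ℤ) - c) k = Sn g (n + 1) := by
        rw [hj, hje, ← rt_sub]; exact hk
      have hj2 := Dv_jump hg hζ A b c k
      rw [hτ] at hj2
      have hmem : Set.Ioo (Sn g n) (Sn g (n + 1)) ∈ 𝓝[<] (Sn g (n + 1)) := Ioo_mem_nhdsLT hlt
      obtain ⟨s, hs1, hs2⟩ := (hj2.and hmem).exists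
      rw [hs1.2 hb1 hc1, ih s b c hs2.1.le hs2.2 hb hc,
        ih s (b - 1) c hs2.1.le hs2.2 (by omega) hc, ih s b (c - 1) hs2.1.le hs2.2 hb (by omega)]
      have hee : A + (b : ℤ) - c = eseq gap l E n := by rw [hj, hje]; rfl
      show _ ↔ (gr A (hist (eseq gap l E) n) b c ∨ _)
      constructor
      · rintro (h | ⟨h, h'⟩)
        · exact Or.inl h
        · exact Or.inr ⟨hee, hb1, hc1, h, h'⟩
      · rintro (h | ⟨_, _, _, h, h'⟩)
        · exact Or.inl h
        · exact Or.inr ⟨h, h'⟩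
    · have hno : ∀ k, ringTime gap (A + (b : ℤ) - c) k ∉ Set.Ioc (Sn g n) (Sn g (n + 1)) := by
        intro k hk
        rw [hj, ← rt_sub] at hk
        exact hje (ring_between hgf hk.1 hk.2).1
      rw [Dv_const hg hζ (hSn0 n) hlt.le hno, ih _ b c le_rfl hlt hb hc]
      have hee : A + (b : ℤ) - c ≠ eseq gap l E n := by
        rw [hj]
        intro h
        apply hje
        ext
        have : l + ((j : ℕ) : ℤ) = l + ((es g n : ℕ) : ℤ) := h
        omega
      show _ ↔ (gr A (hist (eseq gap l E) n) b c ∨ _)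
      constructor
      · exact Or.inl
      · rintro (h | ⟨h, _⟩)
        · exact h
        · exact absurd h hee

/-- hitting index -/
noncomputable def kap (A : ℤ) (B C : ℕ) (ε : ℕ → ℤ) : ℕ := sInf {n | gr A (hist ε n) B C}

lemma kap_nonempty (hg : GoodGap gap) (hζ : IsColoredTASEP gap ζ) {l A : ℤ} {B C : ℕ}
    (h1 : l ≤ A + 1 - C) (h2 : A + B ≤ l + E) : ∃ n, gr A (hist (eseq gap l E) n) B C := by
  obtain ⟨t, ht0, ht⟩ := Dv_eventually hg hζ A B C
  obtain ⟨n, hn1, hn2⟩ := exists_between (hg.sub (E := E) l) ht0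
  exact ⟨n, (Dv_iff_gr hg hζ h1 h2 n hn1 hn2 le_rfl le_rfl).mp (ht t le_rfl)⟩

theorem passageTime_eq (hg : GoodGap gap) (hζ : IsColoredTASEP gap ζ) {l A : ℤ} {B C : ℕ}
    (h1 : l ≤ A + 1 - C) (h2 : A + B ≤ l + E) :
    passageTime ζ A B C = Sn (sub gap l E) (kap A B C (eseq gap l E)) := by
  have hgf : GoodFin (sub gap l E) := hg.sub l
  set κ := kap A B C (eseq gap l E) with hκ
  have hne : {n | gr A (hist (eseq gap l E) n) B C}.Nonempty := kap_nonempty hg hζ h1 h2
  have hκmem : gr A (hist (eseq gap l E) κ) B C := Nat.sInf_mem hne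
  have hiff : ∀ n, gr A (hist (eseq gap l E) n) B C ↔ κ ≤ n := by
    intro n
    constructor
    · intro h; exact Nat.sInf_le h
    · intro h; exact gr_mono A _ B C h hκmem
  have hSn0 : ∀ n, 0 ≤ Sn (sub gap l E) n := by
    intro n
    have := hgf.Sn_strictMono.monotone (Nat.zero_le n)
    simpa [Sn] using this
  have hset : {t : ℝ | 0 ≤ t ∧ (C : ℕ∞) ≤ {x : ℤ | A + B + 1 - C ≤ x ∧ ζ t x ≤ A}.encard} =
      Set.Ici (Sn (sub gap l E) κ) := by
    ext t
    simp only [Set.mem_ofPred_eq, Set.mem_Ici]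
    constructor
    · rintro ⟨ht0, hD⟩
      obtain ⟨n, hn1, hn2⟩ := exists_between hgf ht0
      have := (Dv_iff_gr hg hζ h1 h2 n hn1 hn2 le_rfl le_rfl).mp hD
      exact (hgf.Sn_strictMono.monotone ((hiff n).mp this)).trans hn1
    · intro ht
      have ht0 : 0 ≤ t := (hSn0 κ).trans ht
      refine ⟨ht0, ?_⟩
      obtain ⟨n, hn1, hn2⟩ := exists_between hgf ht0
      refine (Dv_iff_gr hg hζ h1 h2 n hn1 hn2 le_rfl le_rfl).mpr ((hiff n).mpr ?_)
      have := hgf.Sn_strictMono.lt_iff_lt.mp (lt_of_le_of_lt ht hn2)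
      omega
  rw [passageTime, hset, csInf_Ici]

end Passage

end Pool.Agent.Work.MP_71af4b_pr
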