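import Mathlib

set_option autoImplicit false

open MeasureTheory ProbabilityTheory Measure
open scoped ENNReal

namespace Pool.Agent.Work.MP_71af4b_pr

instance instProbExp : IsProbabilityMeasure (expMeasure 1) :=
  isProbabilityMeasure_expMeasure one_pos

lemma expMeasure_Iic : expMeasure 1 (Set.Iic 0) = 0 := by
  rw [expMeasure, gammaMeasure, withDensity_apply _ measurableSet_Iic]
  have h1 : ∫⁻ a in Set.Iic (0 : ℝ), gammaPDF 1 1 a = ∫⁻ a in Set.Iio (0 : ℝ), gammaPDF 1 1 a :=
    setLIntegral_congr (Iio_ae_eq_Iic).symm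
  rw [h1]
  exact lintegral_gammaPDF_of_nonpos le_rfl

lemma exp_shift {m : ℝ} (hm : 0 ≤ m) :
    ((expMeasure 1).restrict (Set.Ioi m)).map (fun x => x - m) =
      ENNReal.ofReal (Real.exp (-m)) • expMeasure 1 := by
  have hmeas : Measurable (fun x : ℝ => x - m) := by fun_prop
  ext V hV
  rw [map_apply hmeas hV, restrict_apply (hmeas hV), Measure.smul_apply, smul_eq_mul, expMeasure,
    gammaMeasure, withDensity_apply _ ((hmeas hV).inter measurableSet_Ioi), withDensity_apply _ hV,
    ← lintegral_indicator ((hmeas hV).inter measurableSet_Ioi),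
    ← lintegral_indicator hV, ← lintegral_const_mul' _ _ ENNReal.ofReal_ne_top,
    ← lintegral_add_right_eq_self _ m]
  refine lintegral_congr_ae ?_
  have h0 : ∀ᵐ x : ℝ ∂volume, x ≠ 0 := by
    have : ({0} : Set ℝ)ᶜ ∈ ae (volume : Measure ℝ) := compl_mem_ae_iff.mpr (measure_singleton 0)
    exact this
  filter_upwards [h0] with x hx
  rcases lt_or_gt_of_ne hx with hx | hx
  · have e1 : gammaPDF 1 1 x = 0 := gammaPDF_of_neg hx
    have e2 : x + m ∉ (fun x => x - m) ⁻¹' V ∩ Set.Ioi m := by
      rintro ⟨-, h⟩
      have : m < x + m := h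
      linarith
    rw [Set.indicator_of_notMem e2]
    by_cases hxV : x ∈ V
    · rw [Set.indicator_of_mem hxV, e1, mul_zero]
    · rw [Set.indicator_of_notMem hxV, mul_zero]
  · by_cases hxV : x ∈ V
    · have e2 : x + m ∈ (fun x => x - m) ⁻¹' V ∩ Set.Ioi m := by
        refine ⟨?_, ?_⟩
        · show x + m - m ∈ V
          simpa using hxV
        · show m < x + m
          linarith
      rw [Set.indicator_of_mem e2, Set.indicator_of_mem hxV]
      have f1 := exponentialPDF_of_nonneg (r := 1) (x := x + m) (by linarith)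
      have f2 := exponentialPDF_of_nonneg (r := 1) (x := x) hx.le
      rw [exponentialPDF, exponentialPDFReal] at f1 f2
      rw [gammaPDF, gammaPDF, f1, f2, ← ENNReal.ofReal_mul (Real.exp_pos _).le]
      congr 1
      rw [one_mul, one_mul, one_mul, one_mul, ← Real.exp_add]
      congr 1
      ring
    · have e2 : x + m ∉ (fun x => x - m) ⁻¹' V ∩ Set.Ioi m := by
        rintro ⟨h, -⟩
        apply hxV
        have : x + m - m ∈ V := h
        simpa using this
      rw [Set.indicator_of_notMem e2, Set.indicator_of_notMem hxV, mul_zero]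

lemma expMeasure_singleton (x : ℝ) : expMeasure 1 {x} = 0 :=
  withDensity_absolutelyContinuous _ _ (measure_singleton x)

/-- the law of one row -/
noncomputable def rho : Measure (ℕ → ℝ) := infinitePi (fun _ : ℕ => expMeasure 1)

instance : IsProbabilityMeasure rho := by unfold rho; infer_instance

/-- add a first entry -/
def consR (p : ℝ × (ℕ → ℝ)) : ℕ → ℝ := fun k => Nat.casesOn k p.1 p.2

@[simp] lemma consR_zero (p : ℝ × (ℕ → ℝ)) : consR p 0 = p.1 := rfl
@[simp] lemma consR_succ (p : ℝ × (ℕ → ℝ)) (k : ℕ) : consR p (k + 1) = p.2 k := rfl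

lemma measurable_consR : Measurable consR := by
  rw [measurable_pi_iff]
  intro k
  cases k with
  | zero => exact measurable_fst
  | succ k => exact (measurable_pi_apply k).comp measurable_snd

lemma map_consR : ((expMeasure 1).prod rho).map consR = rho := by
  refine eq_infinitePi _ fun s t ht => ?_
  rw [map_apply measurable_consR (MeasurableSet.pi s.countable_toSet fun i _ => ht i)]
  have hpre : consR ⁻¹' ((s : Set ℕ).pi t) =
      (if 0 ∈ s then t 0 else Set.univ) ×ˢ
        (((s.preimage Nat.succ Nat.succ_injective.injOn : Finset ℕ) : Set ℕ).pi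
          (fun k => t (k + 1))) := by
    ext ⟨x, r⟩
    simp only [Set.mem_preimage, Set.mem_pi, Finset.mem_coe, Set.mem_prod, Finset.mem_preimage,
      Nat.succ_eq_add_one]
    constructor
    · intro h
      refine ⟨?_, fun k hk => h (k + 1) hk⟩
      split_ifs with h0
      · exact h 0 h0
      · trivial
    · rintro ⟨h1, h2⟩ k hk
      cases k with
      | zero => rw [if_pos hk] at h1; exact h1
      | succ k => exact h2 k hk
  rw [hpre, prod_prod, rho, infinitePi_pi _ (fun i _ => ht (i + 1))]
  have hs : s = (if 0 ∈ s then {0} else ∅) ∪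
      (s.preimage Nat.succ Nat.succ_injective.injOn).map ⟨Nat.succ, Nat.succ_injective⟩ := by
    ext k
    simp only [Finset.mem_union, Finset.mem_map, Finset.mem_preimage, Function.Embedding.coeFn_mk]
    constructor
    · intro hk
      cases k with
      | zero => left; rw [if_pos hk]; simp
      | succ k => right; exact ⟨k, hk, rfl⟩
    · rintro (h | ⟨k', hk', rfl⟩)
      · split_ifs at h with h0
        · rw [Finset.mem_singleton] at h; rw [h]; exact h0
        · simp at h
      · exact hk'
  have hdisj : Disjoint (if 0 ∈ s then ({0} : Finset ℕ) else ∅)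
      ((s.preimage Nat.succ Nat.succ_injective.injOn).map ⟨Nat.succ, Nat.succ_injective⟩) := by
    rw [Finset.disjoint_left]
    intro k hk hk'
    simp only [Finset.mem_map, Function.Embedding.coeFn_mk] at hk'
    obtain ⟨k', -, rfl⟩ := hk'
    split_ifs at hk
    · simp at hk
    · simp at hk
  conv_rhs => rw [hs]
  rw [Finset.prod_union hdisj, Finset.prod_map]
  congr 1
  split_ifs <;> simp

lemma lintegral_rho {f : (ℕ → ℝ) → ℝ≥0∞} (hf : Measurable f) :
    ∫⁻ h, f h ∂rho = ∫⁻ p, f (consR p) ∂((expMeasure 1).prod rho) := by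
  conv_lhs => rw [← map_consR]
  rw [lintegral_map hf measurable_consR]

/-- subtract from the first entry -/
noncomputable def shR (m : ℝ) (h : ℕ → ℝ) : ℕ → ℝ := fun k => if k = 0 then h 0 - m else h k

lemma measurable_shR2 : Measurable (fun p : ℝ × (ℕ → ℝ) => shR p.1 p.2) := by
  rw [measurable_pi_iff]
  intro k
  by_cases hk : k = 0
  · simp only [shR, hk, if_true]
    exact ((measurable_pi_apply 0).comp measurable_snd).sub measurable_fst
  · simp only [shR, hk, if_false]
    exact (measurable_pi_apply k).comp measurable_snd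

lemma measurable_shR (m : ℝ) : Measurable (shR m) :=
  measurable_shR2.comp (measurable_const.prodMk measurable_id)

/-- loss of memory -/
lemma rho_shift {m : ℝ} (hm : 0 ≤ m) {V : Set (ℕ → ℝ)} (hV : MeasurableSet V) :
    rho {h | m < h 0 ∧ shR m h ∈ V} = ENNReal.ofReal (Real.exp (-m)) * rho V := by
  have hS : MeasurableSet {h : ℕ → ℝ | m < h 0 ∧ shR m h ∈ V} :=
    (measurableSet_lt measurable_const (measurable_pi_apply 0)).inter (measurable_shR m hV)
  have hpre : consR ⁻¹' {h : ℕ → ℝ | m < h 0 ∧ shR m h ∈ V} =
      (Prod.map (fun x => x - m) id ⁻¹' (consR ⁻¹' V)) ∩ (Set.Ioi m ×ˢ Set.univ) := by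
    ext ⟨x, r⟩
    have e : shR m (consR (x, r)) = consR (x - m, r) := by
      funext k
      cases k with
      | zero => simp [shR]
      | succ k => simp [shR]
    simp only [Set.mem_preimage, Set.mem_ofPred_eq, consR_zero, Set.mem_inter_iff, Set.mem_prod,
      Set.mem_Ioi, Set.mem_univ, and_true, Prod.map_apply, id_eq, e]
    tauto
  have hmm : Measurable (Prod.map (fun x : ℝ => x - m) (id : (ℕ → ℝ) → ℕ → ℝ)) :=
    (measurable_id.sub_const m).prodMap measurable_id
  conv_lhs => rw [← map_consR]
  rw [map_apply measurable_consR hS, hpre,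
    ← restrict_apply (hmm (measurable_consR hV)), ← Measure.prod_restrict, Measure.restrict_univ,
    ← map_apply hmm (measurable_consR hV), ← map_prod_map _ _ (by fun_prop) measurable_id,
    exp_shift hm, Measure.map_id, Measure.prod_smul_left, Measure.smul_apply, smul_eq_mul,
    ← map_apply measurable_consR hV, map_consR]

end Pool.Agent.Work.MP_71af4b_pr
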