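import Pool.Agent.Work.MP_71af4b_pr.Merge
import Pool.Agent.Work.MP_71af4b_pr.Rows

set_option autoImplicit false

open MeasureTheory ProbabilityTheory Measure
open scoped ENNReal

namespace Pool.Agent.Work.MP_71af4b_pr

/-- the law of `E` independent rows -/
noncomputable def muE (E : ℕ) : Measure (Fin E → ℕ → ℝ) := Measure.pi (fun _ => rho)

instance (E : ℕ) : IsProbabilityMeasure (muE E) := by unfold muE; infer_instance

/-- the (sub-probability) law of the first ring time on the event that a given edge rings first -/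
noncomputable def q0 (E' : ℕ) : Measure ℝ :=
  (expMeasure 1).withDensity (fun x => ENNReal.ofReal (Real.exp (-x)) ^ E')

/-- the row `j` is the strict minimiser of the first entries -/
def SA {E : ℕ} (j : Fin E) : Set (Fin E → ℕ → ℝ) := {g | ∀ j', j' ≠ j → g j 0 < g j' 0}

lemma measurableSet_SA {E : ℕ} (j : Fin E) : MeasurableSet (SA j) := by
  have : SA j = ⋂ j' : Fin E, ⋂ _ : j' ≠ j, {g : Fin E → ℕ → ℝ | g j 0 < g j' 0} := by
    ext g
    simp [SA]
  rw [this]
  refine MeasurableSet.iInter fun j' => MeasurableSet.iInter fun _ => ?_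
  exact measurableSet_lt ((measurable_pi_apply 0).comp (measurable_pi_apply j))
    ((measurable_pi_apply 0).comp (measurable_pi_apply j'))

section

variable {E : ℕ} [NeZero E]

lemma am_of_SA {g : Fin E → ℕ → ℝ} {j : Fin E} (h : g ∈ SA j) : am g = j := by
  have hex : ∃ j : Fin E, ∀ j', j' ≠ j → g j 0 < g j' 0 := ⟨j, h⟩
  have h1 : am g = hex.choose := by rw [am, dif_pos hex]
  have h2 := hex.choose_spec
  rw [← h1] at h2
  by_contra hne
  have := h (am g) hne
  have := h2 j (Ne.symm hne)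
  linarith

lemma measurable_am : Measurable (am : (Fin E → ℕ → ℝ) → Fin E) := by
  refine measurable_to_countable' fun j => ?_
  have : (am : (Fin E → ℕ → ℝ) → Fin E) ⁻¹' {j} =
      SA j ∪ ({g | (0 : Fin E) = j} ∩ (⋃ j' : Fin E, SA j')ᶜ) := by
    ext g
    simp only [Set.mem_preimage, Set.mem_singleton_iff, Set.mem_union, Set.mem_inter_iff,
      Set.mem_compl_iff, Set.mem_iUnion]
    constructor
    · intro h
      by_cases hex : ∃ j' : Fin E, g ∈ SA j'
      · obtain ⟨j', hj'⟩ := hex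
        left
        rw [← h, am_of_SA hj']
        exact hj'
      · right
        refine ⟨?_, hex⟩
        have : ¬ ∃ j : Fin E, ∀ j', j' ≠ j → g j 0 < g j' 0 := hex
        rw [am, dif_neg this] at h
        exact h
    · rintro (h | ⟨h, hex⟩)
      · exact am_of_SA h
      · have h' : ¬ ∃ j : Fin E, ∀ j', j' ≠ j → g j 0 < g j' 0 := hex
        rw [am, dif_neg h']
        exact h
  rw [this]
  exact (measurableSet_SA j).union ((MeasurableSet.const _).inter
    (MeasurableSet.iUnion fun j' => measurableSet_SA j').compl)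

lemma measurable_mn : Measurable (mn : (Fin E → ℕ → ℝ) → ℝ) := by
  have : (mn : (Fin E → ℕ → ℝ) → ℝ) = fun g => ∑ j : Fin E, if am g = j then g j 0 else 0 := by
    funext g
    simp [mn]
  rw [this]
  refine Finset.measurable_sum _ fun j _ => ?_
  exact Measurable.ite (measurable_am (measurableSet_singleton j))
    ((measurable_pi_apply 0).comp (measurable_pi_apply j)) measurable_const

lemma measurable_nx : Measurable (nx : (Fin E → ℕ → ℝ) → Fin E → ℕ → ℝ) := by
  rw [measurable_pi_iff]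
  intro j
  rw [measurable_pi_iff]
  intro k
  have happ : ∀ i : ℕ, Measurable (fun g : Fin E → ℕ → ℝ => g j i) := fun i =>
    (measurable_pi_apply i).comp (measurable_pi_apply j)
  have hset : MeasurableSet {g : Fin E → ℕ → ℝ | j = am g} := by
    have := measurable_am (E := E) (measurableSet_singleton j)
    convert this using 1
    ext g
    simp [eq_comm]
  simp only [nx]
  refine Measurable.ite hset (happ (k + 1)) ?_
  by_cases hk : k = 0
  · simp only [hk, if_true]
    exact (happ 0).sub measurable_mn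
  · simp only [hk, if_false]
    exact happ k

lemma measurable_nxn (n : ℕ) : Measurable (fun g : Fin E → ℕ → ℝ => nxn g n) := by
  induction n with
  | zero => exact measurable_id
  | succ n ih =>
    simp only [nxn_succ]
    exact measurable_nx.comp ih

lemma measurable_es (n : ℕ) : Measurable (fun g : Fin E → ℕ → ℝ => es g n) :=
  measurable_am.comp (measurable_nxn n)

lemma measurable_ms (n : ℕ) : Measurable (fun g : Fin E → ℕ → ℝ => ms g n) :=
  measurable_mn.comp (measurable_nxn n)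

end

lemma nx_self_of_SA {E : ℕ} [NeZero E] {g : Fin E → ℕ → ℝ} {j : Fin E} (h : g ∈ SA j) :
    nx g j = fun k => g j (k + 1) := by
  funext k
  simp [nx, am_of_SA h]

lemma nx_ne_of_SA {E : ℕ} [NeZero E] {g : Fin E → ℕ → ℝ} {j i : Fin E} (h : g ∈ SA j)
    (hij : i ≠ j) : nx g i = shR (g j 0) (g i) := by
  funext k
  simp [nx, am_of_SA h, hij, shR, mn]

lemma rect_step {E' : ℕ} (j : Fin (E' + 1)) {U : Set ℝ} (hU : MeasurableSet U)
    {V : Fin (E' + 1) → Set (ℕ → ℝ)} (hV : ∀ i, MeasurableSet (V i)) :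
    muE (E' + 1) {g | g ∈ SA j ∧ g j 0 ∈ U ∧ ∀ i, nx g i ∈ V i} =
      q0 E' U * ∏ i, rho (V i) := by
  set D : Set ((ℕ → ℝ) × (Fin E' → ℕ → ℝ)) :=
    {p | p.1 0 ∈ U ∧ (fun k => p.1 (k + 1)) ∈ V j ∧
      ∀ i, p.1 0 < p.2 i 0 ∧ shR (p.1 0) (p.2 i) ∈ V (j.succAbove i)} with hDdef
  have hfst0 : Measurable (fun p : (ℕ → ℝ) × (Fin E' → ℕ → ℝ) => p.1 0) :=
    (measurable_pi_apply 0).comp measurable_fst
  have htail : Measurable (fun h : ℕ → ℝ => fun k => h (k + 1)) := by
    rw [measurable_pi_iff]; intro k; exact measurable_pi_apply (k + 1)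
  have hD : MeasurableSet D := by
    have h1 : MeasurableSet {p : (ℕ → ℝ) × (Fin E' → ℕ → ℝ) | p.1 0 ∈ U} := hfst0 hU
    have h2 : MeasurableSet {p : (ℕ → ℝ) × (Fin E' → ℕ → ℝ) | (fun k => p.1 (k + 1)) ∈ V j} :=
      (htail.comp measurable_fst) (hV j)
    have h3 : MeasurableSet {p : (ℕ → ℝ) × (Fin E' → ℕ → ℝ) |
        ∀ i, p.1 0 < p.2 i 0 ∧ shR (p.1 0) (p.2 i) ∈ V (j.succAbove i)} := by
      have : {p : (ℕ → ℝ) × (Fin E' → ℕ → ℝ) |
        ∀ i, p.1 0 < p.2 i 0 ∧ shR (p.1 0) (p.2 i) ∈ V (j.succAbove i)} =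
        ⋂ i, {p : (ℕ → ℝ) × (Fin E' → ℕ → ℝ) |
          p.1 0 < p.2 i 0 ∧ shR (p.1 0) (p.2 i) ∈ V (j.succAbove i)} := by
        ext p; simp
      rw [this]
      refine MeasurableSet.iInter fun i => ?_
      have hi : Measurable (fun p : (ℕ → ℝ) × (Fin E' → ℕ → ℝ) => p.2 i) :=
        (measurable_pi_apply i).comp measurable_snd
      exact (measurableSet_lt hfst0 ((measurable_pi_apply 0).comp hi)).inter
        ((measurable_shR2.comp (hfst0.prodMk hi)) (hV _))
    exact h1.inter (h2.inter h3)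
  have hpre : {g : Fin (E' + 1) → ℕ → ℝ | g ∈ SA j ∧ g j 0 ∈ U ∧ ∀ i, nx g i ∈ V i} =
      (MeasurableEquiv.piFinSuccAbove (fun _ : Fin (E' + 1) => ℕ → ℝ) j) ⁻¹' D := by
    ext g
    have e1 : (MeasurableEquiv.piFinSuccAbove (fun _ : Fin (E' + 1) => ℕ → ℝ) j) g =
        (g j, fun i => g (j.succAbove i)) := rfl
    simp only [Set.mem_preimage, e1, hDdef, Set.mem_ofPred_eq]
    constructor
    · rintro ⟨h1, h2, h3⟩
      refine ⟨h2, ?_, fun i => ⟨h1 _ (Fin.succAbove_ne j i), ?_⟩⟩
      · have := h3 j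
        rwa [nx_self_of_SA h1] at this
      · have := h3 (j.succAbove i)
        rwa [nx_ne_of_SA h1 (Fin.succAbove_ne j i)] at this
    · rintro ⟨h1, h2, h3⟩
      have hSA : g ∈ SA j := by
        intro j' hj'
        obtain ⟨i, rfl⟩ := Fin.exists_succAbove_eq hj'
        exact (h3 i).1
      refine ⟨hSA, h1, fun i => ?_⟩
      by_cases hij : i = j
      · rw [hij, nx_self_of_SA hSA]; exact h2
      · obtain ⟨i', rfl⟩ := Fin.exists_succAbove_eq hij
        rw [nx_ne_of_SA hSA hij]; exact (h3 i').2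
  have hmp := measurePreserving_piFinSuccAbove (fun _ : Fin (E' + 1) => rho) j
  rw [hpre, muE, hmp.measure_preimage hD.nullMeasurableSet, prod_apply hD]
  -- the inner measure
  have hpos : ∀ᵐ h ∂rho, 0 ≤ h 0 := by
    have h1 : rho {h | h 0 ∈ Set.Iic (0 : ℝ)} = 0 := by
      have := measurePreserving_eval_infinitePi (fun _ : ℕ => expMeasure 1) 0
      have h2 := this.measure_preimage (s := Set.Iic (0 : ℝ)) measurableSet_Iic.nullMeasurableSet
      rw [expMeasure_Iic] at h2
      exact h2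
    have h3 : ∀ᵐ h ∂rho, ¬ (h 0 ∈ Set.Iic (0 : ℝ)) := by
      rw [ae_iff]
      simpa using h1
    filter_upwards [h3] with h hh
    simp only [Set.mem_Iic, not_le] at hh
    exact hh.le
  set c := ∏ i : Fin E', rho (V (j.succAbove i)) with hc
  have hinner : ∀ᵐ h ∂rho, (Measure.pi fun _ : Fin E' => rho) (Prod.mk h ⁻¹' D) =
      (U.indicator (fun x => ENNReal.ofReal (Real.exp (-x)) ^ E') (h 0) *
        (V j).indicator 1 (fun k => h (k + 1))) * c := by
    filter_upwards [hpos] with h hh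
    by_cases h1 : h 0 ∈ U
    · by_cases h2 : (fun k => h (k + 1)) ∈ V j
      · have : Prod.mk h ⁻¹' D = Set.univ.pi
            (fun i : Fin E' => {h' : ℕ → ℝ | h 0 < h' 0 ∧ shR (h 0) h' ∈ V (j.succAbove i)}) := by
          ext g
          simp only [Set.mem_preimage, hDdef, Set.mem_ofPred_eq, h1, h2, true_and, Set.mem_pi,
            Set.mem_univ, true_imp_iff]
        rw [this, pi_pi, Set.indicator_of_mem h1, Set.indicator_of_mem h2, Pi.one_apply, mul_one]
        have : ∀ i : Fin E', rho {h' : ℕ → ℝ | h 0 < h' 0 ∧ shR (h 0) h' ∈ V (j.succAbove i)} =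
            ENNReal.ofReal (Real.exp (-(h 0))) * rho (V (j.succAbove i)) := fun i =>
          rho_shift hh (hV _)
        simp only [this]
        rw [Finset.prod_mul_distrib, Finset.prod_const, Finset.card_univ, Fintype.card_fin, hc]
      · have : Prod.mk h ⁻¹' D = ∅ := by
          ext g
          simp only [Set.mem_preimage, hDdef, Set.mem_ofPred_eq, Set.mem_empty_iff_false,
            iff_false]
          rintro ⟨-, h3, -⟩
          exact h2 h3
        rw [this, measure_empty, Set.indicator_of_notMem h2, mul_zero, zero_mul]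
    · have : Prod.mk h ⁻¹' D = ∅ := by
        ext g
        simp only [Set.mem_preimage, hDdef, Set.mem_ofPred_eq, Set.mem_empty_iff_false, iff_false]
        rintro ⟨h3, -, -⟩
        exact h1 h3
      rw [this, measure_empty, Set.indicator_of_notMem h1, zero_mul, zero_mul]
  rw [lintegral_congr_ae hinner]
  have hm1 : Measurable (U.indicator (fun x : ℝ => ENNReal.ofReal (Real.exp (-x)) ^ E')) :=
    Measurable.indicator (by fun_prop) hU
  have hm2 : Measurable ((V j).indicator (1 : (ℕ → ℝ) → ℝ≥0∞)) := measurable_one.indicator (hV j)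
  have hm3 : Measurable (fun h : ℕ → ℝ =>
      U.indicator (fun x : ℝ => ENNReal.ofReal (Real.exp (-x)) ^ E') (h 0) *
        (V j).indicator 1 (fun k => h (k + 1))) :=
    (hm1.comp (measurable_pi_apply 0)).mul (hm2.comp htail)
  rw [lintegral_mul_const _ hm3, lintegral_rho hm3]
  have : ∀ p : ℝ × (ℕ → ℝ), (fun h : ℕ → ℝ =>
      U.indicator (fun x : ℝ => ENNReal.ofReal (Real.exp (-x)) ^ E') (h 0) *
        (V j).indicator 1 (fun k => h (k + 1))) (consR p) =
      U.indicator (fun x : ℝ => ENNReal.ofReal (Real.exp (-x)) ^ E') p.1 *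
        (V j).indicator (1 : (ℕ → ℝ) → ℝ≥0∞) p.2 := fun p => rfl
  simp only [this]
  rw [lintegral_prod_mul hm1.aemeasurable hm2.aemeasurable, lintegral_indicator_one (hV j),
    lintegral_indicator hU, q0, withDensity_apply _ hU, Fin.prod_univ_succAbove _ j, mul_assoc]

lemma q0_finite {E' : ℕ} : IsFiniteMeasure (q0 E') := by
  constructor
  have h := rect_step (E' := E') 0 MeasurableSet.univ (V := fun _ => Set.univ)
    (fun _ => MeasurableSet.univ)
  have h2 : q0 E' Set.univ * ∏ _i : Fin (E' + 1), rho Set.univ ≤ 1 := by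
    rw [← h]; exact prob_le_one
  simp only [measure_univ, Finset.prod_const_one, mul_one] at h2
  exact lt_of_le_of_lt h2 ENNReal.one_lt_top

lemma step_measure {E' : ℕ} (j : Fin (E' + 1)) {U : Set ℝ} (hU : MeasurableSet U) :
    ((muE (E' + 1)).restrict {g | g ∈ SA j ∧ g j 0 ∈ U}).map nx = q0 E' U • muE (E' + 1) := by
  have := q0_finite (E' := E')
  have hfin : q0 E' U ≠ ∞ := measure_ne_top _ _
  have hSU : MeasurableSet {g : Fin (E' + 1) → ℕ → ℝ | g ∈ SA j ∧ g j 0 ∈ U} :=
    (measurableSet_SA j).inter (((measurable_pi_apply 0).comp (measurable_pi_apply j)) hU)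
  have hrect : ∀ V : Fin (E' + 1) → Set (ℕ → ℝ), (∀ i, MeasurableSet (V i)) →
      ((muE (E' + 1)).restrict {g | g ∈ SA j ∧ g j 0 ∈ U}).map nx (Set.univ.pi V) =
        (q0 E' U • muE (E' + 1)) (Set.univ.pi V) := by
    intro V hV
    rw [map_apply measurable_nx (MeasurableSet.univ_pi hV),
      restrict_apply (measurable_nx (MeasurableSet.univ_pi hV)), Measure.smul_apply, smul_eq_mul]
    have e : nx ⁻¹' (Set.univ.pi V) ∩ {g : Fin (E' + 1) → ℕ → ℝ | g ∈ SA j ∧ g j 0 ∈ U} =
        {g | g ∈ SA j ∧ g j 0 ∈ U ∧ ∀ i, nx g i ∈ V i} := by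
      ext g
      simp only [Set.mem_inter_iff, Set.mem_preimage, Set.mem_pi, Set.mem_univ, true_imp_iff,
        Set.mem_ofPred_eq]
      tauto
    rw [e, rect_step j hU hV, muE, pi_pi]
  refine ext_of_generate_finite _ (generateFrom_pi (α := fun _ : Fin (E' + 1) => ℕ → ℝ)).symm
    isPiSystem_pi ?_ ?_
  · rintro s ⟨V, hV, rfl⟩
    exact hrect V (fun i => hV i (Set.mem_univ i))
  · have := hrect (fun _ => Set.univ) (fun _ => MeasurableSet.univ)
    simpa using this

/-- The one-step decomposition. -/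
lemma one_step {E' : ℕ} (hgood : ∀ᵐ g ∂(muE (E' + 1)), ∃ j, g ∈ SA j) (j : Fin (E' + 1))
    {U : Set ℝ} (hU : MeasurableSet U) {V : Set (Fin (E' + 1) → ℕ → ℝ)} (hV : MeasurableSet V) :
    muE (E' + 1) {g | am g = j ∧ mn g ∈ U ∧ nx g ∈ V} = q0 E' U * muE (E' + 1) V := by
  have h1 : muE (E' + 1) {g | am g = j ∧ mn g ∈ U ∧ nx g ∈ V} =
      muE (E' + 1) (nx ⁻¹' V ∩ {g | g ∈ SA j ∧ g j 0 ∈ U}) := by
    refine measure_congr ?_
    filter_upwards [hgood] with g hg
    obtain ⟨j', hj'⟩ := hg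
    have ham := am_of_SA hj'
    refine propext ?_
    show (am g = j ∧ mn g ∈ U ∧ nx g ∈ V) ↔ (nx g ∈ V ∧ g ∈ SA j ∧ g j 0 ∈ U)
    constructor
    · rintro ⟨h1, h2, h3⟩
      have hjj : j' = j := by rw [← ham, h1]
      rw [mn, h1] at h2
      exact ⟨h3, hjj ▸ hj', h2⟩
    · rintro ⟨h1, h2, h3⟩
      have := am_of_SA h2
      refine ⟨this, ?_, h1⟩
      rw [mn, this]; exact h3
  rw [h1, ← restrict_apply (measurable_nx hV), ← map_apply measurable_nx hV, step_measure j hU,
    Measure.smul_apply, smul_eq_mul]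

end Pool.Agent.Work.MP_71af4b_pr
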