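import Pool.Agent.Work.MP_71af4b_pr.Defs

set_option autoImplicit false

open Filter Topology

namespace Pool.Agent.Work.MP_71af4b_pr

/-- The environments in which the graphical construction works. -/
structure GoodGap (gap : ℤ → ℕ → ℝ) : Prop where
  pos : ∀ x k, 0 < gap x k
  unb : ∀ x (M : ℝ), ∃ k, M < ringTime gap x k
  ne : ∀ x y k l, x ≠ y → ringTime gap x k ≠ ringTime gap y l
  silentR : ∀ (M : ℝ) (N : ℤ), ∃ x, N ≤ x ∧ M < ringTime gap x 0
  silentL : ∀ (M : ℝ) (N : ℤ), ∃ x, x ≤ N ∧ M < ringTime gap x 0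

variable {gap : ℤ → ℕ → ℝ}

lemma ringTime_succ (x : ℤ) (k : ℕ) :
    ringTime gap x (k + 1) = ringTime gap x k + gap x (k + 1) := by
  rw [ringTime, Finset.sum_range_succ, ringTime]

lemma GoodGap.strictMono (h : GoodGap gap) (x : ℤ) : StrictMono (ringTime gap x) :=
  strictMono_nat_of_lt_succ fun k => by rw [ringTime_succ]; linarith [h.pos x (k + 1)]

lemma GoodGap.ring_pos (h : GoodGap gap) (x : ℤ) (k : ℕ) : 0 < ringTime gap x k := by
  rw [ringTime]
  exact Finset.sum_pos (fun j _ => h.pos x j) (by simp)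

lemma GoodGap.finite_le (h : GoodGap gap) (x : ℤ) (M : ℝ) : {k | ringTime gap x k ≤ M}.Finite := by
  obtain ⟨k0, hk0⟩ := h.unb x M
  refine (Set.finite_lt_nat k0).subset ?_
  intro k hk
  simp only [Set.mem_ofPred_eq] at hk ⊢
  by_contra hcon
  have := (h.strictMono x).monotone (not_lt.mp hcon)
  linarith

/-- Induction along the rings of finitely many clocks. -/
lemma ring_induction (hg : GoodGap gap) (K : Finset ℤ) (Q : ℝ → Prop) (s0 : ℝ) (h0 : Q s0)
    (hconst : ∀ s t, s0 ≤ s → s ≤ t → (∀ x ∈ K, ∀ k, ringTime gap x k ∉ Set.Ioc s t) → Q s → Q t)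
    (hjump : ∀ x ∈ K, ∀ k, s0 < ringTime gap x k → (∀ᶠ s in 𝓝[<] (ringTime gap x k), Q s) →
      Q (ringTime gap x k)) :
    ∀ t, s0 ≤ t → Q t := by
  have hfin : ∀ t : ℝ, {p : ℤ × ℕ | p.1 ∈ K ∧ s0 < ringTime gap p.1 p.2 ∧ ringTime gap p.1 p.2 ≤ t}.Finite := by
    intro t
    have : {p : ℤ × ℕ | p.1 ∈ K ∧ s0 < ringTime gap p.1 p.2 ∧ ringTime gap p.1 p.2 ≤ t} ⊆
        ⋃ x ∈ K, (fun k => ((x, k) : ℤ × ℕ)) '' {k | ringTime gap x k ≤ t} := by
      rintro ⟨x, k⟩ ⟨h1, _, h3⟩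
      simp only [Set.mem_iUnion]
      exact ⟨x, h1, k, h3, rfl⟩
    refine Set.Finite.subset ?_ this
    exact Set.Finite.biUnion K.finite_toSet (fun x _ => (hg.finite_le x t).image _)
  have main : ∀ n : ℕ, ∀ t, s0 ≤ t → (hfin t).toFinset.card = n → Q t := by
    intro n
    induction n using Nat.strong_induction_on with
    | _ n ih =>
      intro t ht hn
      rcases Finset.eq_empty_or_nonempty (hfin t).toFinset with hemp | hne
      · refine hconst s0 t le_rfl ht ?_ h0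
        intro x hx k hk
        have : ((x, k) : ℤ × ℕ) ∈ (hfin t).toFinset := by
          rw [Set.Finite.mem_toFinset]; exact ⟨hx, hk.1, hk.2⟩
        rw [hemp] at this
        simp at this
      · obtain ⟨⟨x, k⟩, hmem, hmax⟩ := Finset.exists_max_image (hfin t).toFinset
          (fun p => ringTime gap p.1 p.2) hne
        rw [Set.Finite.mem_toFinset] at hmem
        obtain ⟨hx, hlt, hle⟩ := hmem
        simp only at hx hlt hle hmax
        have hQ : Q (ringTime gap x k) := by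
          refine hjump x hx k hlt ?_
          have : Set.Ioo s0 (ringTime gap x k) ∈ 𝓝[<] (ringTime gap x k) := Ioo_mem_nhdsLT hlt
          filter_upwards [this] with s hs
          refine ih (hfin s).toFinset.card ?_ s hs.1.le rfl
          rw [← hn]
          refine Finset.card_lt_card ?_
          refine ⟨?_, ?_⟩
          · intro p hp
            rw [Set.Finite.mem_toFinset] at hp ⊢
            exact ⟨hp.1, hp.2.1, hp.2.2.trans (hs.2.le.trans hle)⟩
          · intro hcon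
            have h1 : ((x, k) : ℤ × ℕ) ∈ (hfin t).toFinset := by
              rw [Set.Finite.mem_toFinset]; exact ⟨hx, hlt, hle⟩
            have h2 := hcon h1
            rw [Set.Finite.mem_toFinset] at h2
            exact absurd h2.2.2 (not_le.mpr hs.2)
        refine hconst _ t hlt.le hle ?_ hQ
        intro y hy l hl
        have h1 : ((y, l) : ℤ × ℕ) ∈ (hfin t).toFinset := by
          rw [Set.Finite.mem_toFinset]; exact ⟨hy, hlt.trans hl.1, hl.2⟩
        have := hmax _ h1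
        simp only at this
        linarith [hl.1]
  intro t ht
  exact main _ t ht rfl

lemma GoodGap.no_ring_left (hg : GoodGap gap) {x y : ℤ} (k : ℕ) (hxy : y ≠ x) :
    ∀ᶠ s in 𝓝[<] (ringTime gap x k), ∀ l, ringTime gap y l ∉ Set.Ioc s (ringTime gap x k) := by
  have hfin := hg.finite_le y (ringTime gap x k)
  have h1 : ∀ᶠ s in 𝓝[<] (ringTime gap x k), ∀ l ∈ {l | ringTime gap y l ≤ ringTime gap x k},
      ringTime gap y l < s := by
    rw [Filter.eventually_all_finite hfin]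
    intro l hl
    have hlt : ringTime gap y l < ringTime gap x k := lt_of_le_of_ne hl (hg.ne y x l k hxy)
    filter_upwards [Ioo_mem_nhdsLT hlt] with s hs using hs.1
  filter_upwards [h1] with s hs l hl
  have := hs l hl.2
  linarith [hl.1]

variable {ζ : ℝ → ℤ → ℤ}

lemma jump_all (hg : GoodGap gap) (hζ : IsColoredTASEP gap ζ) (x : ℤ) (k : ℕ) (F : Finset ℤ) :
    ∀ᶠ s in 𝓝[<] (ringTime gap x k), 0 ≤ s ∧ s < ringTime gap x k ∧
      ζ (ringTime gap x k) x = max (ζ s x) (ζ s (x + 1)) ∧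
      ζ (ringTime gap x k) (x + 1) = min (ζ s x) (ζ s (x + 1)) ∧
      ∀ z ∈ F, z ≠ x → z ≠ x + 1 → ζ (ringTime gap x k) z = ζ s z := by
  have h1 := hζ.jump x k
  have h2 : Set.Ioo 0 (ringTime gap x k) ∈ 𝓝[<] (ringTime gap x k) :=
    Ioo_mem_nhdsLT (hg.ring_pos x k)
  have h3 : ∀ᶠ s in 𝓝[<] (ringTime gap x k), ∀ z ∈ F, z ≠ x → z ≠ x + 1 →
      ζ (ringTime gap x k) z = ζ s z := by
    rw [Filter.eventually_all_finset]
    intro z _
    by_cases hz : z ≠ x ∧ z ≠ x + 1
    · have e1 := hg.no_ring_left (x := x) (y := z - 1) k (by omega)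
      have e2 := hg.no_ring_left (x := x) (y := z) k hz.1
      filter_upwards [e1, e2, h2] with s f1 f2 f3 _ _
      exact hζ.const z s _ f3.1.le f3.2.le f1 f2
    · filter_upwards with s f1 f2
      exact absurd ⟨f1, f2⟩ hz
  filter_upwards [h1, h2, h3] with s g1 g2 g3
  refine ⟨g2.1.le, g2.2, ?_, ?_, g3⟩
  · split_ifs at g1 with h
    · rw [g1.1, max_eq_right h.le]
    · rw [g1.1, max_eq_left (not_lt.mp h)]
  · split_ifs at g1 with h
    · rw [g1.2, min_eq_left h.le]
    · rw [g1.2, min_eq_right (not_lt.mp h)]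

/-- If the clock of the edge `(N, N+1)` is silent up to time `t` then all colors to the right of
this edge are larger than `N` up to time `t`. -/
lemma barrier (hg : GoodGap gap) (hζ : IsColoredTASEP gap ζ) {N : ℤ} {t : ℝ}
    (hN : t < ringTime gap N 0) : ∀ s, 0 ≤ s → s ≤ t → ∀ y, N < y → N < ζ s y := by
  intro s hs hst y hy
  obtain ⟨N', hN', hsil⟩ := hg.silentR t y
  have key := ring_induction hg (Finset.Icc N N') (fun s => s ≤ t → ∀ z ∈ Finset.Ioc N N', N < ζ s z)
    0 (by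
      intro _ z hz
      rw [hζ.init]
      exact (Finset.mem_Ioc.mp hz).1) (by
      intro s t' hs0 hst' hno hQ ht' z hz
      rw [Finset.mem_Ioc] at hz
      rw [hζ.const z s t' hs0 hst' (hno (z - 1) (by rw [Finset.mem_Icc]; omega))
        (hno z (by rw [Finset.mem_Icc]; omega))]
      exact hQ (hst'.trans ht') z (Finset.mem_Ioc.mpr hz)) (by
      intro x hx k hpos hev ht z hz
      rw [Finset.mem_Icc] at hx
      have hxN : x ≠ N := by
        rintro rfl
        have := (hg.strictMono x).monotone (Nat.zero_le k)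
        linarith
      have hxN' : x ≠ N' := by
        rintro rfl
        have := (hg.strictMono x).monotone (Nat.zero_le k)
        linarith
      obtain ⟨s, hs⟩ := (hev.and (jump_all hg hζ x k (Finset.Ioc N N'))).exists
      obtain ⟨hQ, h0, hlt, hmax, hmin, hoth⟩ := hs
      have hQ' := hQ (hlt.le.trans ht)
      have a1 := hQ' x (by rw [Finset.mem_Ioc]; omega)
      have a2 := hQ' (x + 1) (by rw [Finset.mem_Ioc]; omega)
      by_cases hzx : z = x
      · subst hzx; rw [hmax]; exact lt_max_of_lt_left a1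
      · by_cases hzx' : z = x + 1
        · subst hzx'; rw [hmin]; exact lt_min a1 a2
        · rw [hoth z hz hzx hzx']; exact hQ' z hz)
  exact key s hs hst y (by rw [Finset.mem_Ioc]; omega)

/-- number of colors `≤ A` on the sites `x, …, N` at time `s` -/
noncomputable def cnt (ζ : ℝ → ℤ → ℤ) (A N : ℤ) (s : ℝ) (x : ℤ) : ℤ :=
  ∑ z ∈ Finset.Icc x N, if ζ s z ≤ A then 1 else 0

lemma cnt_succ {A N : ℤ} {s : ℝ} {x : ℤ} (hx : x ≤ N) :
    cnt ζ A N s x = (if ζ s x ≤ A then 1 else 0) + cnt ζ A N s (x + 1) := by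
  rw [cnt, cnt]
  have : Finset.Icc x N = insert x (Finset.Icc (x + 1) N) := by
    ext z; simp only [Finset.mem_Icc, Finset.mem_insert]; omega
  rw [this, Finset.sum_insert (by simp)]

/-- the count does not change as long as the clock at the left boundary does not ring -/
lemma cnt_const (hg : GoodGap gap) (hζ : IsColoredTASEP gap ζ) {A N : ℤ} {t : ℝ}
    (hN : t < ringTime gap N 0) {x : ℤ} {s : ℝ} (hs : 0 ≤ s) (hst : s ≤ t)
    (hno : ∀ k, ringTime gap (x - 1) k ∉ Set.Ioc s t) : cnt ζ A N t x = cnt ζ A N s x := by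
  have key := ring_induction hg (Finset.Icc (x - 1) N)
    (fun t' => t' ≤ t → cnt ζ A N t' x = cnt ζ A N s x) s (fun _ => rfl) (by
      intro s' t' hs' hst' hno' hQ ht'
      rw [← hQ (hst'.trans ht')]
      unfold cnt
      refine Finset.sum_congr rfl fun z hz => ?_
      rw [Finset.mem_Icc] at hz
      rw [hζ.const z s' t' (hs.trans hs') hst' (hno' (z - 1) (by rw [Finset.mem_Icc]; omega))
        (hno' z (by rw [Finset.mem_Icc]; omega))]) (by
      intro y hy k hpos hev ht'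
      rw [Finset.mem_Icc] at hy
      have hy1 : y ≠ x - 1 := by
        rintro rfl
        exact hno k ⟨hpos, ht'⟩
      have hy2 : y ≠ N := by
        rintro rfl
        have := (hg.strictMono y).monotone (Nat.zero_le k)
        linarith
      obtain ⟨s', hs'⟩ := (hev.and (jump_all hg hζ y k (Finset.Icc x N))).exists
      obtain ⟨hQ, h0, hlt, hmax, hmin, hoth⟩ := hs'
      rw [← hQ (hlt.le.trans ht')]
      unfold cnt
      rw [← sub_eq_zero, ← Finset.sum_sub_distrib]
      have hsub : ({y, y + 1} : Finset ℤ) ⊆ Finset.Icc x N := by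
        intro z hz
        simp only [Finset.mem_insert, Finset.mem_singleton] at hz
        rw [Finset.mem_Icc]
        omega
      rw [← Finset.sum_subset hsub (by
        intro z hz hz'
        simp only [Finset.mem_insert, Finset.mem_singleton, not_or] at hz'
        rw [hoth z hz hz'.1 hz'.2, sub_self])]
      rw [Finset.sum_pair (by omega), hmax, hmin]
      rcases le_total (ζ s' y) (ζ s' (y + 1)) with h | h
      · rw [max_eq_right h, min_eq_left h]; ring
      · rw [max_eq_left h, min_eq_right h]; ring)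
  exact key t hst le_rfl

lemma encard_eq_cnt (hg : GoodGap gap) (hζ : IsColoredTASEP gap ζ) {A N : ℤ} {t : ℝ}
    (hN : t < ringTime gap N 0) (hAN : A ≤ N) {s : ℝ} (hs : 0 ≤ s) (hst : s ≤ t) (x : ℤ) (c : ℕ) :
    (c : ℕ∞) ≤ {y : ℤ | x ≤ y ∧ ζ s y ≤ A}.encard ↔ (c : ℤ) ≤ cnt ζ A N s x := by
  have hset : {y : ℤ | x ≤ y ∧ ζ s y ≤ A} = ((Finset.Icc x N).filter (fun z => ζ s z ≤ A) : Finset ℤ) := by
    ext y
    simp only [Set.mem_ofPred_eq, Finset.coe_filter, Finset.mem_Icc]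
    constructor
    · rintro ⟨h1, h2⟩
      refine ⟨⟨h1, ?_⟩, h2⟩
      by_contra hcon
      have := barrier hg hζ hN s hs hst y (by omega)
      omega
    · rintro ⟨⟨h1, _⟩, h2⟩
      exact ⟨h1, h2⟩
  rw [hset, Set.encard_coe_eq_coe_finsetCard, cnt, Finset.sum_boole]
  norm_cast

/-- The growth event. -/
def Dv (ζ : ℝ → ℤ → ℤ) (A : ℤ) (t : ℝ) (b c : ℕ) : Prop :=
  (c : ℕ∞) ≤ {x : ℤ | A + b + 1 - c ≤ x ∧ ζ t x ≤ A}.encard

lemma Dv_const (hg : GoodGap gap) (hζ : IsColoredTASEP gap ζ) {A : ℤ} {s t : ℝ} {b c : ℕ}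
    (hs : 0 ≤ s) (hst : s ≤ t) (hno : ∀ k, ringTime gap (A + b - c) k ∉ Set.Ioc s t) :
    Dv ζ A t b c ↔ Dv ζ A s b c := by
  obtain ⟨N, hN, hsil⟩ := hg.silentR t A
  unfold Dv
  rw [encard_eq_cnt hg hζ hsil hN (hs.trans hst) le_rfl, encard_eq_cnt hg hζ hsil hN hs hst,
    cnt_const hg hζ hsil hs hst (by
      intro k
      rw [show A + (b : ℤ) + 1 - c - 1 = A + b - c by ring]
      exact hno k)]

lemma Dv_zero (hζ : IsColoredTASEP gap ζ) (A : ℤ) (b c : ℕ) :
    Dv ζ A 0 b c ↔ b = 0 ∨ c = 0 := by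
  unfold Dv
  have hset : {x : ℤ | A + b + 1 - c ≤ x ∧ ζ 0 x ≤ A} = (Finset.Icc (A + b + 1 - c) A : Finset ℤ) := by
    ext y
    simp [hζ.init]
  rw [hset, Set.encard_coe_eq_coe_finsetCard, Int.card_Icc]
  norm_cast
  omega

lemma Dv_jump (hg : GoodGap gap) (hζ : IsColoredTASEP gap ζ) (A : ℤ) (b c : ℕ) (k : ℕ) :
    ∀ᶠ s in 𝓝[<] (ringTime gap (A + b - c) k),
      (Dv ζ A s b c → Dv ζ A (ringTime gap (A + b - c) k) b c) ∧
      (1 ≤ b → 1 ≤ c → (Dv ζ A (ringTime gap (A + b - c) k) b c ↔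
        Dv ζ A s b c ∨ (Dv ζ A s (b - 1) c ∧ Dv ζ A s b (c - 1)))) := by
  set τ := ringTime gap (A + b - c) k with hτ
  have hτ0 : 0 < τ := hg.ring_pos _ _
  obtain ⟨N, hN, hsil⟩ := hg.silentR τ (max A (A + b + 2 - c))
  have hAN : A ≤ N := (le_max_left _ _).trans hN
  have hxN : A + b + 2 - c ≤ N := (le_max_right _ _).trans hN
  have e1 := jump_all hg hζ (A + b - c) k ∅
  have e2 := hg.no_ring_left (x := A + b - c) (y := A + b - c + 1) k (by omega)
  filter_upwards [e1, e2] with s f1 f2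
  obtain ⟨hs0, hsτ, -, hmin, -⟩ := f1
  have hc1 : cnt ζ A N τ (A + b + 2 - c) = cnt ζ A N s (A + b + 2 - c) := by
    refine cnt_const hg hζ hsil hs0 hsτ.le ?_
    intro l
    rw [show A + (b : ℤ) + 2 - c - 1 = A + b - c + 1 by ring]
    exact f2 l
  have x0 : A + (b : ℤ) - c + 1 = A + b + 1 - c := by ring
  have d1 : cnt ζ A N τ (A + b + 1 - c) =
      (if min (ζ s (A + b - c)) (ζ s (A + b + 1 - c)) ≤ A then 1 else 0) +
        cnt ζ A N s (A + b + 2 - c) := by
    rw [cnt_succ (by omega), show A + (b : ℤ) + 1 - c + 1 = A + b + 2 - c by ring, hc1, ← x0, hmin]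
  have d2 : cnt ζ A N s (A + b + 1 - c) =
      (if ζ s (A + b + 1 - c) ≤ A then 1 else 0) + cnt ζ A N s (A + b + 2 - c) := by
    rw [cnt_succ (by omega), show A + (b : ℤ) + 1 - c + 1 = A + b + 2 - c by ring]
  have d3 : cnt ζ A N s (A + b - c) =
      (if ζ s (A + b - c) ≤ A then 1 else 0) + cnt ζ A N s (A + b + 1 - c) := by
    rw [cnt_succ (by omega), x0]
  have E1 : Dv ζ A τ b c ↔ (c : ℤ) ≤ cnt ζ A N τ (A + b + 1 - c) :=
    encard_eq_cnt hg hζ hsil hAN hτ0.le le_rfl _ _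
  have E2 : Dv ζ A s b c ↔ (c : ℤ) ≤ cnt ζ A N s (A + b + 1 - c) :=
    encard_eq_cnt hg hζ hsil hAN hs0 hsτ.le _ _
  refine ⟨?_, ?_⟩
  · rw [E1, E2, d1, d2]
    intro h
    refine h.trans ?_
    have : (if ζ s (A + b + 1 - c) ≤ A then (1 : ℤ) else 0) ≤
        (if min (ζ s (A + b - c)) (ζ s (A + b + 1 - c)) ≤ A then 1 else 0) := by
      split_ifs with h1 h2 h2
      · exact le_rfl
      · exact absurd ((min_le_right _ _).trans h1) h2
      · norm_num
      · exact le_rfl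
    linarith
  · intro hb hc
    have E3 : Dv ζ A s (b - 1) c ↔ (c : ℤ) ≤ cnt ζ A N s (A + b - c) := by
      have := encard_eq_cnt hg hζ hsil hAN hs0 hsτ.le (A + ((b - 1 : ℕ) : ℤ) + 1 - c) c
      rw [Dv, this]
      rw [show A + ((b - 1 : ℕ) : ℤ) + 1 - c = A + b - c by push_cast [hb]; ring]
    have E4 : Dv ζ A s b (c - 1) ↔ (c : ℤ) - 1 ≤ cnt ζ A N s (A + b + 2 - c) := by
      have := encard_eq_cnt hg hζ hsil hAN hs0 hsτ.le (A + (b : ℤ) + 1 - ((c - 1 : ℕ) : ℤ)) (c - 1)
      rw [Dv, this]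
      rw [show A + (b : ℤ) + 1 - ((c - 1 : ℕ) : ℤ) = A + b + 2 - c by push_cast [hc]; ring]
      push_cast [hc]
      rfl
    rw [E1, E2, E3, E4, d1, d3, d2]
    by_cases h1 : ζ s (A + b - c) ≤ A <;> by_cases h2 : ζ s (A + b + 1 - c) ≤ A
    · rw [if_pos h1, if_pos h2, if_pos ((min_le_left _ _).trans h1)]; omega
    · rw [if_pos h1, if_neg h2, if_pos ((min_le_left _ _).trans h1)]; omega
    · rw [if_neg h1, if_pos h2, if_pos ((min_le_right _ _).trans h2)]; omega
    · rw [if_neg h1, if_neg h2, if_neg (by rw [min_le_iff]; tauto)]; omega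

lemma Dv_b0 (hg : GoodGap gap) (hζ : IsColoredTASEP gap ζ) (A : ℤ) (c : ℕ) {t : ℝ} (ht : 0 ≤ t) :
    Dv ζ A t 0 c := by
  refine ring_induction hg {A - c} (fun t => Dv ζ A t 0 c) 0 ?_ ?_ ?_ t ht
  · rw [Dv_zero hζ]; left; rfl
  · intro s t hs hst hno hQ
    rw [Dv_const hg hζ hs hst]
    · exact hQ
    · intro k
      have := hno (A - c) (by simp) k
      simpa using this
  · intro x hx k _ hev
    simp only [Finset.mem_singleton] at hx
    subst hx
    have := Dv_jump hg hζ A 0 c k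
    simp only [Nat.cast_zero, add_zero] at this
    obtain ⟨s, hs1, hs2⟩ := (hev.and this).exists
    exact hs2.1 hs1

lemma Dv_c0 (A : ℤ) (b : ℕ) (t : ℝ) : Dv ζ A t b 0 := by simp [Dv]

/-- Every growth event eventually happens. -/
lemma Dv_eventually (hg : GoodGap gap) (hζ : IsColoredTASEP gap ζ) (A : ℤ) (b c : ℕ) :
    ∃ t, 0 ≤ t ∧ ∀ t', t ≤ t' → Dv ζ A t' b c := by
  have mono : ∀ b c : ℕ, ∀ s, 0 ≤ s → Dv ζ A s b c → ∀ t', s ≤ t' → Dv ζ A t' b c := by
    intro b c s hs hD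
    refine ring_induction hg {A + b - c} (fun t => Dv ζ A t b c) s hD ?_ ?_
    · intro s' t hs' hst hno hQ
      rw [Dv_const hg hζ (hs.trans hs') hst]
      · exact hQ
      · intro k
        exact hno _ (by simp) k
    · intro x hx k _ hev
      simp only [Finset.mem_singleton] at hx
      subst hx
      obtain ⟨s, hs1, hs2⟩ := (hev.and (Dv_jump hg hζ A b c k)).exists
      exact hs2.1 hs1
  suffices H : ∀ n b c : ℕ, b + c = n → ∃ t, 0 ≤ t ∧ ∀ t', t ≤ t' → Dv ζ A t' b c from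
    H _ b c rfl
  intro n
  induction n with
  | zero =>
    intro b c h
    obtain rfl : c = 0 := by omega
    exact ⟨0, le_rfl, fun t' _ => Dv_c0 A b t'⟩
  | succ n ih =>
    intro b c h
    rcases Nat.eq_zero_or_pos b with rfl | hb
    · exact ⟨0, le_rfl, fun t' ht' => Dv_b0 hg hζ A c ht'⟩
    rcases Nat.eq_zero_or_pos c with rfl | hc
    · exact ⟨0, le_rfl, fun t' _ => Dv_c0 A b t'⟩
    obtain ⟨t1, ht1, H1⟩ := ih (b - 1) c (by omega)
    obtain ⟨t2, ht2, H2⟩ := ih b (c - 1) (by omega)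
    obtain ⟨k, hk⟩ := hg.unb (A + b - c) (max t1 t2)
    have h1 := Dv_jump hg hζ A b c k
    have h2 : Set.Ioo (max t1 t2) (ringTime gap (A + b - c) k) ∈ 𝓝[<] (ringTime gap (A + b - c) k) :=
      Ioo_mem_nhdsLT hk
    obtain ⟨s, hs1, hs2⟩ := (h1.and h2).exists
    have := (hs1.2 hb hc).mpr (Or.inr ⟨H1 s ((le_max_left _ _).trans hs2.1.le),
      H2 s ((le_max_right _ _).trans hs2.1.le)⟩)
    exact ⟨_, (hg.ring_pos _ _).le, mono b c _ (hg.ring_pos _ _).le this⟩

end Pool.Agent.Work.MP_71af4b_pr
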