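import Pool.Agent.Work.MP_71af4b_pr.WordGr

set_option autoImplicit false

namespace Pool.Agent.Work.MP_71af4b_pr

/-- the finite sequence, padded by `0` -/
def pad {n E : ℕ} (ε : Fin n → Fin E) : ℕ → ℕ := fun r => if h : r < n then (ε ⟨r, h⟩ : ℕ) else 0

lemma pad_cons_zero {n E : ℕ} (j : Fin E) (ε : Fin n → Fin E) :
    pad (Fin.cons j ε : Fin (n + 1) → Fin E) 0 = j := by
  simp [pad]

lemma pad_cons_succ {n E : ℕ} (j : Fin E) (ε : Fin n → Fin E) (r : ℕ) :
    pad (Fin.cons j ε : Fin (n + 1) → Fin E) (r + 1) = pad ε r := by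
  unfold pad
  by_cases h : r < n
  · rw [dif_pos h, dif_pos (show r + 1 < n + 1 by omega)]
    rfl
  · rw [dif_neg h, dif_neg (show ¬ r + 1 < n + 1 by omega)]

lemma hist_snoc {α : Type*} (f : ℕ → α) (r : ℕ) :
    hist f (r + 1) = hist (fun i => f (i + 1)) r ++ [f 0] := by
  induction r with
  | zero => rfl
  | succ r ih =>
    show f (r + 1) :: hist f (r + 1) = f (r + 1) :: hist (fun i => f (i + 1)) r ++ [f 0]
    rw [ih, List.cons_append]

lemma hist_map {α β : Type*} (f : α → β) (ε : ℕ → α) (r : ℕ) :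
    hist (fun s => f (ε s)) r = (hist ε r).map f := by
  induction r with
  | zero => rfl
  | succ r ih => simp [hist, ih]

lemma hist_congr {α : Type*} {f f' : ℕ → α} {r : ℕ} (h : ∀ s < r, f s = f' s) :
    hist f r = hist f' r := by
  induction r with
  | zero => rfl
  | succ r ih =>
    simp only [hist]
    rw [h r (by omega), ih (fun s hs => h s (by omega))]

lemma after_append (w : List ℤ) (js : List ℕ) (j : ℕ) :
    after w (js ++ [j]) = after (srt j w) js := by
  simp [after, List.foldr_append]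

lemma after_cons_hist {n E : ℕ} (w : List ℤ) (j : Fin E) (ε : Fin n → Fin E) (r : ℕ) :
    after w (hist (pad (Fin.cons j ε : Fin (n + 1) → Fin E)) (r + 1)) =
      after (srt j w) (hist (pad ε) r) := by
  rw [hist_snoc, after_append, pad_cons_zero]
  congr 2
  funext i
  exact pad_cons_succ j ε i

open Classical in
/-- the edge sequences along which the prescribed events happen -/
noncomputable def CS {β' : Type*} (E : ℕ) (ev : List ℤ → β') (n : ℕ) (Φ : ℕ → β' → Prop)
    (w : List ℤ) : Finset (Fin n → Fin E) :=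
  Finset.univ.filter (fun ε : Fin n → Fin E => ∀ r ≤ n, Φ r (ev (after w (hist (pad ε) r))))

lemma mem_CS {β' : Type*} {E : ℕ} {ev : List ℤ → β'} {n : ℕ} {Φ : ℕ → β' → Prop}
    {w : List ℤ} {ε : Fin n → Fin E} :
    ε ∈ CS E ev n Φ w ↔ ∀ r ≤ n, Φ r (ev (after w (hist (pad ε) r))) := by
  simp [CS]

open Classical in
lemma chainF_card {β' : Type*} (E : ℕ) (ev : List ℤ → β') (n : ℕ) (Φ : ℕ → β' → Prop)
    (w : List ℤ) :
    chainF E ev n (fun r b => if Φ r b then 1 else 0) w = ((CS E ev n Φ w).card : ℤ) := by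
  unfold CS
  induction n generalizing Φ w with
  | zero =>
    simp only [chainF, Nat.le_zero, forall_eq, hist, after, List.foldr_nil]
    split_ifs with h
    · simp [h]
    · simp [h]
  | succ n ih =>
    simp only [chainF]
    rw [Finset.card_filter]
    push_cast
    rw [← (Fin.consEquiv (fun _ : Fin (n + 1) => Fin E)).sum_comp, Fintype.sum_prod_type]
    rw [Finset.mul_sum, ← Fin.sum_univ_eq_sum_range (fun j =>
      (if Φ 0 (ev w) then (1 : ℤ) else 0) *
        chainF E ev n (fun r b => if Φ (r + 1) b then 1 else 0) (srt j w)) E]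
    refine Finset.sum_congr rfl fun j _ => ?_
    rw [ih (fun r => Φ (r + 1)), Finset.card_filter]
    push_cast
    rw [Finset.mul_sum]
    refine Finset.sum_congr rfl fun ε _ => ?_
    have hiff : (∀ r ≤ n + 1, Φ r (ev (after w (hist (pad
        ((Fin.consEquiv (fun _ : Fin (n + 1) => Fin E)) (j, ε))) r)))) ↔
        (Φ 0 (ev w) ∧ ∀ r ≤ n, Φ (r + 1) (ev (after (srt j w) (hist (pad ε) r)))) := by
      constructor
      · intro h
        refine ⟨h 0 (by omega), fun r hr => ?_⟩
        have := h (r + 1) (by omega)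
        have e := after_cons_hist w j ε r
        have e2 : (Fin.consEquiv (fun _ : Fin (n + 1) => Fin E)) (j, ε) =
          (Fin.cons j ε : Fin (n + 1) → Fin E) := rfl
        rw [e2, e] at this
        exact this
      · rintro ⟨h0, h⟩ r hr
        cases r with
        | zero => exact h0
        | succ r =>
          have e := after_cons_hist w j ε r
          have e2 : (Fin.consEquiv (fun _ : Fin (n + 1) => Fin E)) (j, ε) =
            (Fin.cons j ε : Fin (n + 1) → Fin E) := rfl
          rw [e2, e]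
          exact h r (by omega)
    by_cases h0 : Φ 0 (ev w)
    · by_cases h1 : ∀ r ≤ n, Φ (r + 1) (ev (after (srt j w) (hist (pad ε) r)))
      · rw [if_pos h0, if_pos h1, if_pos (hiff.mpr ⟨h0, h1⟩)]; ring
      · rw [if_pos h0, if_neg h1, if_neg (fun h => h1 (hiff.mp h).2)]; ring
    · rw [if_neg h0, if_neg (fun h => h0 (hiff.mp h).1)]; ring

/-! ### Initial counts -/

lemma cntD_append (thr : ℤ) (u v : List ℤ) (k : ℕ) :
    cntD thr (u ++ v) k = cntD thr u k + cntD thr v (k - u.length) := by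
  rw [cntD, List.drop_append, List.countP_append, cntD, cntD]

lemma cntT_append (thr : ℤ) (u v : List ℤ) (k : ℕ) :
    cntT thr (u ++ v) k = cntT thr u k + cntT thr v (k - u.length) := by
  rw [cntT, List.take_append, List.countP_append, cntT, cntT]

lemma cntD_replicate {thr : ℤ} (h : thr < 0) (α k : ℕ) : cntD thr (List.replicate α 0) k = 0 := by
  rw [cntD, List.countP_eq_zero]
  intro a ha
  have := List.eq_of_mem_replicate (List.mem_of_mem_drop ha)
  simp [this, h]

lemma cntT_replicate {thr : ℤ} (h : 0 ≤ thr) (α k : ℕ) : cntT thr (List.replicate α 0) k = 0 := by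
  rw [cntT, List.countP_eq_zero]
  intro a ha
  have := List.eq_of_mem_replicate (List.mem_of_mem_take ha)
  simp [this, h]

lemma cntD_iv (thr s : ℤ) (n k : ℕ) :
    cntD thr (iv s n) k = min (n - k) (thr + 1 - (s + k)).toNat := by
  rw [cntD, iv_drop, iv_countP_le]

lemma cntT_iv (thr s : ℤ) (n k : ℕ) :
    cntT thr (iv s n) k = min (min k n) (s + (min k n : ℕ) - thr - 1).toNat := by
  rw [cntT, iv_take, iv_countP_gt]

lemma w1_eq (α m n β : ℕ) : w1 α m n β =
    List.replicate (α + 1) 0 ++ (iv (-m) m ++ (iv 1 n ++ List.replicate (β + 1) 0)) := by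
  rw [w1, P0, H0, List.replicate_succ']
  simp [List.replicate_succ]

lemma w2_eq (α m n β : ℕ) : w2 α m n β =
    List.replicate α 0 ++ (iv (-m) m ++ (List.replicate 1 0 ++ (iv 1 n ++ List.replicate β 0))) := by
  rw [w2, P0, H0]
  simp

lemma cntD_w1 {thr : ℤ} (h : thr < 0) (α m n β k : ℕ) :
    cntD thr (w1 α m n β) k = min (m - (k - (α + 1))) (thr + 1 + m - (k - (α + 1) : ℕ)).toNat := by
  rw [w1_eq, cntD_append, cntD_append, cntD_append, cntD_replicate h, cntD_replicate h, cntD_iv,
    cntD_iv, List.length_replicate, iv_length]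
  omega

lemma cntD_w2 {thr : ℤ} (h : thr < 0) (α m n β k : ℕ) :
    cntD thr (w2 α m n β) k = min (m - (k - α)) (thr + 1 + m - (k - α : ℕ)).toNat := by
  rw [w2_eq, cntD_append, cntD_append, cntD_append, cntD_append, cntD_replicate h,
    cntD_replicate h, cntD_replicate h, cntD_iv, cntD_iv, List.length_replicate, iv_length]
  omega

lemma cntT_w1 {thr : ℤ} (h : 0 ≤ thr) (α m n β k : ℕ) :
    cntT thr (w1 α m n β) k = (min (k - (α + 1 + m)) n : ℕ) - thr.toNat := by
  rw [w1_eq, cntT_append, cntT_append, cntT_append, cntT_replicate h, cntT_replicate h, cntT_iv,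
    cntT_iv, List.length_replicate, iv_length]
  omega

lemma cntT_w2 {thr : ℤ} (h : 0 ≤ thr) (α m n β k : ℕ) :
    cntT thr (w2 α m n β) k = (min (k - (α + m + 1)) n : ℕ) - thr.toNat := by
  rw [w2_eq, cntT_append, cntT_append, cntT_append, cntT_append, cntT_replicate h,
    cntT_replicate h, cntT_replicate h, cntT_iv, cntT_iv, List.length_replicate, iv_length,
    List.length_replicate]
  omega

/-! ### The growth rule only depends on the relevant edges -/

lemma gr_congr {A : ℤ} {B C : ℕ} {ε ε' : ℕ → ℤ} {n : ℕ}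
    (h : ∀ s < n, ∀ b c : ℕ, 1 ≤ b → b ≤ B → 1 ≤ c → c ≤ C →
      (A + b - c = ε s ↔ A + b - c = ε' s)) :
    ∀ b c : ℕ, b ≤ B → c ≤ C → (gr A (hist ε n) b c ↔ gr A (hist ε' n) b c) := by
  induction n with
  | zero => intro b c _ _; rfl
  | succ n ih =>
    have ih' := ih (fun s hs => h s (by omega))
    intro b c hb hc
    show (gr A (hist ε n) b c ∨ (A + b - c = ε n ∧ 1 ≤ b ∧ 1 ≤ c ∧ gr A (hist ε n) (b - 1) c ∧
      gr A (hist ε n) b (c - 1))) ↔ (gr A (hist ε' n) b c ∨ (A + b - c = ε' n ∧ 1 ≤ b ∧ 1 ≤ c ∧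
      gr A (hist ε' n) (b - 1) c ∧ gr A (hist ε' n) b (c - 1)))
    rw [ih' b c hb hc, ih' (b - 1) c (by omega) hc, ih' b (c - 1) hb (by omega)]
    by_cases hb1 : 1 ≤ b
    · by_cases hc1 : 1 ≤ c
      · rw [h n (by omega) b c hb1 hb hc1 hc]
      · simp [hc1]
    · simp [hb1]

end Pool.Agent.Work.MP_71af4b_pr
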