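import Pool.Agent.Work.MP_71af4b_pr.Chain
import Pool.Agent.Work.MP_71af4b_pr.Merge

set_option autoImplicit false

namespace Pool.Agent.Work.MP_71af4b_pr

/-! ### Counting letters -/

/-- number of letters `≤ thr` from position `k` on -/
def cntD (thr : ℤ) (w : List ℤ) (k : ℕ) : ℕ := (w.drop k).countP (fun y => decide (y ≤ thr))

/-- number of letters `> thr` among the first `k` letters -/
def cntT (thr : ℤ) (w : List ℤ) (k : ℕ) : ℕ := (w.take k).countP (fun y => decide (thr < y))

lemma split_at {w : List ℤ} {j : ℕ} (hj : j + 1 < w.length) :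
    ∃ u x y v, w = u ++ x :: y :: v ∧ u.length = j := by
  refine ⟨w.take j, w[j], w[j + 1], w.drop (j + 2), ?_, by simp; omega⟩
  rw [← List.drop_eq_getElem_cons, ← List.drop_eq_getElem_cons, List.take_append_drop]

lemma srt_split {u v : List ℤ} {x y : ℤ} :
    srt u.length (u ++ x :: y :: v) = u ++ max x y :: min x y :: v := by
  have := srt_append_right 0 u (x :: y :: v)
  simpa using this

lemma srt_take_lt (i k : ℕ) (w : List ℤ) (h : k ≤ i) : (srt i w).take k = w.take k := by
  induction k generalizing i w with
  | zero => simp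
  | succ k ih =>
    obtain ⟨m, rfl⟩ : ∃ m, i = m + 1 := ⟨i - 1, by omega⟩
    match w with
    | [] => simp
    | a :: l => simp [ih m l (by omega)]

lemma srt_take_ge (i k : ℕ) (w : List ℤ) (h : i + 2 ≤ k) : (srt i w).take k = srt i (w.take k) := by
  induction i generalizing k w with
  | zero =>
    obtain ⟨m, rfl⟩ : ∃ m, k = m + 2 := ⟨k - 2, by omega⟩
    match w with
    | [] => simp
    | [a] => simp
    | a :: b :: l => simp
  | succ i ih =>
    obtain ⟨m, rfl⟩ : ∃ m, k = m + 1 := ⟨k - 1, by omega⟩
    match w with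
    | [] => simp
    | a :: l => simp [ih m l (by omega)]

lemma cntD_srt_ne (thr : ℤ) (w : List ℤ) {j k : ℕ} (h : k ≠ j + 1) :
    cntD thr (srt j w) k = cntD thr w k := by
  unfold cntD
  rcases Nat.lt_or_ge j k with h1 | h1
  · rw [srt_drop_ge j k w (by omega)]
  · obtain ⟨i, rfl⟩ : ∃ i, j = k + i := ⟨j - k, by omega⟩
    rw [srt_drop_le]
    exact (srt_perm i _).countP_eq _

lemma cntT_srt_ne (thr : ℤ) (w : List ℤ) {j k : ℕ} (h : k ≠ j + 1) :
    cntT thr (srt j w) k = cntT thr w k := by
  unfold cntT
  rcases Nat.lt_or_ge j k with h1 | h1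
  · rw [srt_take_ge j k w (by omega)]
    exact (srt_perm j _).countP_eq _
  · rw [srt_take_lt j k w h1]

lemma cntD_srt_eq (thr : ℤ) (w : List ℤ) {j : ℕ} (hj : j + 1 < w.length) (c : ℕ) :
    (c ≤ cntD thr w (j + 1) → c ≤ cntD thr (srt j w) (j + 1)) ∧
    (1 ≤ c → (c ≤ cntD thr (srt j w) (j + 1) ↔
      c ≤ cntD thr w (j + 1) ∨ (c ≤ cntD thr w j ∧ c - 1 ≤ cntD thr w (j + 2)))) := by
  obtain ⟨u, x, y, v, rfl, rfl⟩ := split_at hj
  rw [srt_split]
  have e1 : ∀ a b : ℤ, (u ++ a :: b :: v).drop (u.length + 1) = b :: v := by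
    intro a b
    rw [← List.drop_drop, List.drop_left]; rfl
  have e2 : (u ++ x :: y :: v).drop u.length = x :: y :: v := List.drop_left
  have e3 : (u ++ x :: y :: v).drop (u.length + 2) = v := by
    rw [← List.drop_drop, List.drop_left]; rfl
  unfold cntD
  rw [e1, e1, e2, e3]
  simp only [List.countP_cons, decide_eq_true_eq]
  constructor
  · intro h
    by_cases hy : y ≤ thr
    · have : min x y ≤ thr := (min_le_right _ _).trans hy
      simp only [hy, this, if_true] at h ⊢; omega
    · simp only [hy, if_false] at h ⊢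
      split_ifs <;> omega
  · intro hc
    by_cases hx : x ≤ thr <;> by_cases hy : y ≤ thr
    · have : min x y ≤ thr := (min_le_right _ _).trans hy
      simp only [hx, hy, this, if_true]; omega
    · have : min x y ≤ thr := (min_le_left _ _).trans hx
      simp only [hx, hy, this, if_true, if_false]; omega
    · have : min x y ≤ thr := (min_le_right _ _).trans hy
      simp only [hx, hy, this, if_true, if_false]; omega
    · have : ¬ min x y ≤ thr := by rw [min_le_iff]; tauto
      simp only [hx, hy, this, if_false]; omega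

lemma cntT_srt_eq (thr : ℤ) (w : List ℤ) {j : ℕ} (hj : j + 1 < w.length) (b : ℕ) :
    (b ≤ cntT thr w (j + 1) → b ≤ cntT thr (srt j w) (j + 1)) ∧
    (1 ≤ b → (b ≤ cntT thr (srt j w) (j + 1) ↔
      b ≤ cntT thr w (j + 1) ∨ (b - 1 ≤ cntT thr w j ∧ b ≤ cntT thr w (j + 2)))) := by
  obtain ⟨u, x, y, v, rfl, rfl⟩ := split_at hj
  rw [srt_split]
  have e1 : ∀ a b : ℤ, (u ++ a :: b :: v).take (u.length + 1) = u ++ [a] := by
    intro a b
    rw [List.take_length_add_append]; rfl
  have e2 : (u ++ x :: y :: v).take u.length = u := List.take_left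
  have e3 : (u ++ x :: y :: v).take (u.length + 2) = u ++ [x, y] := by
    rw [List.take_length_add_append]; rfl
  unfold cntT
  rw [e1, e1, e2, e3]
  simp only [List.countP_append, List.countP_cons, List.countP_nil, decide_eq_true_eq, zero_add]
  constructor
  · intro h
    by_cases hx : thr < x
    · have : thr < max x y := lt_max_of_lt_left hx
      simp only [hx, this, if_true] at h ⊢; omega
    · simp only [hx, if_false] at h ⊢
      split_ifs <;> omega
  · intro hc
    by_cases hx : thr < x <;> by_cases hy : thr < y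
    · have : thr < max x y := lt_max_of_lt_left hx
      simp only [hx, hy, this, if_true]; omega
    · have : thr < max x y := lt_max_of_lt_left hx
      simp only [hx, hy, this, if_true, if_false]; omega
    · have : thr < max x y := lt_max_of_lt_right hy
      simp only [hx, hy, this, if_true, if_false]; omega
    · have : ¬ thr < max x y := by rw [lt_max_iff]; tauto
      simp only [hx, hy, this, if_false]; omega

/-- the word after sorting at the positions of the list (most recent position first) -/
def after (w : List ℤ) (js : List ℕ) : List ℤ := js.foldr srt w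

@[simp] lemma after_length (w : List ℤ) (js : List ℕ) : (after w js).length = w.length := by
  induction js with
  | nil => rfl
  | cons j js ih => simp only [after, List.foldr_cons, srt_length] at ih ⊢; exact ih

/-- left-type events and the growth rule -/
lemma grL (w0 : List ℤ) (l A : ℤ) (B C : ℕ) (thr : ℤ) (hl : l ≤ A + 1 - C)
    (hr : A + B + 1 ≤ l + w0.length)
    (hinit : ∀ b c : ℕ, b ≤ B → c ≤ C →
      (c ≤ cntD thr w0 (A + b + 1 - c - l).toNat ↔ b = 0 ∨ c = 0)) (js : List ℕ) :
    ∀ b c : ℕ, b ≤ B → c ≤ C →
      (c ≤ cntD thr (after w0 js) (A + b + 1 - c - l).toNat ↔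
        gr A (js.map (fun j : ℕ => l + (j : ℤ))) b c) := by
  induction js with
  | nil => exact hinit
  | cons j js ih =>
    intro b c hb hc
    have hlen : (after w0 js).length = w0.length := after_length w0 js
    show c ≤ cntD thr (srt j (after w0 js)) _ ↔ (gr A (js.map (fun j : ℕ => l + (j : ℤ))) b c ∨
      (A + b - c = l + (j : ℤ) ∧ 1 ≤ b ∧ 1 ≤ c ∧ gr A (js.map (fun j : ℕ => l + (j : ℤ))) (b - 1) c ∧
        gr A (js.map (fun j : ℕ => l + (j : ℤ))) b (c - 1)))
    by_cases hk : (A + b + 1 - c - l).toNat = j + 1
    · by_cases hj : j + 1 < w0.length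
      · have hstep := cntD_srt_eq thr (after w0 js) (j := j) (by omega) c
        rcases Nat.eq_zero_or_pos c with rfl | hc1
        · simp [gr_c0]
        rcases Nat.eq_zero_or_pos b with rfl | hb1
        · simp only [gr_b0, true_or, iff_true]
          rw [hk]
          apply hstep.1
          have := (ih 0 c hb hc).mpr (gr_b0 _ _ _)
          rwa [hk] at this
        · have h1 := ih b c hb hc
          have h2 := ih (b - 1) c (by omega) hc
          have h3 := ih b (c - 1) hb (by omega)
          rw [hk] at h1 ⊢
          rw [show (A + ((b - 1 : ℕ) : ℤ) + 1 - c - l).toNat = j by omega] at h2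
          rw [show (A + (b : ℤ) + 1 - ((c - 1 : ℕ) : ℤ) - l).toNat = j + 2 by omega] at h3
          rw [hstep.2 hc1, h1, h2, h3]
          have he : A + (b : ℤ) - c = l + (j : ℤ) := by omega
          simp only [he, true_and]
          constructor
          · rintro (h | ⟨h, h'⟩)
            · exact Or.inl h
            · exact Or.inr ⟨hb1, hc1, h, h'⟩
          · rintro (h | ⟨_, _, h, h'⟩)
            · exact Or.inl h
            · exact Or.inr ⟨h, h'⟩
      · rw [srt_of_length_le (by omega), ih b c hb hc]
        constructor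
        · exact Or.inl
        · rintro (h | ⟨h, _, _, _, _⟩)
          · exact h
          · exfalso; omega
    · rw [cntD_srt_ne thr _ hk, ih b c hb hc]
      constructor
      · exact Or.inl
      · rintro (h | ⟨h, _, _, _, _⟩)
        · exact h
        · exfalso; omega

/-- right-type events and the growth rule -/
lemma grR (w0 : List ℤ) (l A : ℤ) (B C : ℕ) (thr : ℤ) (hl : l ≤ A + 1 - C)
    (hr : A + B + 1 ≤ l + w0.length)
    (hinit : ∀ b c : ℕ, b ≤ B → c ≤ C →
      (b ≤ cntT thr w0 (A + b + 1 - c - l).toNat ↔ b = 0 ∨ c = 0)) (js : List ℕ) :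
    ∀ b c : ℕ, b ≤ B → c ≤ C →
      (b ≤ cntT thr (after w0 js) (A + b + 1 - c - l).toNat ↔
        gr A (js.map (fun j : ℕ => l + (j : ℤ))) b c) := by
  induction js with
  | nil => exact hinit
  | cons j js ih =>
    intro b c hb hc
    have hlen : (after w0 js).length = w0.length := after_length w0 js
    show b ≤ cntT thr (srt j (after w0 js)) _ ↔ (gr A (js.map (fun j : ℕ => l + (j : ℤ))) b c ∨
      (A + b - c = l + (j : ℤ) ∧ 1 ≤ b ∧ 1 ≤ c ∧ gr A (js.map (fun j : ℕ => l + (j : ℤ))) (b - 1) c ∧
        gr A (js.map (fun j : ℕ => l + (j : ℤ))) b (c - 1)))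
    by_cases hk : (A + b + 1 - c - l).toNat = j + 1
    · by_cases hj : j + 1 < w0.length
      · have hstep := cntT_srt_eq thr (after w0 js) (j := j) (by omega) b
        rcases Nat.eq_zero_or_pos b with rfl | hb1
        · simp [gr_b0]
        rcases Nat.eq_zero_or_pos c with rfl | hc1
        · simp only [gr_c0, true_or, iff_true]
          rw [hk]
          apply hstep.1
          have := (ih b 0 hb hc).mpr (gr_c0 _ _ _)
          rwa [hk] at this
        · have h1 := ih b c hb hc
          have h2 := ih (b - 1) c (by omega) hc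
          have h3 := ih b (c - 1) hb (by omega)
          rw [hk] at h1 ⊢
          rw [show (A + ((b - 1 : ℕ) : ℤ) + 1 - c - l).toNat = j by omega] at h2
          rw [show (A + (b : ℤ) + 1 - ((c - 1 : ℕ) : ℤ) - l).toNat = j + 2 by omega] at h3
          rw [hstep.2 hb1, h1, h2, h3]
          have he : A + (b : ℤ) - c = l + (j : ℤ) := by omega
          simp only [he, true_and]
          constructor
          · rintro (h | ⟨h, h'⟩)
            · exact Or.inl h
            · exact Or.inr ⟨hb1, hc1, h, h'⟩
          · rintro (h | ⟨_, _, h, h'⟩)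
            · exact Or.inl h
            · exact Or.inr ⟨h, h'⟩
      · rw [srt_of_length_le (by omega), ih b c hb hc]
        constructor
        · exact Or.inl
        · rintro (h | ⟨h, _, _, _, _⟩)
          · exact h
          · exfalso; omega
    · rw [cntT_srt_ne thr _ hk, ih b c hb hc]
      constructor
      · exact Or.inl
      · rintro (h | ⟨h, _, _, _, _⟩)
        · exact h
        · exfalso; omega

/-! ### The initial words -/

/-- `s, s+1, …, s+n-1` -/
def iv : ℤ → ℕ → List ℤ
  | _, 0 => []
  | s, n + 1 => s :: iv (s + 1) n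

@[simp] lemma iv_length (s : ℤ) (n : ℕ) : (iv s n).length = n := by
  induction n generalizing s with
  | zero => rfl
  | succ n ih => simp [iv, ih]

lemma iv_mem {s : ℤ} {n : ℕ} {y : ℤ} : y ∈ iv s n ↔ s ≤ y ∧ y < s + n := by
  induction n generalizing s with
  | zero => simp [iv]
  | succ n ih =>
    simp only [iv, List.mem_cons, ih]
    push_cast
    omega

lemma iv_drop (s : ℤ) (n i : ℕ) : (iv s n).drop i = iv (s + i) (n - i) := by
  induction i generalizing s n with
  | zero => simp
  | succ i ih =>
    cases n with
    | zero => simp [iv]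
    | succ n =>
      simp only [iv, List.drop_succ_cons, ih]
      congr 1
      · push_cast; ring
      · omega

lemma iv_take (s : ℤ) (n i : ℕ) : (iv s n).take i = iv s (min i n) := by
  induction i generalizing s n with
  | zero => simp [iv]
  | succ i ih =>
    cases n with
    | zero => simp [iv]
    | succ n =>
      rw [show min (i + 1) (n + 1) = min i n + 1 by omega]
      simp only [iv, List.take_succ_cons, ih]

lemma iv_countP_le (s : ℤ) (n : ℕ) (thr : ℤ) :
    (iv s n).countP (fun y => decide (y ≤ thr)) = min n (thr + 1 - s).toNat := by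
  induction n generalizing s with
  | zero => simp [iv]
  | succ n ih =>
    simp only [iv, List.countP_cons, ih, decide_eq_true_eq]
    split_ifs <;> omega

lemma iv_countP_gt (s : ℤ) (n : ℕ) (thr : ℤ) :
    (iv s n).countP (fun y => decide (thr < y)) = min n (s + n - thr - 1).toNat := by
  induction n generalizing s with
  | zero => simp [iv]
  | succ n ih =>
    simp only [iv, List.countP_cons, ih, decide_eq_true_eq]
    push_cast
    split_ifs <;> omega

/-- particles `-m, …, -1` -/
def P0 (m : ℕ) : List ℤ := iv (-m) m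
/-- holes `1, …, n` -/
def H0 (n : ℕ) : List ℤ := iv 1 n

/-- the initial word before the shift -/
def w1 (α m n β : ℕ) : List ℤ :=
  List.replicate α 0 ++ 0 :: ((P0 m ++ H0 n) ++ 0 :: List.replicate β 0)

/-- the initial word after the shift -/
def w2 (α m n β : ℕ) : List ℤ := List.replicate α 0 ++ (P0 m ++ 0 :: H0 n) ++ List.replicate β 0

lemma w1_length (α m n β : ℕ) : (w1 α m n β).length = α + m + n + β + 2 := by
  simp [w1, P0, H0]; ring

lemma w2_length (α m n β : ℕ) : (w2 α m n β).length = α + m + n + β + 1 := by
  simp [w2, P0, H0]; ring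

lemma lam_init (P H Q K : List ℤ) (hQ : ∀ q ∈ Q, q < 0) (hK : ∀ k ∈ K, 0 < k) :
    lam P [] (Q ++ K) = Finsupp.single (P ++ Q ++ 0 :: K) 1 ∧
      lam P H K = Finsupp.single (P ++ 0 :: (H ++ K)) 1 := by
  have h2 : ∀ (P H K : List ℤ), (∀ k ∈ K, 0 < k) → lam P H K = Finsupp.single (P ++ 0 :: (H ++ K)) 1 := by
    intro P H K hK
    induction K generalizing H with
    | nil => simp [lam_nil]
    | cons k K ih =>
      rw [lam_pos _ _ _ (hK k (by simp)), ih _ (fun x hx => hK x (by simp [hx]))]
      simp
  refine ⟨?_, h2 P H K hK⟩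
  induction Q generalizing P with
  | nil => rw [List.nil_append, h2 P [] K hK]; simp
  | cons q Q ih =>
    rw [List.cons_append, lam_neg _ _ _ (hQ q (by simp)), List.length_nil]
    show lam (P ++ [q]) [] (Q ++ K) = _
    rw [ih (P ++ [q]) (fun x hx => hQ x (by simp [hx]))]
    simp

lemma Lw_init (m n : ℕ) : Lw (P0 m ++ H0 n) = Finsupp.single (P0 m ++ 0 :: H0 n) 1 := by
  have := (lam_init [] [] (P0 m) (H0 n) (by
    intro q hq
    rw [P0, iv_mem] at hq
    omega) (by
    intro q hq
    rw [H0, iv_mem] at hq
    omega)).1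
  simpa [Lw] using this

theorem chain_eq {β' : Type*} {α β : ℕ} (ev : List ℤ → β') (hev : Compat α β ev) (m n N : ℕ)
    (φ : ℕ → β' → ℤ) :
    chainF (α + m + n + β + 1) ev N φ (w1 α m n β) = chainF (α + m + n + β + 1) ev N φ (w2 α m n β) := by
  have := chain_intertwine ev hev (α + m + n + β + 1) N φ (List.replicate α 0) (P0 m ++ H0 n)
    (List.replicate β 0) ⟨by
      intro a ha
      rw [List.eq_of_mem_replicate ha], by simp, by
      intro a ha
      rw [List.eq_of_mem_replicate ha], by simp⟩ (by
      intro c hc
      simp only [List.mem_append, P0, H0, iv_mem] at hc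
      omega) (by simp [P0, H0]; ring)
  rw [Lw_init, ext_single, one_mul] at this
  exact this

/-! ### Compatibility of the events -/

/-- left-type event -/
def evL (d : ℕ) (thr : ℤ) (C : ℕ) (w : List ℤ) : Prop := C ≤ cntD thr w (w.length - d)

/-- right-type event -/
def evR (d : ℕ) (thr : ℤ) (B : ℕ) (w : List ℤ) : Prop := B ≤ cntT thr w d

lemma count_last_le (X Lr : List ℤ) (z thr : ℤ) (hz : thr < z) (d : ℕ) (hd : Lr.length < d) :
    cntD thr (X ++ z :: Lr) ((X ++ z :: Lr).length - d) + Lr.length + 1 ≤
      d + Lr.countP (fun y => decide (y ≤ thr)) := by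
  unfold cntD
  have hlen : (X ++ z :: Lr).length = X.length + Lr.length + 1 := by simp; ring
  have hz' : ¬ z ≤ thr := not_le.mpr hz
  rw [List.drop_append_of_le_length (by omega), List.countP_append, List.countP_cons]
  have h1 : (List.drop ((X ++ z :: Lr).length - d) X).countP (fun y => decide (y ≤ thr)) ≤
      (List.drop ((X ++ z :: Lr).length - d) X).length := List.countP_le_length
  rw [List.length_drop] at h1
  simp only [hz', decide_false, Bool.false_eq_true, if_false]
  omega

lemma count_first_le (X Rr : List ℤ) (z thr : ℤ) (hz : z ≤ thr) (d : ℕ) (hd : Rr.length < d) :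
    cntT thr (Rr ++ z :: X) d + Rr.length + 1 ≤
      d + Rr.countP (fun y => decide (thr < y)) := by
  unfold cntT
  have hz' : ¬ thr < z := not_lt.mpr hz
  obtain ⟨e, rfl⟩ : ∃ e, d = Rr.length + (e + 1) := ⟨d - Rr.length - 1, by omega⟩
  rw [List.take_length_add_append, List.take_succ_cons, List.countP_append, List.countP_cons]
  have h1 : (List.take e X).countP (fun y => decide (thr < y)) ≤ (List.take e X).length :=
    List.countP_le_length
  rw [List.length_take] at h1
  simp only [hz', decide_false, Bool.false_eq_true, if_false]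
  omega

lemma countP_le_of_count {Lr : List ℤ} {thr : ℤ} (hthr : thr < 0) :
    Lr.countP (fun y => decide (y ≤ thr)) + Lr.count 0 ≤ Lr.length := by
  induction Lr with
  | nil => simp
  | cons a L ih =>
    rw [List.countP_cons, List.count_cons, List.length_cons]
    by_cases h1 : a ≤ thr
    · have h2 : ¬ (a == 0) = true := by simp; omega
      simp only [h1, h2, decide_true, if_true]
      simp; omega
    · simp only [h1, decide_false, Bool.false_eq_true, if_false]
      split_ifs <;> omega

lemma countP_gt_of_count {Rr : List ℤ} {thr : ℤ} (hthr : 0 ≤ thr) :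
    Rr.countP (fun y => decide (thr < y)) + Rr.count 0 ≤ Rr.length := by
  induction Rr with
  | nil => simp
  | cons a L ih =>
    rw [List.countP_cons, List.count_cons, List.length_cons]
    by_cases h1 : thr < a
    · have h2 : ¬ (a == 0) = true := by simp; omega
      simp only [h1, h2, decide_true, if_true]
      simp; omega
    · simp only [h1, decide_false, Bool.false_eq_true, if_false]
      split_ifs <;> omega

lemma compat_evL {α β : ℕ} {d : ℕ} {thr : ℤ} {C : ℕ} (hthr : thr < 0) (hd : d ≤ β + C) :
    Compat α β (evL d thr C) := by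
  intro Rr W Lr V hO hW hV1 hV2 hV3
  have hV1' : V.length = W.length + 1 := hV1
  unfold evL
  rcases Nat.lt_or_ge Lr.length d with h | h
  · -- both false
    have hc := countP_le_of_count (Lr := Lr) hthr
    rw [hO.lcount] at hc
    have h1 := count_last_le (Rr ++ 0 :: W) Lr 0 thr hthr d h
    rw [show Rr ++ 0 :: W ++ 0 :: Lr = Rr ++ 0 :: (W ++ 0 :: Lr) by simp] at h1
    obtain ⟨V', z, rfl⟩ : ∃ V' z, V = V' ++ [z] := by
      rcases List.eq_nil_or_concat V with rfl | ⟨V', z, rfl⟩
      · simp at hV1'
      · exact ⟨V', z, by simp⟩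
    have hz : 0 ≤ z := by
      apply hV3
      have : W.length = V'.length := by simp at hV1'; omega
      rw [this, List.drop_left]
      simp
    have h2 := count_last_le (Rr ++ V') Lr z thr (by omega) d h
    rw [show Rr ++ V' ++ z :: Lr = Rr ++ (V' ++ [z]) ++ Lr by simp] at h2
    apply propext
    constructor
    · intro h3; exfalso; omega
    · intro h3; exfalso; omega
  · have e1 : cntD thr (Rr ++ 0 :: (W ++ 0 :: Lr)) ((Rr ++ 0 :: (W ++ 0 :: Lr)).length - d) =
        (Lr.drop (Lr.length - d)).countP (fun y => decide (y ≤ thr)) := by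
      unfold cntD
      have : Rr ++ 0 :: (W ++ 0 :: Lr) = (Rr ++ 0 :: (W ++ [0])) ++ Lr := by simp
      rw [this]
      generalize (Rr ++ 0 :: (W ++ [0])) = X
      rw [List.length_append, show X.length + Lr.length - d = X.length + (Lr.length - d) by omega,
        List.drop_length_add_append]
    have e2 : cntD thr (Rr ++ V ++ Lr) ((Rr ++ V ++ Lr).length - d) =
        (Lr.drop (Lr.length - d)).countP (fun y => decide (y ≤ thr)) := by
      unfold cntD
      rw [List.length_append, show (Rr ++ V).length + Lr.length - d =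
        (Rr ++ V).length + (Lr.length - d) by omega, List.drop_length_add_append]
    rw [e1, e2]

lemma compat_evR {α β : ℕ} {d : ℕ} {thr : ℤ} {B : ℕ} (hthr : 0 ≤ thr) (hd : d ≤ α + B) :
    Compat α β (evR d thr B) := by
  intro Rr W Lr V hO hW hV1 hV2 hV3
  have hV1' : V.length = W.length + 1 := hV1
  unfold evR
  rcases Nat.lt_or_ge Rr.length d with h | h
  · have hc := countP_gt_of_count (Rr := Rr) hthr
    rw [hO.rcount] at hc
    have h1 := count_first_le (W ++ 0 :: Lr) Rr 0 thr hthr d h
    obtain ⟨z, V', rfl, hz⟩ := hV2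
    have h2 := count_first_le (V' ++ Lr) Rr z thr (hz.trans hthr) d h
    rw [show Rr ++ z :: (V' ++ Lr) = Rr ++ z :: V' ++ Lr by simp] at h2
    apply propext
    constructor
    · intro h3; exfalso; omega
    · intro h3; exfalso; omega
  · have e1 : cntT thr (Rr ++ 0 :: (W ++ 0 :: Lr)) d =
        (Rr.take d).countP (fun y => decide (thr < y)) := by
      unfold cntT
      rw [List.take_append_of_le_length h]
    have e2 : cntT thr (Rr ++ V ++ Lr) d = (Rr.take d).countP (fun y => decide (thr < y)) := by
      unfold cntT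
      rw [List.append_assoc, List.take_append_of_le_length h]
    rw [e1, e2]

end Pool.Agent.Work.MP_71af4b_pr
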