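import Pool.Agent.Work.MP_71af4b_pr.Hecke

set_option autoImplicit false

namespace Pool.Agent.Work.MP_71af4b_pr

/-! ### Sorting two adjacent letters of a word -/

/-- Sort the letters at positions `i, i+1` (counted from `0`) in descending order. -/
def srt : ℕ → List ℤ → List ℤ
  | 0, a :: b :: l => max a b :: min a b :: l
  | (i + 1), a :: l => a :: srt i l
  | 0, l => l
  | (_ + 1), [] => []

@[simp] lemma srt_nil (i : ℕ) : srt i [] = [] := by cases i <;> rfl
@[simp] lemma srt_zero_cons_cons (a b : ℤ) (l : List ℤ) :
    srt 0 (a :: b :: l) = max a b :: min a b :: l := rfl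
@[simp] lemma srt_zero_single (a : ℤ) : srt 0 [a] = [a] := rfl
@[simp] lemma srt_succ_cons (i : ℕ) (a : ℤ) (l : List ℤ) : srt (i + 1) (a :: l) = a :: srt i l := rfl

@[simp] lemma srt_length (i : ℕ) (l : List ℤ) : (srt i l).length = l.length := by
  induction i generalizing l with
  | zero =>
    match l with
    | [] => rfl
    | [a] => rfl
    | a :: b :: l => rfl
  | succ i ih =>
    match l with
    | [] => rfl
    | a :: l => simp [ih]

lemma srt_idem (i : ℕ) (l : List ℤ) : srt i (srt i l) = srt i l := by
  induction i generalizing l with
  | zero =>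
    match l with
    | [] => rfl
    | [a] => rfl
    | a :: b :: l =>
      rcases le_total a b with h | h <;> simp [h]
  | succ i ih =>
    match l with
    | [] => rfl
    | a :: l => simp [ih]

lemma srt_comm (i j : ℕ) (l : List ℤ) (hij : i + 2 ≤ j) : srt i (srt j l) = srt j (srt i l) := by
  induction i generalizing l j with
  | zero =>
    obtain ⟨k, rfl⟩ : ∃ k, j = k + 2 := ⟨j - 2, by omega⟩
    match l with
    | [] => simp
    | [a] => simp
    | a :: b :: l => simp
  | succ i ih =>
    obtain ⟨k, rfl⟩ : ∃ k, j = k + 1 := ⟨j - 1, by omega⟩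
    match l with
    | [] => simp
    | a :: l => simp [ih k l (by omega)]

lemma srt_braid (i : ℕ) (l : List ℤ) :
    srt i (srt (i + 1) (srt i l)) = srt (i + 1) (srt i (srt (i + 1) l)) := by
  induction i generalizing l with
  | zero =>
    match l with
    | [] => simp
    | [a] => simp
    | [a, b] =>
      rcases le_total a b with h | h <;> simp [h]
    | a :: b :: c :: l =>
      rcases le_total a b with h | h <;> rcases le_total b c with h' | h' <;>
        rcases le_total a c with h'' | h'' <;>
        simp [h, h', h''] <;> (try (constructor <;> omega)) <;> omega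
  | succ i ih =>
    match l with
    | [] => simp
    | a :: l => simp [ih l]

lemma srt_of_length_le {i : ℕ} {l : List ℤ} (h : l.length ≤ i + 1) : srt i l = l := by
  induction i generalizing l with
  | zero =>
    match l with
    | [] => rfl
    | [a] => rfl
    | a :: b :: l => simp at h
  | succ i ih =>
    match l with
    | [] => rfl
    | a :: l => simp at h; simp [ih h]

lemma srt_append_left (i : ℕ) (l m : List ℤ) (h : i + 2 ≤ l.length) :
    srt i (l ++ m) = srt i l ++ m := by
  induction i generalizing l with
  | zero =>
    match l with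
    | [] => simp at h
    | [a] => simp at h
    | a :: b :: l => rfl
  | succ i ih =>
    match l with
    | [] => simp at h
    | a :: l => simp at h; simp [ih l h]

lemma srt_append_right (i : ℕ) (l m : List ℤ) : srt (l.length + i) (l ++ m) = l ++ srt i m := by
  induction l with
  | nil => simp
  | cons a l ih =>
    rw [List.length_cons, show l.length + 1 + i = (l.length + i) + 1 by ring]
    simp [ih]

/-- If the last letter of `l` is at least the first letter of `m` then sorting at a position of
`l` only acts on `l`. -/
lemma srt_append_inert (j : ℕ) (l m : List ℤ) (hj : j < l.length)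
    (h : ∀ a ∈ l.getLast?, ∀ b ∈ m.head?, b ≤ a) : srt j (l ++ m) = srt j l ++ m := by
  by_cases h2 : j + 2 ≤ l.length
  · exact srt_append_left j l m h2
  · have hj' : l.length = j + 1 := by omega
    rw [srt_of_length_le (show l.length ≤ j + 1 by omega)]
    obtain ⟨l', a, rfl⟩ : ∃ l' a, l = l' ++ [a] := by
      rcases List.eq_nil_or_concat l with rfl | ⟨l', a, rfl⟩
      · simp at hj'
      · exact ⟨l', a, by simp⟩
    have : j = l'.length + 0 := by simp at hj'; omega
    rw [this, List.append_assoc, srt_append_right]
    congr 1
    match m with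
    | [] => rfl
    | b :: m =>
      have := h a (by simp) b (by simp)
      simp [this]

/-! ### Vectors: formal integer combinations of words -/

/-- Formal integer combinations of words. -/
abbrev Vec := List ℤ →₀ ℤ

/-- The sorting operator extended linearly. -/
noncomputable def T (i : ℕ) : Module.End ℤ Vec := Finsupp.lmapDomain ℤ ℤ (srt i)

lemma T_single (i : ℕ) (w : List ℤ) (c : ℤ) :
    T i (Finsupp.single w c) = Finsupp.single (srt i w) c := by
  simp [T]

lemma T_rel : SortRel T where
  idem := by
    intro i
    refine Finsupp.lhom_ext fun w c => ?_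
    rw [Module.End.mul_apply, T_single, T_single, srt_idem]
  comm := by
    intro i j h
    refine Finsupp.lhom_ext fun w c => ?_
    rw [Module.End.mul_apply, Module.End.mul_apply, T_single, T_single, T_single, T_single, srt_comm i j w h]
  braid := by
    intro i
    refine Finsupp.lhom_ext fun w c => ?_
    rw [Module.End.mul_apply, Module.End.mul_apply, Module.End.mul_apply, Module.End.mul_apply,
      T_single, T_single, T_single, T_single, T_single, T_single, srt_braid]

/-- prepend a letter -/
noncomputable def consL (a : ℤ) : Vec →ₗ[ℤ] Vec := Finsupp.lmapDomain ℤ ℤ (fun w => a :: w)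

/-- append a word -/
noncomputable def appR (z : List ℤ) : Vec →ₗ[ℤ] Vec := Finsupp.lmapDomain ℤ ℤ (fun w => w ++ z)

lemma consL_single (a : ℤ) (w : List ℤ) (c : ℤ) :
    consL a (Finsupp.single w c) = Finsupp.single (a :: w) c := by simp [consL]

lemma appR_single (z : List ℤ) (w : List ℤ) (c : ℤ) :
    appR z (Finsupp.single w c) = Finsupp.single (w ++ z) c := by simp [appR]

lemma T_consL (i : ℕ) (a : ℤ) (v : Vec) : T (i + 1) (consL a v) = consL a (T i v) := by
  have : (T (i + 1)).comp (consL a) = (consL a).comp (T i) := by
    refine Finsupp.lhom_ext fun w c => ?_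
    simp [consL_single, T_single]
  exact LinearMap.congr_fun this v

lemma sg_apply (i : ℕ) (v : Vec) : sg T i v = T i v + T (i + 1) v - v := by
  simp [sg, LinearMap.sub_apply, LinearMap.add_apply]

lemma sg_consL (i : ℕ) (a : ℤ) (v : Vec) : sg T (i + 1) (consL a v) = consL a (sg T i v) := by
  rw [sg_apply, sg_apply, T_consL, T_consL, map_sub, map_add]

lemma sr_succ_apply (a b : ℕ) (v : Vec) : sr T a (b + 1) v = sg T (a + b) (sr T a b v) := rfl

lemma sr_consL (a b : ℕ) (c : ℤ) (v : Vec) : sr T (a + 1) b (consL c v) = consL c (sr T a b v) := by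
  induction b with
  | zero => rfl
  | succ b ih =>
    rw [sr_succ_apply, sr_succ_apply, ih, show a + 1 + b = a + b + 1 by ring, sg_consL]

/-- vectors supported in a set of words -/
abbrev Sup (A : Set (List ℤ)) : Submodule ℤ Vec := Finsupp.supported ℤ ℤ A

lemma single_mem {A : Set (List ℤ)} {w : List ℤ} (h : w ∈ A) (c : ℤ) :
    (Finsupp.single w c : Vec) ∈ Sup A := Finsupp.single_mem_supported ℤ c h

lemma lmap_mem {A B : Set (List ℤ)} {f : List ℤ → List ℤ} (h : ∀ w ∈ A, f w ∈ B) {v : Vec}
    (hv : v ∈ Sup A) : Finsupp.lmapDomain ℤ ℤ f v ∈ Sup B := by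
  classical
  rw [Finsupp.mem_supported] at hv ⊢
  intro w hw
  have := Finsupp.mapDomain_support (f := f) (s := v)
  have hw' : w ∈ v.support.image f := this hw
  rw [Finset.mem_image] at hw'
  obtain ⟨u, hu, rfl⟩ := hw'
  exact h u (hv hu)

lemma T_mem {A B : Set (List ℤ)} {i : ℕ} (h : ∀ w ∈ A, srt i w ∈ B) {v : Vec}
    (hv : v ∈ Sup A) : T i v ∈ Sup B := lmap_mem h hv

lemma consL_mem {A B : Set (List ℤ)} {a : ℤ} (h : ∀ w ∈ A, a :: w ∈ B) {v : Vec}
    (hv : v ∈ Sup A) : consL a v ∈ Sup B := lmap_mem h hv

lemma appR_mem {A B : Set (List ℤ)} {z : List ℤ} (h : ∀ w ∈ A, w ++ z ∈ B) {v : Vec}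
    (hv : v ∈ Sup A) : appR z v ∈ Sup B := lmap_mem h hv

lemma sg_mem {A B : Set (List ℤ)} {i : ℕ} (h : ∀ w ∈ A, srt i w ∈ B)
    (h' : ∀ w ∈ A, srt (i + 1) w ∈ B) (h'' : A ⊆ B) {v : Vec}
    (hv : v ∈ Sup A) : sg T i v ∈ Sup B := by
  rw [sg_apply]
  exact Submodule.sub_mem _ (Submodule.add_mem _ (T_mem h hv) (T_mem h' hv))
    (Finsupp.supported_mono h'' hv)

/-- words of length `n` -/
def Len (n : ℕ) : Set (List ℤ) := {w | w.length = n}

lemma T_len {n i : ℕ} {v : Vec} (hv : v ∈ Sup (Len n)) : T i v ∈ Sup (Len n) :=
  T_mem (fun w hw => by simpa [Len] using hw) hv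

lemma sg_len {n i : ℕ} {v : Vec} (hv : v ∈ Sup (Len n)) : sg T i v ∈ Sup (Len n) :=
  sg_mem (fun w hw => by simpa [Len] using hw) (fun w hw => by simpa [Len] using hw) le_rfl hv

lemma sr_len {n a b : ℕ} {v : Vec} (hv : v ∈ Sup (Len n)) : sr T a b v ∈ Sup (Len n) := by
  induction b with
  | zero => exact hv
  | succ b ih => rw [sr_succ_apply]; exact sg_len ih

lemma lhom_eq_on {A : Set (List ℤ)} {f g : Vec →ₗ[ℤ] Vec}
    (h : ∀ w ∈ A, f (Finsupp.single w 1) = g (Finsupp.single w 1)) {v : Vec} (hv : v ∈ Sup A) :
    f v = g v := by
  classical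
  rw [Finsupp.mem_supported] at hv
  have hv' : v = v.sum Finsupp.single := (Finsupp.sum_single v).symm
  rw [hv', Finsupp.sum, map_sum, map_sum]
  refine Finset.sum_congr rfl fun w hw => ?_
  have hw' := hv hw
  have : (Finsupp.single w (v w) : Vec) = (v w) • Finsupp.single w 1 := by simp
  rw [this, map_smul, map_smul, h w hw']

lemma T_appR {n i : ℕ} (z : List ℤ) {v : Vec} (hv : v ∈ Sup (Len n)) (hi : i + 2 ≤ n) :
    T i (appR z v) = appR z (T i v) := by
  refine lhom_eq_on (f := (T i).comp (appR z)) (g := (appR z).comp (T i)) (fun w hw => ?_) hv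
  simp only [LinearMap.comp_apply, appR_single, T_single]
  rw [srt_append_left i w z (by rw [show w.length = n from hw]; exact hi)]

lemma sg_appR {n i : ℕ} (z : List ℤ) {v : Vec} (hv : v ∈ Sup (Len n)) (hi : i + 3 ≤ n) :
    sg T i (appR z v) = appR z (sg T i v) := by
  rw [sg_apply, sg_apply, T_appR z hv (by omega), T_appR z hv (by omega), map_sub, map_add]

lemma sr_appR {n a b : ℕ} (z : List ℤ) {v : Vec} (hv : v ∈ Sup (Len n)) (hi : a + b + 2 ≤ n) :
    sr T a b (appR z v) = appR z (sr T a b v) := by
  induction b with
  | zero => rfl
  | succ b ih =>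
    rw [sr_succ_apply, sr_succ_apply, ih (by omega), sg_appR z (sr_len hv) (by omega)]

/-! ### The signed intertwiner -/

/-- `lam P H x` is the image of the word `P ++ H ++ x`, where `P` consists of negative letters
and `H` of positive ones. -/
noncomputable def lam : List ℤ → List ℤ → List ℤ → Vec
  | P, H, [] => Finsupp.single (P ++ 0 :: H) 1
  | P, H, c :: x =>
      if 0 < c then lam P (H ++ [c]) x else sr T P.length H.length (lam (P ++ [c]) H x)

lemma lam_nil (P H : List ℤ) : lam P H [] = Finsupp.single (P ++ 0 :: H) 1 := rfl

lemma lam_pos (P H : List ℤ) {c : ℤ} (x : List ℤ) (hc : 0 < c) :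
    lam P H (c :: x) = lam P (H ++ [c]) x := by
  rw [lam, if_pos hc]

lemma lam_neg (P H : List ℤ) {c : ℤ} (x : List ℤ) (hc : c < 0) :
    lam P H (c :: x) = sr T P.length H.length (lam (P ++ [c]) H x) := by
  rw [lam, if_neg (by omega)]

lemma lam_len (P H x : List ℤ) : lam P H x ∈ Sup (Len (P.length + H.length + x.length + 1)) := by
  induction x generalizing P H with
  | nil =>
    refine single_mem ?_ 1
    simp [Len]; ring
  | cons c x ih =>
    rw [lam]
    split_ifs
    · have := ih P (H ++ [c])
      simp only [List.length_append, List.length_cons, List.length_nil] at this ⊢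
      convert this using 3; ring
    · refine sr_len ?_
      have := ih (P ++ [c]) H
      simp only [List.length_append, List.length_cons, List.length_nil] at this ⊢
      convert this using 3; ring

/-- (C1) -/
lemma lam_C1 (P H u v : List ℤ) {h p : ℤ} (hh : 0 < h) (hp : p < 0) :
    lam P H (u ++ h :: p :: v) =
      sg T (P.length + H.length + u.length) (lam P H (u ++ p :: h :: v)) := by
  induction u generalizing P H with
  | nil =>
    simp only [List.nil_append, List.length_nil, add_zero]
    rw [lam_pos _ _ _ hh, lam_neg _ _ _ hp, lam_neg _ _ _ hp, lam_pos _ _ _ hh]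
    simp only [List.length_append, List.length_cons, List.length_nil, zero_add]
    rfl
  | cons c u ih =>
    simp only [List.cons_append, List.length_cons]
    rcases lt_trichotomy c 0 with hc | hc | hc
    · rw [lam_neg _ _ _ hc, lam_neg _ _ _ hc, ih]
      simp only [List.length_append, List.length_cons, List.length_nil, zero_add]
      cases u with
      | nil =>
        simp only [List.length_nil, List.nil_append, add_zero]
        rw [lam_neg _ _ _ hp]
        simp only [List.length_append, List.length_cons, List.length_nil, zero_add]
        have := T_rel.C1op P.length H.length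
        have := LinearMap.congr_fun this (lam (P ++ [c] ++ [p]) H (h :: v))
        simp only [Module.End.mul_apply] at this
        rw [show P.length + 1 + H.length = P.length + H.length + 1 by ring,
          show P.length + H.length + (0 + 1) = P.length + H.length + 1 by ring]
        exact this
      | cons d u =>
        have := T_rel.sg_sr_hi (i := P.length + 1 + H.length + (u.length + 1)) (a := P.length)
          H.length (by omega)
        have := LinearMap.congr_fun this (lam (P ++ [c]) H (d :: u ++ p :: h :: v))
        simp only [Module.End.mul_apply] at this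
        simp only [List.length_cons]
        rw [show P.length + H.length + (u.length + 1 + 1) = P.length + 1 + H.length + (u.length + 1)
          by ring]
        exact this.symm
    · subst hc
      rw [lam, lam]
      simp only [lt_irrefl, if_false]
      rw [ih]
      simp only [List.length_append, List.length_cons, List.length_nil, zero_add]
      cases u with
      | nil =>
        simp only [List.length_nil, List.nil_append, add_zero]
        rw [lam_neg _ _ _ hp]
        simp only [List.length_append, List.length_cons, List.length_nil, zero_add]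
        have := T_rel.C1op P.length H.length
        have := LinearMap.congr_fun this (lam (P ++ [0] ++ [p]) H (h :: v))
        simp only [Module.End.mul_apply] at this
        rw [show P.length + 1 + H.length = P.length + H.length + 1 by ring,
          show P.length + H.length + (0 + 1) = P.length + H.length + 1 by ring]
        exact this
      | cons d u =>
        have := T_rel.sg_sr_hi (i := P.length + 1 + H.length + (u.length + 1)) (a := P.length)
          H.length (by omega)
        have := LinearMap.congr_fun this (lam (P ++ [0]) H (d :: u ++ p :: h :: v))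
        simp only [Module.End.mul_apply] at this
        simp only [List.length_cons]
        rw [show P.length + H.length + (u.length + 1 + 1) = P.length + 1 + H.length + (u.length + 1)
          by ring]
        exact this.symm
    · rw [lam_pos _ _ _ hc, lam_pos _ _ _ hc, ih]
      simp only [List.length_append, List.length_cons, List.length_nil, zero_add]
      rw [show P.length + (H.length + 1) + u.length = P.length + H.length + (u.length + 1) by ring]

end Pool.Agent.Work.MP_71af4b_pr
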